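import Pool.Agent.H96.RW.Defs

namespace Pool.Agent.H96.RW

open MeasureTheory ProbabilityTheory Filter Topology
open scoped ENNReal

namespace Bc

variable (p : Measure ℝ) [IsProbabilityMeasure p]

/-- The law of the environment. -/
noncomputable abbrev PP : Measure (ℤ → ℝ) := Measure.infinitePi fun _ : ℤ => p

theorem indepCoord : iIndepFun (fun (i : ℤ) (w : ℤ → ℝ) => w i) (PP p) :=
  iIndepFun_infinitePi (X := fun _ x => x) (fun _ => measurable_id)

theorem map_coord (i : ℤ) : (PP p).map (fun w => w i) = p := by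
  have := Measure.infinitePi_map_eval (fun _ : ℤ => p) i
  simpa [Function.eval] using this

theorem ae_coord {q : ℝ → Prop} (hq : ∀ᵐ a ∂p, q a) : ∀ᵐ w ∂(PP p), ∀ i : ℤ, q (w i) := by
  rw [ae_all_iff]
  intro i
  have h := measurePreserving_eval_infinitePi (fun _ : ℤ => p) i
  exact h.quasiMeasurePreserving.ae hq

/-- The i.i.d. sequence read along an injective sequence of coordinates. -/
theorem map_seq (g : ℕ → ℤ) (hg : Function.Injective g) :
    (PP p).map (fun (w : ℤ → ℝ) (n : ℕ) => w (g n)) = Measure.infinitePi fun _ : ℕ => p := by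
  have h := (indepCoord p).precomp hg
  have h2 := h.map_fun_eq_infinitePi_map (fun n => measurable_pi_apply (g n))
  rw [h2]
  congr 1
  funext n
  exact map_coord p (g n)

theorem summ (f : ℝ → ℝ) (hf : Measurable f) (hneg : ∫ a, f a ∂p < 0) (g : ℕ → ℤ)
    (hg : Function.Injective g) :
    ∀ᵐ w ∂(PP p), Summable fun n : ℕ => Real.exp (∑ k ∈ Finset.range n, f (w (g k))) := by
  have hint : Integrable f p := by
    by_contra h
    rw [integral_undef h] at hneg
    exact lt_irrefl _ hneg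
  have hmp : ∀ i : ℤ, MeasurePreserving (fun w : ℤ → ℝ => w i) (PP p) p := fun i =>
    measurePreserving_eval_infinitePi (fun _ : ℤ => p) i
  have hfm : ∀ n, Measurable fun w : ℤ → ℝ => f (w (g n)) := fun n =>
    hf.comp (measurable_pi_apply (g n))
  have hint0 : Integrable (fun w : ℤ → ℝ => f (w (g 0))) (PP p) :=
    (hmp (g 0)).integrable_comp_of_integrable hint
  have hE : ∫ w, f (w (g 0)) ∂(PP p) = ∫ a, f a ∂p := by
    rw [← map_coord p (g 0), integral_map (measurable_pi_apply (g 0)).aemeasurable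
      hf.aestronglyMeasurable]
    simp only [map_coord]
  have hsl := strong_law_ae_real (μ := PP p) (fun n (w : ℤ → ℝ) => f (w (g n))) hint0
    (by
      intro i j hij
      have h := (indepCoord p).indepFun (hg.ne hij)
      exact h.comp hf hf)
    (fun n => by
      refine ⟨(hfm n).aemeasurable, (hfm 0).aemeasurable, ?_⟩
      have h1 : (PP p).map (fun w : ℤ → ℝ => f (w (g n))) = p.map f := by
        rw [← map_coord p (g n), Measure.map_map hf (measurable_pi_apply (g n))]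
        simp only [map_coord]
        rfl
      have h2 : (PP p).map (fun w : ℤ → ℝ => f (w (g 0))) = p.map f := by
        rw [← map_coord p (g 0), Measure.map_map hf (measurable_pi_apply (g 0))]
        simp only [map_coord]
        rfl
      rw [h1, h2])
  filter_upwards [hsl] with w hw
  rw [hE] at hw
  set μ := ∫ a, f a ∂p with hμ
  have hev : ∀ᶠ n : ℕ in atTop, (∑ i ∈ Finset.range n, f (w (g i))) / n < μ / 2 :=
    hw.eventually_lt_const (by linarith)
  have hgeo : Summable fun n : ℕ => Real.exp (μ / 2) ^ n :=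
    summable_geometric_of_lt_one (Real.exp_pos _).le (by
      rw [Real.exp_lt_one_iff]; linarith)
  refine Summable.of_norm_bounded_eventually_nat hgeo ?_
  filter_upwards [hev, eventually_gt_atTop 0] with n hn hn0
  rw [Real.norm_eq_abs, abs_of_pos (Real.exp_pos _), ← Real.exp_nat_mul]
  refine Real.exp_le_exp.2 ?_
  have hn0' : (0 : ℝ) < n := by exact_mod_cast hn0
  rw [div_lt_iff₀ hn0'] at hn
  linarith


/-- The event of the block after `a`. -/
def Bk (D : Set (ℕ → ℝ)) (a : ℕ) : Set (ℤ → ℝ) := {w | (fun i : ℕ => w (a + 1 + i)) ∈ D}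

/-- The σ-algebra of the coordinates in `S`. -/
@[instance_reducible] def Ms (S : Set ℤ) : MeasurableSpace (ℤ → ℝ) :=
  ⨆ i ∈ S, MeasurableSpace.comap (fun w : ℤ → ℝ => w i) inferInstance

theorem meas_block (m : ℕ) (D : Set (ℕ → ℝ)) (hDm : MeasurableSet D)
    (hD : ∀ x y : ℕ → ℝ, (∀ i < 3 * m, x i = y i) → (x ∈ D ↔ y ∈ D)) (a : ℕ) (S : Set ℤ)
    (hS : ∀ i : ℕ, i < 3 * m → (a + 1 + i : ℤ) ∈ S) : MeasurableSet[Ms S] (Bk D a) := by
  have hτ : @Measurable (ℤ → ℝ) (ℕ → ℝ) (Ms S) _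
      (fun w i => if i < 3 * m then w (a + 1 + i) else 0) := by
    refine @measurable_pi_lambda (ℤ → ℝ) ℕ (fun _ => ℝ) (Ms S) _ _ fun i => ?_
    by_cases hi : i < 3 * m
    · simp only [hi, if_true]
      refine measurable_iff_comap_le.2 ?_
      exact le_iSup₂_of_le (f := fun (i : ℤ) (_ : i ∈ S) =>
        MeasurableSpace.comap (fun w : ℤ → ℝ => w i) inferInstance) (a + 1 + i : ℤ) (hS i hi) le_rfl
    · simp only [hi, if_false]
      exact @measurable_const _ _ _ (Ms S) _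
  have heq : Bk D a = (fun (w : ℤ → ℝ) (i : ℕ) => if i < 3 * m then w (a + 1 + i) else 0) ⁻¹' D := by
    ext w
    simp only [Bk, Set.mem_preimage]
    refine hD _ _ fun i hi => ?_
    simp [hi]
  rw [heq]
  exact hτ hDm

theorem indep_Ms (S T : Set ℤ) (h : Disjoint S T) : Indep (Ms S) (Ms T) (PP p) := by
  have h1 := (iIndepFun_iff_iIndep _ _ _).1 (indepCoord p)
  exact indep_iSup_of_disjoint (fun i => (measurable_pi_apply i).comap_le) h1 h

theorem prob_Bk (D : Set (ℕ → ℝ)) (hDm : MeasurableSet D) (a : ℕ) :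
    PP p (Bk D a) = (Measure.infinitePi fun _ : ℕ => p) D := by
  have hg : Function.Injective fun n : ℕ => (a + 1 + n : ℤ) := by
    intro x y h
    simp only at h
    omega
  rw [← map_seq p _ hg, Measure.map_apply _ hDm]
  · rfl
  · exact measurable_pi_iff.2 fun n => measurable_pi_apply _

theorem inter_le (c : ℝ) (a m : ℕ → ℕ) (D : ℕ → Set (ℕ → ℝ))
    (hDm : ∀ m, MeasurableSet (D m))
    (hD : ∀ m, ∀ x y : ℕ → ℝ, (∀ i < 3 * m, x i = y i) → (x ∈ D m ↔ y ∈ D m))
    (hstep : ∀ k, a k + 3 * m k ≤ a (k + 1))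
    (hprob : ∀ k, ENNReal.ofReal c ≤ PP p (Bk (D (m k)) (a k))) (k0 n : ℕ) :
    PP p {w | ∀ k < n, w ∉ Bk (D (m (k0 + k))) (a (k0 + k))} ≤ (1 - ENNReal.ofReal c) ^ n := by
  have hmono : Monotone a := monotone_nat_of_le_succ fun k => by have := hstep k; omega
  induction n with
  | zero => simp
  | succ n ih =>
    set S : Set ℤ := {i | i ≤ a (k0 + n)} with hS
    set T : Set ℤ := {i | (a (k0 + n) : ℤ) < i} with hT
    have hdis : Disjoint S T := by
      rw [Set.disjoint_left]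
      intro i h1 h2
      simp only [hS, hT, Set.mem_ofPred_eq] at h1 h2
      omega
    have hA : MeasurableSet[Ms S] {w | ∀ k < n, w ∉ Bk (D (m (k0 + k))) (a (k0 + k))} := by
      have heq : {w : ℤ → ℝ | ∀ k < n, w ∉ Bk (D (m (k0 + k))) (a (k0 + k))}
          = ⋂ k ∈ Finset.range n, (Bk (D (m (k0 + k))) (a (k0 + k)))ᶜ := by
        ext w
        simp
      rw [heq]
      refine @Finset.measurableSet_biInter _ _ (Ms S) _ _ fun k hk => ?_
      refine @MeasurableSet.compl _ _ (Ms S) (meas_block (m (k0 + k)) _ (hDm _) (hD _) _ _ ?_)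
      intro i hi
      have h1 := hstep (k0 + k)
      have h2 : a (k0 + k + 1) ≤ a (k0 + n) := hmono (by
        have := Finset.mem_range.1 hk
        omega)
      simp only [hS, Set.mem_ofPred_eq]
      omega
    have hB : MeasurableSet[Ms T] (Bk (D (m (k0 + n))) (a (k0 + n))) := by
      refine meas_block (m (k0 + n)) _ (hDm _) (hD _) _ _ ?_
      intro i hi
      simp only [hT, Set.mem_ofPred_eq]
      omega
    have hMT : Ms T ≤ MeasurableSpace.pi :=
      iSup₂_le fun i _ => (measurable_pi_apply i).comap_le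
    have hBm : MeasurableSet (Bk (D (m (k0 + n))) (a (k0 + n))) := hMT _ hB
    have hind := (Indep_iff _ _ _).1 (indep_Ms p S T hdis) _ _ hA (@MeasurableSet.compl _ _ (Ms T) hB)
    have heq : {w : ℤ → ℝ | ∀ k < n + 1, w ∉ Bk (D (m (k0 + k))) (a (k0 + k))}
        = {w | ∀ k < n, w ∉ Bk (D (m (k0 + k))) (a (k0 + k))} ∩
          (Bk (D (m (k0 + n))) (a (k0 + n)))ᶜ := by
      ext w
      simp only [Set.mem_ofPred_eq, Set.mem_inter_iff, Set.mem_compl_iff]
      constructor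
      · intro h
        exact ⟨fun k hk => h k (by omega), h n (by omega)⟩
      · rintro ⟨h1, h2⟩ k hk
        rcases Nat.lt_succ_iff_lt_or_eq.1 hk with hk | hk
        · exact h1 k hk
        · rw [hk]; exact h2
    rw [heq, hind, pow_succ]
    refine mul_le_mul' ih ?_
    rw [prob_compl_eq_one_sub hBm]
    exact tsub_le_tsub_left (hprob _) _

theorem freq (c : ℝ) (hc : 0 < c) (a m : ℕ → ℕ) (D : ℕ → Set (ℕ → ℝ))
    (hDm : ∀ m, MeasurableSet (D m))
    (hD : ∀ m, ∀ x y : ℕ → ℝ, (∀ i < 3 * m, x i = y i) → (x ∈ D m ↔ y ∈ D m))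
    (hstep : ∀ k, a k + 3 * m k ≤ a (k + 1))
    (hprob : ∀ k, ENNReal.ofReal c ≤ PP p (Bk (D (m k)) (a k))) :
    ∀ᵐ w ∂(PP p), ∀ k0 : ℕ, ∃ k, k0 ≤ k ∧ w ∈ Bk (D (m k)) (a k) := by
  rw [ae_all_iff]
  intro k0
  rw [ae_iff]
  have hlim : Tendsto (fun n : ℕ => (1 - ENNReal.ofReal c) ^ n) atTop (𝓝 0) := by
    refine ENNReal.tendsto_pow_atTop_nhds_zero_of_lt_one ?_
    exact ENNReal.sub_lt_self ENNReal.one_ne_top one_ne_zero (ENNReal.ofReal_pos.2 hc).ne'
  refine le_antisymm (ge_of_tendsto hlim (Eventually.of_forall fun n => ?_)) zero_le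
  refine le_trans (measure_mono ?_) (inter_le p c a m D hDm hD hstep hprob k0 n)
  intro w hw
  simp only [Set.mem_ofPred_eq, not_exists, not_and] at hw ⊢
  exact fun k _ => hw (k0 + k) (by omega)

/-- Tail of an almost surely finite variable. -/
theorem tail {Ω : Type*} [MeasurableSpace Ω] (P : Measure Ω) [IsProbabilityMeasure P]
    (F : Ω → ℝ≥0∞) (hF : Measurable F) (hfin : ∀ᵐ w ∂P, F w < ∞) (δ : ℝ≥0∞) (hδ : 0 < δ) :
    ∃ M₀ : ℕ, ∀ M : ℕ, M₀ ≤ M → P {w | (M : ℝ≥0∞) < F w} ≤ δ := by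
  have hm : ∀ M : ℕ, MeasurableSet {w | (M : ℝ≥0∞) < F w} := fun M =>
    measurableSet_lt measurable_const hF
  have hanti : Antitone fun M : ℕ => {w | (M : ℝ≥0∞) < F w} := by
    intro M N hMN w hw
    simp only [Set.mem_ofPred_eq] at hw ⊢
    exact lt_of_le_of_lt (by exact_mod_cast hMN) hw
  have h := tendsto_measure_iInter_atTop (μ := P) (fun M => (hm M).nullMeasurableSet) hanti
    ⟨0, measure_ne_top _ _⟩
  have h0 : P (⋂ M : ℕ, {w | (M : ℝ≥0∞) < F w}) = 0 := by
    refine measure_mono_null ?_ (ae_iff.1 hfin)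
    intro w hw
    simp only [Set.mem_iInter, Set.mem_ofPred_eq] at hw ⊢
    intro hlt
    obtain ⟨n, hn⟩ := ENNReal.exists_nat_gt hlt.ne
    exact absurd (hw n) (not_lt.2 hn.le)
  rw [h0] at h
  obtain ⟨M₀, hM₀⟩ := eventually_atTop.1 (h.eventually_le_const hδ)
  exact ⟨M₀, hM₀⟩


/-- The `ℝ≥0∞`-valued mean crossing time. -/
noncomputable def WE (w : ℤ → ℝ) (i : ℤ) : ℝ≥0∞ :=
  ∑' j : ℕ, ENNReal.ofReal (1 / w (i - j) * Real.exp (pot w (i - j) i))

/-- The `ℝ≥0∞`-valued sum over the part of the environment after `a`. -/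
noncomputable def HE (w : ℤ → ℝ) (a : ℕ) : ℝ≥0∞ :=
  ∑' n : ℕ, ENNReal.ofReal (Real.exp (pot w a (a + 1 + n)))

theorem measurable_pot (x y : ℤ) : Measurable fun w : ℤ → ℝ => pot w x y := by
  unfold pot rho
  fun_prop

theorem measurable_WE (i : ℤ) : Measurable fun w : ℤ → ℝ => WE w i := by
  unfold WE
  refine Measurable.tsum fun j => ENNReal.measurable_ofReal.comp ?_
  have h1 : Measurable fun w : ℤ → ℝ => w (i - j) := measurable_pi_apply _
  exact (h1.const_div 1).mul (Real.measurable_exp.comp (measurable_pot _ _))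

theorem measurable_HE (a : ℕ) : Measurable fun w : ℤ → ℝ => HE w a := by
  unfold HE
  exact Measurable.tsum fun j => ENNReal.measurable_ofReal.comp
    (Real.measurable_exp.comp (measurable_pot _ _))

theorem pot_left (w : ℤ → ℝ) (i : ℤ) (j : ℕ) :
    pot w (i - j) i = ∑ k ∈ Finset.range j, Real.log ((1 - w (i - k)) / w (i - k)) := by
  induction j with
  | zero => simp [pot]
  | succ j ih =>
    rw [Finset.sum_range_succ, ← ih]
    have h : Finset.Ioc (i - ((j + 1 : ℕ) : ℤ)) i = insert (i - j : ℤ) (Finset.Ioc (i - (j : ℤ)) i) := by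
      ext k
      simp only [Finset.mem_Ioc, Finset.mem_insert]
      push_cast
      omega
    rw [pot, h, Finset.sum_insert (by simp)]
    rw [pot, rho, add_comm]

theorem pot_right (w : ℤ → ℝ) (a : ℤ) (n : ℕ) :
    pot w a (a + n) = ∑ k ∈ Finset.range n,
      Real.log ((1 - w (a + 1 + k)) / w (a + 1 + k)) := by
  induction n with
  | zero => simp [pot]
  | succ n ih =>
    rw [Finset.sum_range_succ, ← ih]
    have h : Finset.Ioc a (a + ((n + 1 : ℕ) : ℤ)) = insert (a + 1 + n : ℤ) (Finset.Ioc a (a + n)) := by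
      ext k
      simp only [Finset.mem_Ioc, Finset.mem_insert]
      push_cast
      omega
    rw [pot, h, Finset.sum_insert (by simp only [Finset.mem_Ioc]; omega)]
    rw [pot, rho, add_comm]

theorem measurable_lr : Measurable fun a : ℝ => Real.log ((1 - a) / a) := by fun_prop

/-- Almost sure summability to the left. -/
theorem summ_left (ε : ℝ) (hε : 0 < ε) (hp : ∀ᵐ a ∂p, ε ≤ a ∧ a ≤ 1 - ε)
    (hlog : ∫ a, Real.log ((1 - a) / a) ∂p < 0) :
    ∀ᵐ w ∂(PP p), ∀ i : ℤ, Summable fun j : ℕ => 1 / w (i - j) * Real.exp (pot w (i - j) i) := by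
  rw [ae_all_iff]
  intro i
  filter_upwards [ae_coord p hp, summ p _ measurable_lr hlog (fun k : ℕ => i - k)
    (by intro x y h; simp only at h; omega)] with w hw hs
  refine Summable.of_nonneg_of_le (fun j => ?_) (fun j => ?_) (hs.mul_left (1 / ε))
  · have : 0 < w (i - j) := lt_of_lt_of_le hε (hw (i - j)).1
    positivity
  · rw [pot_left]
    refine mul_le_mul_of_nonneg_right ?_ (Real.exp_pos _).le
    exact one_div_le_one_div_of_le hε (hw (i - j)).1

theorem summ_right (hlog : ∫ a, Real.log ((1 - a) / a) ∂p < 0) (a : ℕ) :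
    ∀ᵐ w ∂(PP p), Summable fun n : ℕ => Real.exp (pot w a (a + 1 + n)) := by
  filter_upwards [summ p _ measurable_lr hlog (fun k : ℕ => (a : ℤ) + 1 + k)
    (by intro x y h; simp only at h; omega)] with w hs
  have := (summable_nat_add_iff 1).2 hs
  refine this.congr fun n => ?_
  have h := pot_right w a (n + 1)
  rw [← h]
  congr 2
  push_cast
  ring

end Bc

open Bc in
/-- Borel-Cantelli for disjoint blocks of the environment. -/
theorem env_bc (p : Measure ℝ) [IsProbabilityMeasure p] (ε : ℝ) (hε : 0 < ε) (hε2 : ε < 1 / 2)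
    (hp : ∀ᵐ a ∂p, ε ≤ a ∧ a ≤ 1 - ε) (hlog : ∫ a, Real.log ((1 - a) / a) ∂p < 0)
    (c : ℝ) (hc : 0 < c) (m₀ : ℕ) (D : ℕ → Set (ℕ → ℝ)) (hDm : ∀ m, MeasurableSet (D m))
    (hD : ∀ m, ∀ x y : ℕ → ℝ, (∀ i < 3 * m, x i = y i) → (x ∈ D m ↔ y ∈ D m))
    (hDc : ∀ m, m₀ ≤ m → ENNReal.ofReal c ≤ (Measure.infinitePi fun _ : ℕ => p) (D m)) :
    ∀ᵐ w ∂(Measure.infinitePi fun _ : ℤ => p),
      (∀ i : ℤ, Summable fun j : ℕ => 1 / w (i - j) * Real.exp (pot w (i - j) i)) ∧
      ∀ N : ℕ, ∃ a m : ℕ, N ≤ a ∧ a ≤ m ∧ (∑ i ∈ Finset.Icc (-a : ℤ) a, Wf w i ≤ m) ∧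
        (∀ n : ℕ, ∑ i ∈ Finset.Ioc (a : ℤ) (a + n), Real.exp (pot w a i) ≤ Real.sqrt m) ∧
        (fun i : ℕ => w (a + 1 + i)) ∈ D m := by
  classical
  have hGfin : ∀ a : ℕ, ∀ᵐ w ∂(PP p), ∑ i ∈ Finset.Icc (-a : ℤ) a, WE w i < ∞ := by
    intro a
    filter_upwards [summ_left p ε hε hp hlog, ae_coord p hp] with w hw hw2
    refine ENNReal.sum_lt_top.2 fun i _ => ?_
    rw [WE, ← ENNReal.ofReal_tsum_of_nonneg _ (hw i)]
    · exact ENNReal.ofReal_lt_top
    · intro j
      have : 0 < w (i - j) := lt_of_lt_of_le hε (hw2 (i - j)).1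
      positivity
  have hHfin : ∀ a : ℕ, ∀ᵐ w ∂(PP p), HE w a < ∞ := by
    intro a
    filter_upwards [summ_right p hlog a] with w hw
    rw [HE, ← ENNReal.ofReal_tsum_of_nonneg (fun n => (Real.exp_pos _).le) hw]
    exact ENNReal.ofReal_lt_top
  have hchoice : ∀ a k : ℕ, ∃ m : ℕ, a ≤ m ∧ m₀ ≤ m ∧
      PP p {w | (m : ℝ≥0∞) < ∑ i ∈ Finset.Icc (-a : ℤ) a, WE w i} ≤ (1 / 2) ^ k ∧
      PP p {w | ENNReal.ofReal (Real.sqrt m) < HE w a} ≤ (1 / 2) ^ k := by
    intro a k
    have hδ : (0 : ℝ≥0∞) < (1 / 2) ^ k := by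
      refine ENNReal.pow_pos ?_ k
      simp
    obtain ⟨M₁, h1⟩ := tail (PP p) (fun w => ∑ i ∈ Finset.Icc (-a : ℤ) a, WE w i)
      (Finset.measurable_sum _ fun i _ => measurable_WE i) (hGfin a) _ hδ
    obtain ⟨M₂, h2⟩ := tail (PP p) (fun w => HE w a) (measurable_HE a) (hHfin a) _ hδ
    refine ⟨max (max a m₀) (max M₁ (M₂ ^ 2)), le_trans (le_max_left _ _) (le_max_left _ _),
      le_trans (le_max_right _ _) (le_max_left _ _),
      h1 _ (le_trans (le_max_left _ _) (le_max_right _ _)), ?_⟩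
    refine le_trans (measure_mono ?_) (h2 M₂ le_rfl)
    intro w hw
    simp only [Set.mem_ofPred_eq] at hw ⊢
    refine lt_of_le_of_lt ?_ hw
    rw [← ENNReal.ofReal_natCast]
    refine ENNReal.ofReal_le_ofReal (Real.le_sqrt_of_sq_le ?_)
    have : M₂ ^ 2 ≤ max (max a m₀) (max M₁ (M₂ ^ 2)) :=
      le_trans (le_max_right _ _) (le_max_right _ _)
    exact_mod_cast this
  choose μ hμ1 hμ2 hμ3 hμ4 using hchoice
  obtain ⟨A, hA⟩ : ∃ A : ℕ → ℕ, ∀ k, A (k + 1) = A k + 3 * μ (A k) k + 1 :=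
    ⟨fun k => Nat.rec 0 (fun k a => a + 3 * μ a k + 1) k, fun k => rfl⟩
  have hAk : ∀ k, k ≤ A k := by
    intro k
    induction k with
    | zero => exact Nat.zero_le _
    | succ k ih => rw [hA]; omega
  have hfreq := freq p c hc A (fun k => μ (A k) k) D hDm hD (fun k => by rw [hA]; omega)
    (fun k => by rw [prob_Bk p _ (hDm _)]; exact hDc _ (hμ2 _ _))
  have hsum : ∀ F : ℕ → Set (ℤ → ℝ), (∀ k, PP p (F k) ≤ (1 / 2) ^ k) →
      ∀ᵐ w ∂(PP p), ∀ᶠ k in atTop, w ∉ F k := by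
    intro F hF
    refine ae_eventually_notMem (ne_top_of_le_ne_top ?_ (ENNReal.tsum_le_tsum hF))
    rw [ENNReal.tsum_geometric]
    refine ENNReal.inv_ne_top.2 ?_
    have : (1 / 2 : ℝ≥0∞) < 1 := by
      rw [one_div]
      exact ENNReal.one_half_lt_one
    exact (tsub_pos_of_lt this).ne'
  filter_upwards [summ_left p ε hε hp hlog, ae_coord p hp, hfreq,
    hsum _ (fun k => hμ3 (A k) k), hsum _ (fun k => hμ4 (A k) k)] with w hw1 hw2 hw3 hw4 hw5
  refine ⟨hw1, fun N => ?_⟩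
  obtain ⟨K, hK⟩ := eventually_atTop.1 (hw4.and hw5)
  obtain ⟨k, hk, hkB⟩ := hw3 (max N K)
  obtain ⟨h4, h5⟩ := hK k (le_trans (le_max_right _ _) hk)
  refine ⟨A k, μ (A k) k, le_trans (le_trans (le_max_left _ _) hk) (hAk k), hμ1 _ _, ?_, ?_, hkB⟩
  · simp only [not_lt] at h4
    have hpos : ∀ i : ℤ, ∀ j : ℕ, 0 ≤ 1 / w (i - j) * Real.exp (pot w (i - j) i) := by
      intro i j
      have : 0 < w (i - j) := lt_of_lt_of_le hε (hw2 (i - j)).1
      positivity
    have heq : ∑ i ∈ Finset.Icc (-((A k : ℕ) : ℤ)) ((A k : ℕ) : ℤ), WE w i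
        = ENNReal.ofReal (∑ i ∈ Finset.Icc (-((A k : ℕ) : ℤ)) ((A k : ℕ) : ℤ), Wf w i) := by
      have hW : ∀ i : ℤ, 0 ≤ Wf w i := fun i => tsum_nonneg (hpos i)
      rw [ENNReal.ofReal_sum_of_nonneg (fun i _ => hW i)]
      refine Finset.sum_congr rfl fun i _ => ?_
      rw [WE, Wf, ENNReal.ofReal_tsum_of_nonneg (hpos i) (hw1 i)]
    rw [heq, ← ENNReal.ofReal_natCast] at h4
    exact (ENNReal.ofReal_le_ofReal_iff (Nat.cast_nonneg _)).1 h4
  · intro n
    simp only [not_lt] at h5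
    have hle : ENNReal.ofReal (∑ i ∈ Finset.Ioc ((A k : ℕ) : ℤ) ((A k : ℕ) + n : ℤ), Real.exp (pot w ((A k : ℕ) : ℤ) i))
        ≤ HE w (A k) := by
      rw [HE]
      refine le_trans (le_of_eq ?_) (ENNReal.sum_le_tsum (Finset.range n))
      rw [ENNReal.ofReal_sum_of_nonneg (fun i _ => (Real.exp_pos _).le)]
      symm
      refine Finset.sum_nbij' (fun j : ℕ => ((A k : ℤ) + 1 + j)) (fun i : ℤ => (i - (A k) - 1).toNat)
        ?_ ?_ ?_ ?_ ?_
      · intro j hj
        have := Finset.mem_range.1 hj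
        simp only [Finset.mem_Ioc]
        omega
      · intro i hi
        simp only [Finset.mem_Ioc, Finset.mem_range] at hi ⊢
        omega
      · intro j hj
        omega
      · intro i hi
        simp only [Finset.mem_Ioc] at hi ⊢
        omega
      · intro j hj
        rfl
    exact (ENNReal.ofReal_le_ofReal_iff (Real.sqrt_nonneg _)).1 (le_trans hle h5)

end Pool.Agent.H96.RW
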