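import Pool.Agent.H96.RW.Law

/-!
# Maximal inequality and exponential bound for random walks with bounded steps
-/

namespace Pool.Agent.H96.RW

open MeasureTheory ProbabilityTheory Filter Topology
open scoped ENNReal

theorem Sm_cns (a : ℝ) (v : ℕ → ℝ) (k : ℕ) : Sm (cns (a, v)) (k + 1) = a + Sm v k := by
  unfold Sm
  rw [Finset.sum_range_succ']
  simp only [cns_zero, cns_succ]
  ring

theorem Sm_zero (x : ℕ → ℝ) : Sm x 0 = 0 := by simp [Sm]

theorem measurable_Sm (k : ℕ) : Measurable (fun x : ℕ → ℝ => Sm x k) := by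
  unfold Sm
  exact Finset.measurable_sum _ fun i _ => measurable_pi_apply i

/-- First step decomposition. -/
theorem step_le (μ : Measure ℝ) [IsProbabilityMeasure μ] (E : Set (ℕ → ℝ)) (hE : MeasurableSet E)
    (F : ℝ → Set (ℕ → ℝ)) (hF : ∀ a v, cns (a, v) ∈ E → v ∈ F a) :
    (Measure.infinitePi fun _ : ℕ => μ) E ≤
      ∫⁻ a, (Measure.infinitePi fun _ : ℕ => μ) (F a) ∂μ := by
  conv_lhs => rw [← cns_map μ]
  rw [Measure.map_apply measurable_cns hE, Measure.prod_apply (measurable_cns hE)]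
  exact lintegral_mono fun a => measure_mono fun v hv => hF a v hv

theorem integrable_exp_mul (μ : Measure ℝ) [IsProbabilityMeasure μ] (L : ℝ)
    (hL : ∀ᵐ x ∂μ, |x| ≤ L) (θ : ℝ) : Integrable (fun x => Real.exp (θ * x)) μ := by
  refine Integrable.of_bound (by fun_prop) (Real.exp (|θ| * L)) ?_
  filter_upwards [hL] with x hx
  rw [Real.norm_eq_abs, abs_of_pos (Real.exp_pos _)]
  refine Real.exp_le_exp.2 ((le_abs_self _).trans ?_)
  rw [abs_mul]
  exact mul_le_mul_of_nonneg_left hx (abs_nonneg _)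

theorem max_ineq (μ : Measure ℝ) [IsProbabilityMeasure μ] (L : ℝ) (hL : ∀ᵐ x ∂μ, |x| ≤ L)
    (h1 : ∫ x, Real.exp (x / 2) ∂μ = 1) (h : ℝ) (n : ℕ) :
    (Measure.infinitePi fun _ : ℕ => μ) {x | ∃ k ≤ n, h ≤ Sm x k} ≤
      ENNReal.ofReal (Real.exp (-h / 2)) := by
  have hint : Integrable (fun x => Real.exp (x / 2)) μ := by
    by_contra hn
    rw [integral_undef hn] at h1
    exact zero_ne_one h1
  have triv : ∀ (h : ℝ), h ≤ 0 → ∀ n : ℕ,
      (Measure.infinitePi fun _ : ℕ => μ) {x | ∃ k ≤ n, h ≤ Sm x k} ≤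
      ENNReal.ofReal (Real.exp (-h / 2)) := by
    intro h h0 n
    refine prob_le_one.trans ?_
    rw [← ENNReal.ofReal_one]
    refine ENNReal.ofReal_le_ofReal ?_
    rw [← Real.exp_zero]
    exact Real.exp_le_exp.2 (by linarith)
  have hmeas : ∀ (h : ℝ) (n : ℕ), MeasurableSet {x : ℕ → ℝ | ∃ k ≤ n, h ≤ Sm x k} := by
    intro h n
    have : {x : ℕ → ℝ | ∃ k ≤ n, h ≤ Sm x k} = ⋃ k ∈ Finset.range (n + 1), {x | h ≤ Sm x k} := by
      ext x
      simp
    rw [this]
    exact Finset.measurableSet_biUnion _ fun k _ => measurableSet_le measurable_const (measurable_Sm k)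
  induction n generalizing h with
  | zero =>
    rcases le_or_gt h 0 with h0 | h0
    · exact triv h h0 0
    · have : {x : ℕ → ℝ | ∃ k ≤ 0, h ≤ Sm x k} = ∅ := by
        ext x
        simp only [Nat.le_zero, exists_eq_left, Sm_zero, Set.mem_ofPred_eq,
          Set.mem_empty_iff_false, iff_false, not_le]
        exact h0
      rw [this, measure_empty]
      exact bot_le
  | succ n ih =>
    rcases le_or_gt h 0 with h0 | h0
    · exact triv h h0 (n + 1)
    · refine (step_le μ _ (hmeas h (n + 1)) (fun a => {v | ∃ k ≤ n, h - a ≤ Sm v k}) ?_).trans ?_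
      · rintro a v ⟨k, hk, hkh⟩
        cases k with
        | zero =>
          rw [Sm_zero] at hkh
          exact absurd hkh (not_le.2 h0)
        | succ k =>
          rw [Sm_cns] at hkh
          exact ⟨k, by omega, by linarith⟩
      · calc ∫⁻ a, (Measure.infinitePi fun _ : ℕ => μ) {v | ∃ k ≤ n, h - a ≤ Sm v k} ∂μ
            ≤ ∫⁻ a, ENNReal.ofReal (Real.exp (-(h - a) / 2)) ∂μ := lintegral_mono fun a => ih (h - a)
          _ = ENNReal.ofReal (∫ a, Real.exp (-(h - a) / 2) ∂μ) := by
              rw [ofReal_integral_eq_lintegral_ofReal _ (Eventually.of_forall fun a => (Real.exp_pos _).le)]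
              have : (fun a => Real.exp (-(h - a) / 2)) = fun a => Real.exp (-h / 2) * Real.exp (a / 2) := by
                funext a
                rw [← Real.exp_add]
                congr 1
                ring
              rw [this]
              exact hint.const_mul _
          _ = ENNReal.ofReal (Real.exp (-h / 2)) := by
              have : (fun a => Real.exp (-(h - a) / 2)) = fun a => Real.exp (-h / 2) * Real.exp (a / 2) := by
                funext a
                rw [← Real.exp_add]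
                congr 1
                ring
              rw [this, integral_const_mul, h1, mul_one]

theorem exists_theta (μ : Measure ℝ) [IsProbabilityMeasure μ] (L : ℝ) (hL : ∀ᵐ x ∂μ, |x| ≤ L)
    (h2 : ∫ x, x ∂μ < 0) : ∃ θ : ℝ, 0 < θ ∧ ∫ x, Real.exp (θ * x) ∂μ < 1 := by
  set L' : ℝ := max L 1 with hL'
  have hL1 : 1 ≤ L' := le_max_right _ _
  have hL0 : 0 < L' := by linarith
  have hLL : ∀ᵐ x ∂μ, |x| ≤ L' := by
    filter_upwards [hL] with x hx using hx.trans (le_max_left _ _)
  set m : ℝ := ∫ x, x ∂μ with hm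
  have hxi : Integrable (fun x : ℝ => x) μ := by
    refine Integrable.of_bound (by fun_prop) L' ?_
    filter_upwards [hLL] with x hx
    rwa [Real.norm_eq_abs]
  refine ⟨min (1 / L') (-m / (2 * L' ^ 2)), ?_, ?_⟩
  · exact lt_min (by positivity) (div_pos (by linarith) (by positivity))
  set θ : ℝ := min (1 / L') (-m / (2 * L' ^ 2)) with hθ
  have hθ0 : 0 < θ := lt_min (by positivity) (div_pos (by linarith) (by positivity))
  have hθ1 : θ * L' ≤ 1 := by
    have : θ ≤ 1 / L' := min_le_left _ _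
    rwa [le_div_iff₀ hL0] at this
  have hθ2 : θ * (2 * L' ^ 2) ≤ -m := by
    have : θ ≤ -m / (2 * L' ^ 2) := min_le_right _ _
    rwa [le_div_iff₀ (by positivity)] at this
  calc ∫ x, Real.exp (θ * x) ∂μ ≤ ∫ x, (1 + θ * x + θ ^ 2 * L' ^ 2) ∂μ := by
        refine integral_mono_ae (integrable_exp_mul μ L hL θ)
          (((integrable_const 1).add (hxi.const_mul θ)).add (integrable_const _)) ?_
        filter_upwards [hLL] with x hx
        have hx1 : |θ * x| ≤ 1 := by
          rw [abs_mul, abs_of_pos hθ0]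
          exact (mul_le_mul_of_nonneg_left hx hθ0.le).trans hθ1
        have h3 := (abs_le.1 (Real.abs_exp_sub_one_sub_id_le hx1)).2
        have h4 : (θ * x) ^ 2 ≤ θ ^ 2 * L' ^ 2 := by
          rw [mul_pow]
          refine mul_le_mul_of_nonneg_left ?_ (sq_nonneg _)
          rw [← sq_abs x]
          exact pow_le_pow_left₀ (abs_nonneg _) hx 2
        linarith
    _ = 1 + θ * m + θ ^ 2 * L' ^ 2 := by
        have i1 : Integrable (fun x : ℝ => 1 + θ * x) μ := (integrable_const 1).add (hxi.const_mul θ)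
        have i2 : Integrable (fun _ : ℝ => θ ^ 2 * L' ^ 2) μ := integrable_const _
        have e1 : ∫ x, (1 + θ * x + θ ^ 2 * L' ^ 2) ∂μ =
            ∫ x, (1 + θ * x) ∂μ + ∫ _x, θ ^ 2 * L' ^ 2 ∂μ := integral_add i1 i2
        have e2 : ∫ x, (1 + θ * x) ∂μ = ∫ _x, (1 : ℝ) ∂μ + ∫ x, θ * x ∂μ :=
          integral_add (integrable_const 1) (hxi.const_mul θ)
        rw [e1, e2, integral_const_mul]
        simp [hm]
    _ < 1 := by
        have : θ * (θ * L' ^ 2) ≤ θ * (-m / 2) := mul_le_mul_of_nonneg_left (by linarith) hθ0.le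
        nlinarith

theorem chern (μ : Measure ℝ) [IsProbabilityMeasure μ] (L : ℝ) (hL : ∀ᵐ x ∂μ, |x| ≤ L)
    (h2 : ∫ x, x ∂μ < 0) : ∃ θ φ : ℝ, 0 < θ ∧ 0 < φ ∧ φ < 1 ∧
    ∀ (h : ℝ) (n : ℕ), (Measure.infinitePi fun _ : ℕ => μ) {x | -h ≤ Sm x n} ≤
      ENNReal.ofReal (Real.exp (θ * h) * φ ^ n) := by
  obtain ⟨θ, hθ, hφ⟩ := exists_theta μ L hL h2
  have hint := integrable_exp_mul μ L hL θ
  have hφ0 : 0 < ∫ x, Real.exp (θ * x) ∂μ := integral_exp_pos hint
  refine ⟨θ, ∫ x, Real.exp (θ * x) ∂μ, hθ, hφ0, hφ, fun h n => ?_⟩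
  set φ : ℝ := ∫ x, Real.exp (θ * x) ∂μ with hφd
  induction n generalizing h with
  | zero =>
    rcases le_or_gt 0 h with h0 | h0
    · refine prob_le_one.trans ?_
      rw [← ENNReal.ofReal_one]
      refine ENNReal.ofReal_le_ofReal ?_
      rw [pow_zero, mul_one, ← Real.exp_zero]
      exact Real.exp_le_exp.2 (by positivity)
    · have : {x : ℕ → ℝ | -h ≤ Sm x 0} = ∅ := by
        ext x
        simp only [Sm_zero, Set.mem_ofPred_eq, Set.mem_empty_iff_false, iff_false, not_le]
        linarith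
      rw [this, measure_empty]
      exact bot_le
  | succ n ih =>
    refine (step_le μ _ (measurableSet_le measurable_const (measurable_Sm (n + 1)))
      (fun a => {v | -(h + a) ≤ Sm v n}) ?_).trans ?_
    · intro a v hv
      have hv' : -h ≤ Sm (cns (a, v)) (n + 1) := hv
      rw [Sm_cns] at hv'
      show -(h + a) ≤ Sm v n
      linarith
    · have e : (fun a => Real.exp (θ * (h + a)) * φ ^ n) =
          fun a => (Real.exp (θ * h) * φ ^ n) * Real.exp (θ * a) := by
        funext a
        rw [mul_add, Real.exp_add]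
        ring
      calc ∫⁻ a, (Measure.infinitePi fun _ : ℕ => μ) {v | -(h + a) ≤ Sm v n} ∂μ
          ≤ ∫⁻ a, ENNReal.ofReal (Real.exp (θ * (h + a)) * φ ^ n) ∂μ :=
            lintegral_mono fun a => ih (h + a)
        _ = ENNReal.ofReal (∫ a, Real.exp (θ * (h + a)) * φ ^ n ∂μ) := by
            rw [ofReal_integral_eq_lintegral_ofReal _ (Eventually.of_forall fun a => by positivity)]
            rw [e]
            exact hint.const_mul _
        _ = ENNReal.ofReal (Real.exp (θ * h) * φ ^ (n + 1)) := by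
            rw [e, integral_const_mul, ← hφd, pow_succ, mul_assoc]

end Pool.Agent.H96.RW
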