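import Pool.Agent.H96.RW.Defs

/-!
# The law of the walk at time `n`
-/

namespace Pool.Agent.H96.RW

open MeasureTheory ProbabilityTheory Filter Topology
open scoped ENNReal

/-- Putting `a` in front of the sequence `v`. -/
def cns {X : Type*} (p : X × (ℕ → X)) : ℕ → X := fun n => Nat.casesOn n p.1 p.2

@[simp] theorem cns_zero {X : Type*} (p : X × (ℕ → X)) : cns p 0 = p.1 := rfl

@[simp] theorem cns_succ {X : Type*} (p : X × (ℕ → X)) (n : ℕ) : cns p (n + 1) = p.2 n := rfl

theorem measurable_cns {X : Type*} [MeasurableSpace X] : Measurable (cns (X := X)) := by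
  refine measurable_pi_iff.2 fun n => ?_
  cases n with
  | zero => exact measurable_fst
  | succ n => exact (measurable_pi_apply n).comp measurable_snd

/-- The first coordinate and the rest of an i.i.d. sequence are independent. -/
theorem cns_map {X : Type*} [MeasurableSpace X] (μ : Measure X) [IsProbabilityMeasure μ] :
    (μ.prod (Measure.infinitePi fun _ : ℕ => μ)).map cns = Measure.infinitePi fun _ : ℕ => μ := by
  classical
  refine Measure.eq_infinitePi _ fun s t ht => ?_
  obtain ⟨N, hN⟩ : ∃ N, s ⊆ Finset.range (N + 1) := by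
    refine ⟨s.sup id, fun i hi => ?_⟩
    have := Finset.le_sup (f := id) hi
    simp only [id] at this
    exact Finset.mem_range.2 (by omega)
  set t' : ℕ → Set X := fun i => if i ∈ s then t i else Set.univ with ht'
  have hm : ∀ i, MeasurableSet (t' i) := by
    intro i
    simp only [ht']
    split_ifs
    · exact ht i
    · exact MeasurableSet.univ
  have h1 : Set.pi (s : Set ℕ) t = Set.pi (Finset.range (N + 1) : Set ℕ) t' := by
    ext u
    simp only [Set.mem_pi, Finset.mem_coe, ht']
    constructor
    · intro h i _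
      split_ifs with his
      · exact h i his
      · trivial
    · intro h i hi
      have := h i (hN hi)
      simpa [hi] using this
  have h2 : ∏ i ∈ s, μ (t i) = ∏ i ∈ Finset.range (N + 1), μ (t' i) := by
    rw [← Finset.prod_subset hN]
    · refine Finset.prod_congr rfl fun i hi => ?_
      simp [ht', hi]
    · intro i _ hi
      simp [ht', hi]
  have h3 : cns ⁻¹' (Set.pi (Finset.range (N + 1) : Set ℕ) t')
      = t' 0 ×ˢ Set.pi (Finset.range N : Set ℕ) (fun i => t' (i + 1)) := by
    ext p
    simp only [Set.mem_preimage, Set.mem_pi, Finset.mem_coe, Finset.mem_range, Set.mem_prod]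
    constructor
    · intro h
      exact ⟨h 0 (by omega), fun i hi => h (i + 1) (by omega)⟩
    · rintro ⟨h0, h⟩ i hi
      cases i with
      | zero => exact h0
      | succ i => exact h i (by omega)
  rw [h1, h2, Measure.map_apply measurable_cns
    (MeasurableSet.pi (Finset.countable_toSet _) fun i _ => hm i), h3, Measure.prod_prod,
    Measure.infinitePi_pi _ (fun i _ => hm (i + 1)), Finset.prod_range_succ']
  rw [mul_comm]

theorem measurable_path (w : ℤ → ℝ) (x : ℤ) (n : ℕ) :
    Measurable fun u : ℕ → ℝ => path w x u n := by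
  induction n with
  | zero => exact measurable_const
  | succ n ih =>
    simp only [path]
    refine Measurable.ite ?_ (ih.add_const 1) (ih.sub_const 1)
    exact measurableSet_lt (measurable_pi_apply n) ((Measurable.of_discrete (f := w)).comp ih)

/-- First-step decomposition of the path. -/
theorem path_cns (w : ℤ → ℝ) (x : ℤ) (a : ℝ) (v : ℕ → ℝ) (n : ℕ) :
    path w x (cns (a, v)) (n + 1) = path w (if a < w x then x + 1 else x - 1) v n := by
  induction n with
  | zero => by_cases h : a < w x <;> simp [path, h]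
  | succ n ih =>
    rw [path, ih, path]
    generalize (if a < w x then x + 1 else x - 1) = z
    by_cases h : v n < w (path w z v n) <;> simp [h]

theorem unif_lt (c : ℝ) (_h0 : 0 ≤ c) (h1 : c ≤ 1) : unif {a | a < c} = ENNReal.ofReal c := by
  have hm : MeasurableSet {a : ℝ | a < c} := measurableSet_lt measurable_id measurable_const
  rw [unif, Measure.restrict_apply hm]
  have : {a : ℝ | a < c} ∩ Set.Icc 0 1 = Set.Ico 0 c := by
    ext a
    simp only [Set.mem_inter_iff, Set.mem_ofPred_eq, Set.mem_Icc, Set.mem_Ico]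
    constructor
    · rintro ⟨h, h2, h3⟩; exact ⟨h2, h⟩
    · rintro ⟨h2, h⟩; exact ⟨h, h2, by linarith⟩
  rw [this, Real.volume_Ico, sub_zero]

theorem unif_ge (c : ℝ) (h0 : 0 ≤ c) (_h1 : c ≤ 1) :
    unif {a | ¬ a < c} = ENNReal.ofReal (1 - c) := by
  have hm : MeasurableSet {a : ℝ | ¬ a < c} :=
    (measurableSet_lt measurable_id measurable_const).compl
  rw [unif, Measure.restrict_apply hm]
  have : {a : ℝ | ¬ a < c} ∩ Set.Icc 0 1 = Set.Icc c 1 := by
    ext a
    simp only [Set.mem_inter_iff, Set.mem_ofPred_eq, Set.mem_Icc, not_lt]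
    constructor
    · rintro ⟨h, h2, h3⟩; exact ⟨h, h3⟩
    · rintro ⟨h2, h⟩; exact ⟨h2, by linarith, h⟩
  rw [this, Real.volume_Icc]

theorem pn_nonneg' (w : ℤ → ℝ) (hw : ∀ x, 0 ≤ w x ∧ w x ≤ 1) (n : ℕ) (x y : ℤ) :
    0 ≤ pn w n x y := by
  induction n generalizing x with
  | zero => simp only [pn]; split_ifs <;> norm_num
  | succ n ih =>
    simp only [pn]
    have := (hw x).1
    have h2 : 0 ≤ 1 - w x := by linarith [(hw x).2]
    exact add_nonneg (mul_nonneg this (ih _)) (mul_nonneg h2 (ih _))

/-- The law of the walk at time `n`. -/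
theorem path_law (w : ℤ → ℝ) (hw : ∀ x, 0 ≤ w x ∧ w x ≤ 1) (x : ℤ) (n : ℕ) (y : ℤ) :
    (Measure.infinitePi fun _ : ℕ => unif) {u | path w x u n = y} =
      ENNReal.ofReal (pn w n x y) := by
  induction n generalizing x with
  | zero =>
    by_cases h : x = y
    · simp [path, pn, h]
    · simp [path, pn, h]
  | succ n ih =>
    have hms : ∀ (z : ℤ) (m : ℕ), MeasurableSet {u : ℕ → ℝ | path w z u m = y} := fun z m =>
      measurable_path w z m (measurableSet_singleton y)
    have hlt : MeasurableSet {a : ℝ | a < w x} := measurableSet_lt measurable_id measurable_const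
    have hpre : cns ⁻¹' {u : ℕ → ℝ | path w x u (n + 1) = y}
        = ({a | a < w x} ×ˢ {u | path w (x + 1) u n = y}) ∪
          ({a | ¬ a < w x} ×ˢ {u | path w (x - 1) u n = y}) := by
      ext p
      obtain ⟨a, v⟩ := p
      simp only [Set.mem_preimage, Set.mem_ofPred_eq, Set.mem_union, Set.mem_prod, path_cns]
      by_cases h : a < w x
      · simp [h]
      · simp [h]
    have hdis : Disjoint ({a | a < w x} ×ˢ {u : ℕ → ℝ | path w (x + 1) u n = y})
          ({a | ¬ a < w x} ×ˢ {u | path w (x - 1) u n = y}) := by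
      rw [Set.disjoint_left]
      rintro p ⟨h1, _⟩ ⟨h2, _⟩
      exact h2 h1
    rw [← cns_map unif, Measure.map_apply measurable_cns (hms x (n + 1)), hpre,
      measure_union hdis (hlt.compl.prod (hms (x - 1) n)), Measure.prod_prod, Measure.prod_prod,
      unif_lt _ (hw x).1 (hw x).2, unif_ge _ (hw x).1 (hw x).2, ih, ih,
      ← ENNReal.ofReal_mul (hw x).1, ← ENNReal.ofReal_mul (by linarith [(hw x).2]),
      ← ENNReal.ofReal_add (mul_nonneg (hw x).1 (pn_nonneg' w hw n _ _))
        (mul_nonneg (by linarith [(hw x).2]) (pn_nonneg' w hw n _ _))]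
    rfl

end Pool.Agent.H96.RW
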