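import Pool.Agent.H96.RW.Defs
import Pool.Agent.H96.RW.Law

/-!
# The Green sum of `e^S` before the first passage
-/

set_option autoImplicit false

namespace Pool.Agent.H96.RW

open MeasureTheory ProbabilityTheory Filter Topology
open scoped ENNReal

namespace Gr

theorem Sm_cns (a : ℝ) (y : ℕ → ℝ) (k : ℕ) : Sm (cns (a, y)) (k + 1) = a + Sm y k := by
  unfold Sm
  rw [Finset.sum_range_succ', add_comm]
  rfl

theorem Sm_zero (x : ℕ → ℝ) : Sm x 0 = 0 := by simp [Sm]

theorem measurable_Sm (k : ℕ) : Measurable fun x : ℕ → ℝ => Sm x k := by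
  unfold Sm
  fun_prop

/-- The summand. -/
noncomputable def tm (h : ℝ) (k : ℕ) (s : ℝ) (x : ℕ → ℝ) : ℝ≥0∞ :=
  Set.indicator {x : ℕ → ℝ | ∀ j ≤ k, s + Sm x j < h}
    (fun x => ENNReal.ofReal (Real.exp (s + Sm x k))) x

theorem tm_zero_of_le {h s : ℝ} (hs : h ≤ s) (k : ℕ) (x : ℕ → ℝ) : tm h k s x = 0 := by
  unfold tm
  rw [Set.indicator_of_notMem]
  intro hx
  have := hx 0 (Nat.zero_le _)
  rw [Sm_zero] at this
  linarith

theorem tm_zero {h s : ℝ} (hs : s < h) (x : ℕ → ℝ) : tm h 0 s x = ENNReal.ofReal (Real.exp s) := by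
  unfold tm
  rw [Set.indicator_of_mem]
  · rw [Sm_zero, add_zero]
  · intro j hj
    rw [Nat.le_zero.1 hj, Sm_zero, add_zero]
    exact hs

theorem tm_succ {h s : ℝ} (hs : s < h) (k : ℕ) (a : ℝ) (y : ℕ → ℝ) :
    tm h (k + 1) s (cns (a, y)) = tm h k (s + a) y := by
  unfold tm
  by_cases hy : ∀ j ≤ k, s + a + Sm y j < h
  · rw [Set.indicator_of_mem (show y ∈ {x : ℕ → ℝ | ∀ j ≤ k, s + a + Sm x j < h} from hy),
      Set.indicator_of_mem]
    · rw [Sm_cns, ← add_assoc]
    · intro j hj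
      cases j with
      | zero => rw [Sm_zero, add_zero]; exact hs
      | succ j =>
        rw [Sm_cns, ← add_assoc]
        exact hy j (by omega)
  · rw [Set.indicator_of_notMem (show y ∉ {x : ℕ → ℝ | ∀ j ≤ k, s + a + Sm x j < h} from hy),
      Set.indicator_of_notMem]
    intro hx
    apply hy
    intro j hj
    have := hx (j + 1) (by omega)
    rwa [Sm_cns, ← add_assoc] at this

theorem measurable_tm (h : ℝ) (k : ℕ) (s : ℝ) : Measurable (tm h k s) := by
  unfold tm
  refine Measurable.indicator ?_ ?_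
  · exact (Real.measurable_exp.comp ((measurable_Sm k).const_add s)).ennreal_ofReal
  · have : {x : ℕ → ℝ | ∀ j ≤ k, s + Sm x j < h} =
        ⋂ j : ℕ, ⋂ _ : j ≤ k, {x : ℕ → ℝ | s + Sm x j < h} := by
      ext x
      simp
    rw [this]
    refine MeasurableSet.iInter fun j => MeasurableSet.iInter fun _ => ?_
    exact measurableSet_lt ((measurable_Sm j).const_add s) measurable_const

section
variable (μ : Measure ℝ) [IsProbabilityMeasure μ]

theorem lint_cns (F : (ℕ → ℝ) → ℝ≥0∞) (hF : Measurable F) :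
    ∫⁻ x, F x ∂(Measure.infinitePi fun _ : ℕ => μ) =
      ∫⁻ a, ∫⁻ y, F (cns (a, y)) ∂(Measure.infinitePi fun _ : ℕ => μ) ∂μ := by
  conv_lhs => rw [← cns_map μ]
  rw [lintegral_map hF measurable_cns]
  exact lintegral_prod (fun z => F (cns z)) (hF.comp measurable_cns).aemeasurable

theorem int_exp {L : ℝ} (hL : ∀ᵐ x ∂μ, |x| ≤ L) (c : ℝ) :
    Integrable (fun x : ℝ => Real.exp (c * x)) μ := by
  refine Integrable.of_bound (by fun_prop) (Real.exp (|c| * L)) ?_
  filter_upwards [hL] with x hx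
  rw [Real.norm_eq_abs, abs_of_pos (Real.exp_pos _)]
  apply Real.exp_le_exp.2
  calc c * x ≤ |c * x| := le_abs_self _
    _ = |c| * |x| := abs_mul _ _
    _ ≤ |c| * L := by gcongr

theorem one_lt {L : ℝ} (hL : ∀ᵐ x ∂μ, |x| ≤ L) (h1 : ∫ x, Real.exp (x / 2) ∂μ = 1)
    (h2 : ∫ x, x ∂μ < 0) : 1 < ∫ x, Real.exp x ∂μ := by
  by_contra hle
  push Not at hle
  have i1 : Integrable (fun x : ℝ => Real.exp x) μ := by simpa using int_exp μ hL 1
  have i2 : Integrable (fun x : ℝ => Real.exp (x / 2)) μ := by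
    have := int_exp μ hL (1 / 2)
    refine this.congr (Filter.Eventually.of_forall fun x => ?_)
    congr 1
    ring
  have e : ∀ x : ℝ, (Real.exp (x / 2) - 1) ^ 2 = Real.exp x - 2 * Real.exp (x / 2) + 1 := by
    intro x
    have : Real.exp x = Real.exp (x / 2) ^ 2 := by
      rw [← Real.exp_nat_mul]
      congr 1
      push_cast
      ring
    rw [this]
    ring
  have hint : Integrable (fun x : ℝ => (Real.exp (x / 2) - 1) ^ 2) μ := by
    simp only [e]
    exact (i1.sub (i2.const_mul 2)).add (integrable_const 1)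
  have h3 : ∫ x, (Real.exp (x / 2) - 1) ^ 2 ∂μ = ∫ x, Real.exp x ∂μ - 1 := by
    simp only [e]
    have h5 := integral_add (f := fun x => Real.exp x - 2 * Real.exp (x / 2))
      (g := fun _ => (1 : ℝ)) (i1.sub (i2.const_mul 2)) (integrable_const 1)
    rw [h5, integral_sub i1 (i2.const_mul 2), integral_const_mul, h1]
    simp
    ring
  have h4 : ∫ x, (Real.exp (x / 2) - 1) ^ 2 ∂μ = 0 := by
    apply le_antisymm
    · rw [h3]; linarith
    · exact integral_nonneg fun x => sq_nonneg _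
  rw [integral_eq_zero_iff_of_nonneg (fun x => sq_nonneg _) hint] at h4
  have h5 : ∀ᵐ x ∂μ, x = 0 := by
    filter_upwards [h4] with x hx
    have hx' : (Real.exp (x / 2) - 1) ^ 2 = 0 := hx
    have h6 : Real.exp (x / 2) = 1 := by
      have := pow_eq_zero_iff (two_ne_zero) |>.1 hx'
      linarith
    rw [Real.exp_eq_one_iff] at h6
    linarith
  have h7 : ∫ x, x ∂μ = 0 := by
    rw [integral_congr_ae h5]
    simp
  linarith

/-- The superharmonic function. -/
noncomputable def Ph (b L h s : ℝ) : ℝ :=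
  b * (Real.exp ((L + h) / 2) * Real.exp (s / 2) - Real.exp s)

theorem Ph_nonneg {b L h s : ℝ} (hb : 0 ≤ b) (hs : s ≤ h + L) : 0 ≤ Ph b L h s := by
  unfold Ph
  refine mul_nonneg hb ?_
  rw [← Real.exp_add]
  have : s ≤ (L + h) / 2 + s / 2 := by linarith
  have := Real.exp_le_exp.2 this
  linarith

theorem main {L : ℝ} (hL : ∀ᵐ x ∂μ, |x| ≤ L) (h1 : ∫ x, Real.exp (x / 2) ∂μ = 1) {b : ℝ}
    (hb : 0 ≤ b) (hb1 : b * (∫ x, Real.exp x ∂μ - 1) = 1) (h : ℝ) (n : ℕ) :
    ∀ s : ℝ, s ≤ h + L →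
    ∫⁻ x, ∑ k ∈ Finset.range n, tm h k s x ∂(Measure.infinitePi fun _ : ℕ => μ) ≤
      ENNReal.ofReal (Ph b L h s) := by
  induction n with
  | zero => intro s _; simp
  | succ n ih =>
    intro s hs
    by_cases hsh : h ≤ s
    · simp [tm_zero_of_le hsh]
    push Not at hsh
    have i1 : Integrable (fun x : ℝ => Real.exp x) μ := by simpa using int_exp μ hL 1
    have i2 : Integrable (fun x : ℝ => Real.exp (x / 2)) μ := by
      have := int_exp μ hL (1 / 2)
      refine this.congr (Filter.Eventually.of_forall fun x => ?_)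
      congr 1
      ring
    have hPh : ∀ a, Ph b L h (s + a) = b * (Real.exp ((L + h) / 2) * Real.exp (s / 2)) *
        Real.exp (a / 2) - b * Real.exp s * Real.exp a := by
      intro a
      unfold Ph
      rw [show (s + a) / 2 = s / 2 + a / 2 by ring, Real.exp_add, Real.exp_add]
      ring
    have iPh : Integrable (fun a => Ph b L h (s + a)) μ := by
      simp only [hPh]
      exact (i2.const_mul _).sub (i1.const_mul _)
    have ePh : ∫ a, Ph b L h (s + a) ∂μ = Ph b L h s - Real.exp s := by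
      simp only [hPh]
      rw [integral_sub (i2.const_mul _) (i1.const_mul _), integral_const_mul, integral_const_mul,
        h1]
      unfold Ph
      have : Real.exp s = Real.exp s * (b * (∫ x, Real.exp x ∂μ - 1)) := by rw [hb1, mul_one]
      linear_combination this
    have hnn : ∀ᵐ a ∂μ, 0 ≤ Ph b L h (s + a) := by
      filter_upwards [hL] with a ha
      exact Ph_nonneg hb (by have := (abs_le.1 ha).2; linarith)
    have hPs : Real.exp s ≤ Ph b L h s := by
      have : 0 ≤ ∫ a, Ph b L h (s + a) ∂μ := integral_nonneg_of_ae hnn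
      rw [ePh] at this
      linarith
    rw [lint_cns μ _ (Finset.measurable_sum _ fun k _ => measurable_tm h k s)]
    have e1 : ∀ (a : ℝ) (y : ℕ → ℝ), ∑ k ∈ Finset.range (n + 1), tm h k s (cns (a, y)) =
        (∑ k ∈ Finset.range n, tm h k (s + a) y) + ENNReal.ofReal (Real.exp s) := by
      intro a y
      rw [Finset.sum_range_succ', tm_zero hsh]
      congr 1
      exact Finset.sum_congr rfl fun k _ => tm_succ hsh k a y
    calc ∫⁻ a, ∫⁻ y, ∑ k ∈ Finset.range (n + 1), tm h k s (cns (a, y))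
          ∂(Measure.infinitePi fun _ : ℕ => μ) ∂μ
        = ∫⁻ a, ((∫⁻ y, ∑ k ∈ Finset.range n, tm h k (s + a) y
            ∂(Measure.infinitePi fun _ : ℕ => μ)) + ENNReal.ofReal (Real.exp s)) ∂μ := by
          refine lintegral_congr fun a => ?_
          simp only [e1]
          rw [lintegral_add_right _ measurable_const, lintegral_const, measure_univ, mul_one]
      _ ≤ ∫⁻ a, (ENNReal.ofReal (Ph b L h (s + a)) + ENNReal.ofReal (Real.exp s)) ∂μ := by
          refine lintegral_mono_ae ?_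
          filter_upwards [hL] with a ha
          gcongr
          exact ih (s + a) (by have := (abs_le.1 ha).2; linarith)
      _ = ENNReal.ofReal (Ph b L h s) := by
          rw [lintegral_add_right _ measurable_const, lintegral_const, measure_univ, mul_one,
            ← ofReal_integral_eq_lintegral_ofReal iPh hnn, ePh,
            ← ENNReal.ofReal_add (by linarith) (Real.exp_pos _).le]
          congr 1
          ring

end

end Gr

theorem green (μ : Measure ℝ) [IsProbabilityMeasure μ] (L : ℝ) (hL : ∀ᵐ x ∂μ, |x| ≤ L)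
    (h1 : ∫ x, Real.exp (x / 2) ∂μ = 1) (h2 : ∫ x, x ∂μ < 0) : ∃ C : ℝ, 0 < C ∧
    ∀ (h : ℝ) (n : ℕ), 0 ≤ h → ∫⁻ x, ∑ k ∈ Finset.range (n + 1),
      (Set.indicator {x : ℕ → ℝ | ∀ j ≤ k, Sm x j < h} (fun x => ENNReal.ofReal (Real.exp (Sm x k))) x)
        ∂(Measure.infinitePi fun _ : ℕ => μ) ≤ ENNReal.ofReal (C * Real.exp (h / 2)) := by
  have hl := Gr.one_lt μ hL h1 h2
  have hL0 : 0 ≤ L := by
    obtain ⟨x, hx⟩ := hL.exists
    exact (abs_nonneg x).trans hx
  set b : ℝ := (∫ x, Real.exp x ∂μ - 1)⁻¹ with hb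
  have hb0 : 0 < b := inv_pos.2 (by linarith)
  have hb1 : b * (∫ x, Real.exp x ∂μ - 1) = 1 := inv_mul_cancel₀ (by linarith)
  refine ⟨b * Real.exp (L / 2), by positivity, fun h n hh => ?_⟩
  have := Gr.main μ hL h1 hb0.le hb1 h (n + 1) 0 (by linarith)
  have e : ∀ x : ℕ → ℝ, ∑ k ∈ Finset.range (n + 1),
      (Set.indicator {x : ℕ → ℝ | ∀ j ≤ k, Sm x j < h} (fun x => ENNReal.ofReal (Real.exp (Sm x k))) x)
      = ∑ k ∈ Finset.range (n + 1), Gr.tm h k 0 x := by
    intro x
    unfold Gr.tm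
    simp only [zero_add]
  simp only [e]
  refine this.trans (ENNReal.ofReal_le_ofReal ?_)
  unfold Gr.Ph
  rw [show (L + h) / 2 = L / 2 + h / 2 by ring, Real.exp_add]
  simp only [zero_div, Real.exp_zero, mul_one]
  nlinarith

end Pool.Agent.H96.RW
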