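import Pool.Agent.H96.RW.Defs
import Pool.Agent.H96.RW.Law

/-!
# Walks with positive drift stay positive with positive probability
-/

namespace Pool.Agent.H96.RW

open MeasureTheory ProbabilityTheory Filter Topology
open scoped ENNReal

namespace Pos

theorem Sm_cns (a : ℝ) (v : ℕ → ℝ) (k : ℕ) : Sm (cns (a, v)) (k + 1) = a + Sm v k := by
  unfold Sm
  rw [Finset.sum_range_succ', add_comm]
  rfl

theorem measurable_Sm (k : ℕ) : Measurable fun x : ℕ → ℝ => Sm x k := by
  unfold Sm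
  exact Finset.measurable_sum _ fun i _ => measurable_pi_apply i

theorem lint_exp (μ : Measure ℝ) [IsProbabilityMeasure μ] (θ : ℝ) (k : ℕ) :
    ∫⁻ x, ENNReal.ofReal (Real.exp (-θ * Sm x k)) ∂(Measure.infinitePi fun _ : ℕ => μ) =
      (∫⁻ a, ENNReal.ofReal (Real.exp (-θ * a)) ∂μ) ^ k := by
  induction k with
  | zero => simp [Sm]
  | succ k ih =>
    have hm : Measurable fun x : ℕ → ℝ => ENNReal.ofReal (Real.exp (-θ * Sm x (k + 1))) := by
      have := measurable_Sm (k + 1)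
      fun_prop
    have hm2 : Measurable fun x : ℕ → ℝ => ENNReal.ofReal (Real.exp (-θ * Sm x k)) := by
      have := measurable_Sm k
      fun_prop
    have hm3 : Measurable fun a : ℝ => ENNReal.ofReal (Real.exp (-θ * a)) := by fun_prop
    have hmc : Measurable fun p : ℝ × (ℕ → ℝ) =>
        ENNReal.ofReal (Real.exp (-θ * Sm (cns p) (k + 1))) := hm.comp measurable_cns
    rw [← cns_map μ, lintegral_map hm measurable_cns, lintegral_prod _ hmc.aemeasurable]
    have h1 : ∀ a : ℝ, ∫⁻ v, ENNReal.ofReal (Real.exp (-θ * Sm (cns (a, v)) (k + 1)))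
        ∂(Measure.infinitePi fun _ : ℕ => μ) =
        ENNReal.ofReal (Real.exp (-θ * a)) * (∫⁻ a, ENNReal.ofReal (Real.exp (-θ * a)) ∂μ) ^ k := by
      intro a
      rw [← ih, ← lintegral_const_mul _ hm2]
      refine lintegral_congr fun v => ?_
      rw [Sm_cns, ← ENNReal.ofReal_mul (Real.exp_pos _).le, ← Real.exp_add]
      congr 2
      ring
    simp_rw [h1]
    rw [lintegral_mul_const _ hm3, pow_succ, mul_comm]

theorem exists_theta (μ : Measure ℝ) [IsProbabilityMeasure μ] (L : ℝ) (hL : ∀ᵐ x ∂μ, |x| ≤ L)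
    (hm : 0 < ∫ x, x ∂μ) : ∃ θ φ : ℝ, 0 < θ ∧ θ ≤ 1 ∧ 0 ≤ φ ∧ φ < 1 ∧
    ∫⁻ a, ENNReal.ofReal (Real.exp (-θ * a)) ∂μ ≤ ENNReal.ofReal φ := by
  obtain ⟨x0, hx0⟩ := hL.exists
  have hL0 : 0 ≤ L := (abs_nonneg _).trans hx0
  set m := ∫ x, x ∂μ with hmdef
  set θ := min (1 / (L + 1)) (m / (2 * (L ^ 2 + 1))) with hθ
  have hθ0 : 0 < θ := lt_min (by positivity) (by positivity)
  have hθ1 : θ * (L + 1) ≤ 1 := by
    have h1 : θ ≤ 1 / (L + 1) := min_le_left _ _
    rwa [le_div_iff₀ (by positivity)] at h1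
  have hθ2 : θ * (2 * (L ^ 2 + 1)) ≤ m := by
    have h1 : θ ≤ m / (2 * (L ^ 2 + 1)) := min_le_right _ _
    rwa [le_div_iff₀ (by positivity)] at h1
  have hint : Integrable (fun x : ℝ => x) μ :=
    Integrable.of_bound measurable_id.aestronglyMeasurable L hL
  have hb : ∀ a : ℝ, |a| ≤ L → Real.exp (-θ * a) ≤ 1 - θ * a + θ ^ 2 * L ^ 2 := by
    intro a ha
    have h1 : |(-θ * a)| ≤ 1 := by
      rw [abs_mul, abs_neg, abs_of_pos hθ0]
      nlinarith [abs_nonneg a]
    have h2 := (abs_le.1 (Real.abs_exp_sub_one_sub_id_le h1)).2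
    have h3 : a ^ 2 ≤ L ^ 2 := by
      rw [← sq_abs a]
      exact pow_le_pow_left₀ (abs_nonneg a) ha 2
    nlinarith [mul_le_mul_of_nonneg_left h3 (sq_nonneg θ)]
  have hi1 : Integrable (fun a : ℝ => θ * a) μ := hint.const_mul θ
  have hi2 : Integrable (fun a : ℝ => 1 - θ * a) μ := (integrable_const 1).sub hi1
  have hi3 : Integrable (fun a : ℝ => 1 - θ * a + θ ^ 2 * L ^ 2) μ := hi2.add (integrable_const _)
  have hφ : ∫ a, (1 - θ * a + θ ^ 2 * L ^ 2) ∂μ = 1 - θ * m + θ ^ 2 * L ^ 2 := by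
    rw [integral_add hi2 (integrable_const _), integral_sub (integrable_const _) hi1,
      integral_const_mul]
    simp [hmdef]
  have hnn : ∀ᵐ a ∂μ, 0 ≤ 1 - θ * a + θ ^ 2 * L ^ 2 := by
    filter_upwards [hL] with a ha
    exact (Real.exp_pos _).le.trans (hb a ha)
  refine ⟨θ, 1 - θ * m + θ ^ 2 * L ^ 2, hθ0, ?_, ?_, ?_, ?_⟩
  · nlinarith
  · rw [← hφ]
    exact integral_nonneg_of_ae hnn
  · nlinarith [mul_pos hθ0 hm, mul_pos hθ0 hθ0]
  · rw [← hφ, ofReal_integral_eq_lintegral_ofReal hi3 hnn]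
    refine lintegral_mono_ae ?_
    filter_upwards [hL] with a ha
    exact ENNReal.ofReal_le_ofReal (hb a ha)

theorem geom_le {φ : ℝ} (h0 : 0 ≤ φ) (h1 : φ < 1) (n : ℕ) :
    ∑ k ∈ Finset.range n, φ ^ k ≤ (1 - φ)⁻¹ := by
  rw [← tsum_geometric_of_lt_one h0 h1]
  exact (summable_geometric_of_lt_one h0 h1).sum_le_tsum _ fun i _ => pow_nonneg h0 i

/-- Half of the mass. -/
theorem half (μ : Measure ℝ) [IsProbabilityMeasure μ] {θ φ : ℝ} (h0 : 0 ≤ φ) (h1 : φ < 1)
    (h : ∫⁻ a, ENNReal.ofReal (Real.exp (-θ * a)) ∂μ ≤ ENNReal.ofReal φ) (n : ℕ) :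
    MeasurableSet {x : ℕ → ℝ | ∑ k ∈ Finset.range n, Real.exp (-θ * Sm x k) ≤ 2 / (1 - φ)} ∧
    ENNReal.ofReal (1 / 2) ≤ (Measure.infinitePi fun _ : ℕ => μ)
      {x | ∑ k ∈ Finset.range n, Real.exp (-θ * Sm x k) ≤ 2 / (1 - φ)} := by
  have h1' : 0 < 1 - φ := by linarith
  have hmS : Measurable fun x : ℕ → ℝ => ∑ k ∈ Finset.range n, Real.exp (-θ * Sm x k) :=
    Finset.measurable_sum _ fun k _ => by
      have := measurable_Sm k
      fun_prop
  have hms := measurableSet_le hmS (measurable_const (a := 2 / (1 - φ)))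
  refine ⟨hms, ?_⟩
  set P := (Measure.infinitePi fun _ : ℕ => μ) with hP
  have e1 : ∫⁻ x, ENNReal.ofReal (∑ k ∈ Finset.range n, Real.exp (-θ * Sm x k)) ∂P ≤
      ENNReal.ofReal (1 - φ)⁻¹ := by
    calc ∫⁻ x, ENNReal.ofReal (∑ k ∈ Finset.range n, Real.exp (-θ * Sm x k)) ∂P
        = ∫⁻ x, ∑ k ∈ Finset.range n, ENNReal.ofReal (Real.exp (-θ * Sm x k)) ∂P :=
          lintegral_congr fun x => ENNReal.ofReal_sum_of_nonneg fun k _ => (Real.exp_pos _).le
      _ = ∑ k ∈ Finset.range n, ∫⁻ x, ENNReal.ofReal (Real.exp (-θ * Sm x k)) ∂P :=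
          lintegral_finsetSum _ fun k _ => by
            have := measurable_Sm k
            fun_prop
      _ ≤ ∑ k ∈ Finset.range n, ENNReal.ofReal (φ ^ k) := by
          refine Finset.sum_le_sum fun k _ => ?_
          rw [hP, lint_exp, ENNReal.ofReal_pow h0]
          exact pow_le_pow_left₀ bot_le h k
      _ = ENNReal.ofReal (∑ k ∈ Finset.range n, φ ^ k) :=
          (ENNReal.ofReal_sum_of_nonneg fun k _ => pow_nonneg h0 k).symm
      _ ≤ _ := ENNReal.ofReal_le_ofReal (geom_le h0 h1 n)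
  have e2 := mul_meas_ge_le_lintegral (μ := P)
    (f := fun x => ENNReal.ofReal (∑ k ∈ Finset.range n, Real.exp (-θ * Sm x k)))
    (by fun_prop) (ENNReal.ofReal (2 / (1 - φ)))
  have e3 : P {x | ENNReal.ofReal (2 / (1 - φ)) ≤
      ENNReal.ofReal (∑ k ∈ Finset.range n, Real.exp (-θ * Sm x k))} ≤ ENNReal.ofReal (1 / 2) := by
    have e4 : ENNReal.ofReal (2 / (1 - φ)) * P {x | ENNReal.ofReal (2 / (1 - φ)) ≤
      ENNReal.ofReal (∑ k ∈ Finset.range n, Real.exp (-θ * Sm x k))} ≤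
        ENNReal.ofReal (2 / (1 - φ)) * ENNReal.ofReal (1 / 2) := by
      refine e2.trans (e1.trans (le_of_eq ?_))
      rw [← ENNReal.ofReal_mul (by positivity)]
      congr 1
      field_simp
    exact (ENNReal.mul_le_mul_iff_right (by simpa using h1) ENNReal.ofReal_ne_top).1 e4
  have e5 : {x : ℕ → ℝ | ∑ k ∈ Finset.range n, Real.exp (-θ * Sm x k) ≤ 2 / (1 - φ)}ᶜ ⊆
      {x | ENNReal.ofReal (2 / (1 - φ)) ≤
        ENNReal.ofReal (∑ k ∈ Finset.range n, Real.exp (-θ * Sm x k))} := by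
    intro x hx
    simp only [Set.mem_compl_iff, Set.mem_ofPred_eq, not_le] at hx
    exact ENNReal.ofReal_le_ofReal hx.le
  have e6 := (measure_mono e5).trans e3
  rw [prob_compl_eq_one_sub hms, tsub_le_iff_right] at e6
  have e7 : (1 : ℝ≥0∞) = ENNReal.ofReal (1 / 2) + ENNReal.ofReal (1 / 2) := by
    rw [← ENNReal.ofReal_add (by norm_num) (by norm_num)]
    norm_num
  rw [e7] at e6
  exact (ENNReal.add_le_add_iff_left ENNReal.ofReal_ne_top).1 e6

theorem meas_pre {E : Set (ℕ → ℝ)} (hE : MeasurableSet E) (δ : ℝ) (N : ℕ) :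
    MeasurableSet {x : ℕ → ℝ | (∀ i < N, δ < x i) ∧ (fun i => x (N + i)) ∈ E} := by
  have h1 : {x : ℕ → ℝ | ∀ i < N, δ < x i} = ⋂ i ∈ Finset.range N, {x : ℕ → ℝ | δ < x i} := by
    ext x
    simp
  have h2 : MeasurableSet {x : ℕ → ℝ | ∀ i < N, δ < x i} := by
    rw [h1]
    exact Finset.measurableSet_biInter _ fun i _ =>
      measurableSet_lt measurable_const (measurable_pi_apply i)
  have h3 : Measurable fun (x : ℕ → ℝ) (i : ℕ) => x (N + i) :=
    measurable_pi_lambda _ fun i => measurable_pi_apply (N + i)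
  exact h2.inter (h3 hE)

theorem pre (μ : Measure ℝ) [IsProbabilityMeasure μ] {E : Set (ℕ → ℝ)} (hE : MeasurableSet E)
    (δ : ℝ) (N : ℕ) : (Measure.infinitePi fun _ : ℕ => μ)
      {x | (∀ i < N, δ < x i) ∧ (fun i => x (N + i)) ∈ E} =
      μ (Set.Ioi δ) ^ N * (Measure.infinitePi fun _ : ℕ => μ) E := by
  induction N with
  | zero =>
    simp
    rfl
  | succ N ih =>
    have h1 : cns ⁻¹' {x : ℕ → ℝ | (∀ i < N + 1, δ < x i) ∧ (fun i => x (N + 1 + i)) ∈ E} =
        Set.Ioi δ ×ˢ {x | (∀ i < N, δ < x i) ∧ (fun i => x (N + i)) ∈ E} := by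
      ext p
      have e1 : (fun i => cns p (N + 1 + i)) = fun i => p.2 (N + i) := by
        funext i
        rw [show N + 1 + i = (N + i) + 1 by omega, cns_succ]
      simp only [Set.mem_preimage, Set.mem_ofPred_eq, Set.mem_prod, Set.mem_Ioi, e1]
      constructor
      · rintro ⟨h, h'⟩
        exact ⟨h 0 (by omega), fun i hi => h (i + 1) (by omega), h'⟩
      · rintro ⟨h0, h, h'⟩
        refine ⟨fun i hi => ?_, h'⟩
        cases i with
        | zero => exact h0
        | succ i => exact h i (by omega)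
    nth_rewrite 1 [← cns_map μ]
    rw [Measure.map_apply measurable_cns (meas_pre hE δ (N + 1)), h1, Measure.prod_prod, ih,
      pow_succ]
    ring

end Pos

open Pos

theorem pos_path (μ : Measure ℝ) [IsProbabilityMeasure μ] (L : ℝ) (hL : ∀ᵐ x ∂μ, |x| ≤ L)
    (hm : 0 < ∫ x, x ∂μ) : ∃ A c : ℝ, 0 < A ∧ 0 < c ∧ ∀ n : ℕ, ENNReal.ofReal c ≤
      (Measure.infinitePi fun _ : ℕ => μ) {x | (∀ k, 1 ≤ k → k ≤ n → 0 < Sm x k) ∧
        ∑ k ∈ Finset.range (n + 1), Real.exp (-Sm x k) ≤ A} := by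
  obtain ⟨θ, φ, hθ0, hθ1, hφ0, hφ1, hφ⟩ := exists_theta μ L hL hm
  have hint : Integrable (fun x : ℝ => x) μ :=
    Integrable.of_bound measurable_id.aestronglyMeasurable L hL
  set δ := (∫ x, x ∂μ) / 2 with hδ
  have hδ0 : 0 < δ := by positivity
  have hp0 : μ (Set.Ioi δ) ≠ 0 := by
    intro h
    have h1 : ∀ᵐ x ∂μ, x ≤ δ := by
      rw [ae_iff]
      have : {a : ℝ | ¬ a ≤ δ} = Set.Ioi δ := by
        ext a
        simp
      rw [this]
      exact h
    have h2 : ∫ x, x ∂μ ≤ ∫ _x, δ ∂μ := integral_mono_ae hint (integrable_const _) h1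
    rw [integral_const, probReal_univ, one_smul] at h2
    linarith
  have h1φ : 0 < 1 - φ := by linarith
  set w0 := 2 / (1 - φ) with hw0
  have hw0p : 0 < w0 := by positivity
  set a0 := Real.log w0 / θ with ha0
  obtain ⟨N, hN⟩ := exists_nat_gt (|a0| / δ)
  rw [div_lt_iff₀ hδ0] at hN
  set p0 := (μ (Set.Ioi δ)).toReal with hp0def
  have hp0' : 0 < p0 := ENNReal.toReal_pos hp0 (measure_ne_top _ _)
  refine ⟨N + w0 * Real.exp |a0|, p0 ^ N * (1 / 2), by positivity, by positivity, fun n => ?_⟩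
  obtain ⟨hEm, hE⟩ := half μ hφ0 hφ1 hφ (n + 1)
  have hP := pre μ hEm δ N
  have hle : ENNReal.ofReal (p0 ^ N * (1 / 2)) ≤ (Measure.infinitePi fun _ : ℕ => μ)
      {x | (∀ i < N, δ < x i) ∧ (fun i => x (N + i)) ∈
        {x : ℕ → ℝ | ∑ k ∈ Finset.range (n + 1), Real.exp (-θ * Sm x k) ≤ 2 / (1 - φ)}} := by
    rw [hP, ENNReal.ofReal_mul (by positivity), ENNReal.ofReal_pow hp0'.le, hp0def,
      ENNReal.ofReal_toReal (measure_ne_top _ _)]
    gcongr
  refine hle.trans (measure_mono ?_)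
  rintro x ⟨hx, hy⟩
  simp only [Set.mem_ofPred_eq] at hy ⊢
  set y : ℕ → ℝ := fun i => x (N + i) with hydef
  have hlow : ∀ k ≤ N, (k : ℝ) * δ ≤ Sm x k := by
    intro k hk
    unfold Sm
    calc (k : ℝ) * δ = ∑ _i ∈ Finset.range k, δ := by simp
      _ ≤ _ := Finset.sum_le_sum fun i hi => (hx i (by
          have := Finset.mem_range.1 hi
          omega)).le
  have hadd : ∀ j, Sm x (N + j) = Sm x N + Sm y j := fun j => Finset.sum_range_add _ _ _
  have hone : ∀ j ≤ n, -|a0| ≤ Sm y j := by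
    intro j hj
    have h1 : Real.exp (-θ * Sm y j) ≤ w0 :=
      (Finset.single_le_sum (f := fun k => Real.exp (-θ * Sm y k))
        (fun k _ => (Real.exp_pos _).le) (Finset.mem_range.2 (by omega))).trans hy
    have h2 : -θ * Sm y j ≤ Real.log w0 := by
      rw [← Real.log_exp (-θ * Sm y j)]
      exact Real.log_le_log (Real.exp_pos _) h1
    have h3 : -Sm y j ≤ a0 := by
      rw [ha0, le_div_iff₀ hθ0]
      linarith
    linarith [le_abs_self a0]
  constructor
  · intro k hk1 hkn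
    rcases le_total k N with hkN | hkN
    · have h1 : (0 : ℝ) < k := by exact_mod_cast hk1
      have := hlow k hkN
      have h2 : 0 < (k : ℝ) * δ := by positivity
      linarith
    · obtain ⟨j, rfl⟩ := Nat.exists_eq_add_of_le hkN
      rw [hadd]
      have h1 := hlow N le_rfl
      have h2 := hone j (by omega)
      linarith
  · have hS0 : 0 ≤ Sm x N := (by positivity : (0 : ℝ) ≤ (N : ℝ) * δ).trans (hlow N le_rfl)
    calc ∑ k ∈ Finset.range (n + 1), Real.exp (-Sm x k)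
        ≤ ∑ k ∈ Finset.range (N + (n + 1)), Real.exp (-Sm x k) :=
          Finset.sum_le_sum_of_subset_of_nonneg (Finset.range_mono (by omega))
            fun k _ _ => (Real.exp_pos _).le
      _ = ∑ k ∈ Finset.range N, Real.exp (-Sm x k) +
          ∑ j ∈ Finset.range (n + 1), Real.exp (-Sm x (N + j)) := Finset.sum_range_add _ _ _
      _ ≤ ∑ _k ∈ Finset.range N, (1 : ℝ) +
          ∑ j ∈ Finset.range (n + 1), Real.exp (-θ * Sm y j) * Real.exp |a0| := by
          refine add_le_add (Finset.sum_le_sum fun k hk => ?_) (Finset.sum_le_sum fun j hj => ?_)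
          · have h1 := hlow k (Finset.mem_range.1 hk).le
            have h2 : 0 ≤ (k : ℝ) * δ := by positivity
            exact Real.exp_le_one_iff.2 (by linarith)
          · rw [← Real.exp_add, hadd]
            refine Real.exp_le_exp.2 ?_
            have h1 := hone j (by have := Finset.mem_range.1 hj; omega)
            have h2 : 0 ≤ |a0| := abs_nonneg _
            nlinarith
      _ = N + (∑ j ∈ Finset.range (n + 1), Real.exp (-θ * Sm y j)) * Real.exp |a0| := by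
          rw [← Finset.sum_mul]
          simp
      _ ≤ _ := by gcongr

end Pool.Agent.H96.RW
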