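import Pool.Agent.H96.RW.LeftAux
import Pool.Agent.H96.RW.Pos
import Pool.Agent.H96.RW.Green1
import Pool.Agent.H96.RW.Green2

/-!
# The part of the block before the bottom
-/

namespace Pool.Agent.H96.RW

open MeasureTheory ProbabilityTheory Filter Topology
open scoped ENNReal

theorem left_part (μ : Measure ℝ) [IsProbabilityMeasure μ] (L : ℝ) (hL : ∀ᵐ x ∂μ, |x| ≤ L)
    (h1 : ∫ x, Real.exp (x / 2) ∂μ = 1) (h2 : ∫ x, x ∂μ < 0) :
    ∃ A C c K₀ : ℝ, 0 < A ∧ 0 < C ∧ 0 < c ∧ 0 < K₀ ∧ ∀ K : ℝ, K₀ ≤ K → ∃ m₀ : ℕ, ∀ m : ℕ, m₀ ≤ m →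
      ∀ n : ℕ, m ≤ n → n ≤ 2 * m → ENNReal.ofReal c ≤ (Measure.infinitePi fun _ : ℕ => μ)
        {x | (∀ i < n, Sm x n < Sm x i) ∧
          (∑ i ∈ Finset.range (n + 1), Real.exp (-(Sm x i - Sm x n)) ≤ A) ∧
          (∃ i < n, Real.log (K * m ^ 2) ≤ Sm x i - Sm x n) ∧
          (∀ i j, i < j → j ≤ n → Sm x j - Sm x i < Real.log (K * m ^ 2)) ∧
          (∑ i ∈ Finset.range n, ∑ j ∈ Finset.range (i + 1), Real.exp (Sm x i - Sm x j) ≤
            C * Real.sqrt K * m ^ 2)} := by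
  refine LeftAux.left_part_aux ?_ ?_ ?_ ?_ μ L hL h1 h2
  · intro μ _ L hL hm
    exact pos_path μ L hL hm
  · intro μ _ L hL h1 h n
    exact max_ineq μ L hL h1 h n
  · intro μ _ L hL h1 h2
    exact green μ L hL h1 h2
  · intro μ _ L hL h2
    exact chern μ L hL h2

end Pool.Agent.H96.RW
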