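import Pool.Agent.H96.RW.Law
import Pool.Agent.H96.RW.Pos

/-!
# Lower bound for the probability of a good rise (EC)
-/

namespace Pool.Agent.H96.RW

open MeasureTheory ProbabilityTheory Filter Topology
open scoped ENNReal

namespace Rt

/-- The tilted law. -/
noncomputable def tl (μ : Measure ℝ) : Measure ℝ :=
  μ.withDensity fun x => ENNReal.ofReal (Real.exp (x / 2))

theorem meas_d : Measurable fun x : ℝ => ENNReal.ofReal (Real.exp (x / 2)) := by fun_prop

theorem int_bdd (μ : Measure ℝ) [IsProbabilityMeasure μ] (L : ℝ) (hL : ∀ᵐ x ∂μ, |x| ≤ L)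
    (f : ℝ → ℝ) (hf : Continuous f) : Integrable f μ := by
  obtain ⟨C, hC⟩ := (isCompact_Icc (a := -L) (b := L)).exists_bound_of_continuousOn
    hf.continuousOn
  refine Integrable.of_bound hf.aestronglyMeasurable C ?_
  filter_upwards [hL] with x hx
  exact hC x (abs_le.1 hx)

theorem tl_prob (μ : Measure ℝ) [IsProbabilityMeasure μ] (L : ℝ) (hL : ∀ᵐ x ∂μ, |x| ≤ L)
    (h1 : ∫ x, Real.exp (x / 2) ∂μ = 1) : IsProbabilityMeasure (tl μ) := by
  constructor
  rw [tl, withDensity_apply _ MeasurableSet.univ, Measure.restrict_univ,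
    ← ofReal_integral_eq_lintegral_ofReal (int_bdd μ L hL _ (by fun_prop))
      (ae_of_all _ fun x => (Real.exp_pos _).le), h1, ENNReal.ofReal_one]

theorem tl_ac (μ : Measure ℝ) : tl μ ≪ μ := withDensity_absolutelyContinuous _ _

/-- If a nonnegative continuous function vanishing only at `0` has integral at most `0`, then the
mean is `0`. -/
theorem strict (μ : Measure ℝ) [IsProbabilityMeasure μ] (L : ℝ) (hL : ∀ᵐ x ∂μ, |x| ≤ L)
    (h2 : ∫ x, x ∂μ < 0) (F : ℝ → ℝ) (hF : Continuous F) (hF0 : ∀ x, 0 ≤ F x)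
    (hF1 : ∀ x, F x = 0 → x = 0) : 0 < ∫ x, F x ∂μ := by
  by_contra hcon
  have h0 : ∫ x, F x ∂μ = 0 := le_antisymm (not_lt.1 hcon) (integral_nonneg hF0)
  rw [integral_eq_zero_iff_of_nonneg hF0 (int_bdd μ L hL F hF)] at h0
  have h3 : (fun x : ℝ => x) =ᵐ[μ] 0 := by
    filter_upwards [h0] with x hx
    exact hF1 x hx
  rw [integral_congr_ae h3] at h2
  simp at h2

theorem tl_mean (μ : Measure ℝ) [IsProbabilityMeasure μ] (L : ℝ) (hL : ∀ᵐ x ∂μ, |x| ≤ L)
    (h1 : ∫ x, Real.exp (x / 2) ∂μ = 1) (h2 : ∫ x, x ∂μ < 0) : 0 < ∫ x, x ∂(tl μ) := by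
  rw [tl, integral_withDensity_eq_integral_toReal_smul meas_d
    (ae_of_all _ fun x => ENNReal.ofReal_lt_top)]
  have e : ∀ x : ℝ, (ENNReal.ofReal (Real.exp (x / 2))).toReal • x = Real.exp (x / 2) * x :=
    fun x => by rw [ENNReal.toReal_ofReal (Real.exp_pos _).le, smul_eq_mul]
  simp_rw [e]
  have key : ∀ x : ℝ, x ≠ 0 → 0 < 1 - Real.exp (x / 2) + 1 / 2 * (Real.exp (x / 2) * x) := by
    intro x hx
    have h3 : -(x / 2) + 1 < Real.exp (-(x / 2)) :=
      Real.add_one_lt_exp (by intro h; apply hx; linarith)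
    have h4 := mul_lt_mul_of_pos_right h3 (Real.exp_pos (x / 2))
    rw [← Real.exp_add] at h4
    simp only [neg_add_cancel, Real.exp_zero] at h4
    nlinarith
  have hs := strict μ L hL h2 (fun x => 1 - Real.exp (x / 2) + 1 / 2 * (Real.exp (x / 2) * x))
    (by fun_prop) (fun x => by
      by_cases hx : x = 0
      · simp [hx]
      · exact (key x hx).le) (fun x hx => by
      by_contra h
      exact (key x h).ne' hx)
  have i1 : Integrable (fun x : ℝ => (1 : ℝ) - Real.exp (x / 2)) μ :=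
    int_bdd μ L hL _ (by fun_prop)
  have i2 : Integrable (fun x : ℝ => 1 / 2 * (Real.exp (x / 2) * x)) μ :=
    int_bdd μ L hL _ (by fun_prop)
  rw [integral_add i1 i2, integral_sub (integrable_const _) (int_bdd μ L hL _ (by fun_prop)),
    h1, integral_const_mul] at hs
  simp at hs
  exact hs

theorem phi_lt (μ : Measure ℝ) [IsProbabilityMeasure μ] (L : ℝ) (hL : ∀ᵐ x ∂μ, |x| ≤ L)
    (h1 : ∫ x, Real.exp (x / 2) ∂μ = 1) (h2 : ∫ x, x ∂μ < 0) :
    ∫ x, Real.exp (x / 4) ∂μ < 1 := by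
  have hs := strict μ L hL h2 (fun x => (Real.exp (x / 4) - 1) ^ 2)
    (by fun_prop) (fun x => sq_nonneg _) (fun x hx => by
      have h3 : Real.exp (x / 4) = 1 := by
        have := pow_eq_zero_iff (n := 2) (by norm_num) |>.1 hx
        linarith
      rw [Real.exp_eq_one_iff] at h3
      linarith)
  have e : ∀ x : ℝ, (Real.exp (x / 4) - 1) ^ 2 = (Real.exp (x / 2) - 2 * Real.exp (x / 4)) + 1 := by
    intro x
    have : Real.exp (x / 2) = Real.exp (x / 4) * Real.exp (x / 4) := by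
      rw [← Real.exp_add]; ring_nf
    rw [this]; ring
  simp_rw [e] at hs
  rw [integral_add (int_bdd μ L hL _ (by fun_prop)) (integrable_const _),
    integral_sub (int_bdd μ L hL _ (by fun_prop)) (int_bdd μ L hL _ (by fun_prop)), h1,
    integral_const_mul] at hs
  simp at hs
  linarith

theorem phi_pos (μ : Measure ℝ) [IsProbabilityMeasure μ] (L : ℝ) (hL : ∀ᵐ x ∂μ, |x| ≤ L) :
    0 < ∫ x, Real.exp (x / 4) ∂μ := by
  have i := int_bdd μ L hL (fun x => Real.exp (x / 4)) (by fun_prop)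
  exact integral_exp_pos i

theorem Sm_zero (x : ℕ → ℝ) : Sm x 0 = 0 := by simp [Sm]

theorem Sm_succ (x : ℕ → ℝ) (k : ℕ) : Sm x (k + 1) = Sm x k + x k := by
  simp [Sm, Finset.sum_range_succ]

theorem Sm_cns (a : ℝ) (v : ℕ → ℝ) (k : ℕ) : Sm (cns (a, v)) (k + 1) = a + Sm v k := by
  simp only [Sm]
  rw [Finset.sum_range_succ']
  simp [add_comm]

theorem Sm_congr (x y : ℕ → ℝ) (k : ℕ) (h : ∀ i < k, x i = y i) : Sm x k = Sm y k :=
  Finset.sum_congr rfl fun i hi => h i (Finset.mem_range.1 hi)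

theorem meas_Sm (k : ℕ) : Measurable fun x : ℕ → ℝ => Sm x k := by
  unfold Sm
  fun_prop

theorem lint_tl (μ : Measure ℝ) (G : ℝ → ℝ≥0∞) (hG : Measurable G) :
    ∫⁻ a, G a ∂(tl μ) = ∫⁻ a, ENNReal.ofReal (Real.exp (a / 2)) * G a ∂μ := by
  rw [tl, lintegral_withDensity_eq_lintegral_mul _ meas_d hG]
  rfl

/-- Change of measure. -/
theorem chg (μ : Measure ℝ) [IsProbabilityMeasure μ] [IsProbabilityMeasure (tl μ)] (k : ℕ) :
    ∀ (F : (ℕ → ℝ) → ℝ≥0∞), Measurable F → (∀ x y, (∀ i < k, x i = y i) → F x = F y) →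
    ∫⁻ x, F x * ENNReal.ofReal (Real.exp (Sm x k / 2)) ∂(Measure.infinitePi fun _ : ℕ => μ) =
      ∫⁻ x, F x ∂(Measure.infinitePi fun _ : ℕ => tl μ) := by
  induction k with
  | zero =>
    intro F hF hd
    have hc : F = fun _ => F 0 := funext fun x => hd x 0 (by simp)
    rw [hc]
    simp [Sm_zero]
  | succ k ih =>
    intro F hF hd
    have hm : Measurable fun x : ℕ → ℝ => F x * ENNReal.ofReal (Real.exp (Sm x (k + 1) / 2)) :=
      hF.mul ((Real.measurable_exp.comp ((meas_Sm (k + 1)).div_const 2)).ennreal_ofReal)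
    conv_lhs => rw [← cns_map μ]
    conv_rhs => rw [← cns_map (tl μ)]
    have hmc : Measurable fun p : ℝ × (ℕ → ℝ) =>
        F (cns p) * ENNReal.ofReal (Real.exp (Sm (cns p) (k + 1) / 2)) := hm.comp measurable_cns
    have hFc : Measurable fun p : ℝ × (ℕ → ℝ) => F (cns p) := hF.comp measurable_cns
    rw [lintegral_map hm measurable_cns, lintegral_map hF measurable_cns,
      lintegral_prod _ hmc.aemeasurable, lintegral_prod _ hFc.aemeasurable]
    have hI : Measurable fun a : ℝ => ∫⁻ v, F (cns (a, v)) ∂(Measure.infinitePi fun _ : ℕ => tl μ) :=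
      (hF.comp measurable_cns).lintegral_prod_right'
    rw [lint_tl μ _ hI]
    refine lintegral_congr fun a => ?_
    rw [← ih (fun v => F (cns (a, v))) (hF.comp (measurable_cns.comp measurable_prodMk_left))
      (fun x y hxy => hd _ _ fun i hi => by
        cases i with
        | zero => rfl
        | succ i => exact hxy i (by omega))]
    have hm2 : Measurable fun v : ℕ → ℝ =>
        F (cns (a, v)) * ENNReal.ofReal (Real.exp (Sm v k / 2)) :=
      (hF.comp (measurable_cns.comp measurable_prodMk_left)).mul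
        ((Real.measurable_exp.comp ((meas_Sm k).div_const 2)).ennreal_ofReal)
    rw [← lintegral_const_mul _ hm2]
    refine lintegral_congr fun v => ?_
    rw [Sm_cns, show (a + Sm v k) / 2 = a / 2 + Sm v k / 2 by ring, Real.exp_add,
      ENNReal.ofReal_mul (Real.exp_pos _).le]
    ring

theorem mgf4 (μ : Measure ℝ) [IsProbabilityMeasure μ] (L : ℝ) (hL : ∀ᵐ x ∂μ, |x| ≤ L) (k : ℕ) :
    ∫⁻ x, ENNReal.ofReal (Real.exp (Sm x k / 4)) ∂(Measure.infinitePi fun _ : ℕ => μ) =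
      ENNReal.ofReal (∫ x, Real.exp (x / 4) ∂μ) ^ k := by
  induction k with
  | zero => simp [Sm_zero]
  | succ k ih =>
    have hm : Measurable fun x : ℕ → ℝ => ENNReal.ofReal (Real.exp (Sm x (k + 1) / 4)) :=
      ((Real.measurable_exp.comp ((meas_Sm (k + 1)).div_const 4)).ennreal_ofReal)
    have hm2 : Measurable fun x : ℕ → ℝ => ENNReal.ofReal (Real.exp (Sm x k / 4)) :=
      ((Real.measurable_exp.comp ((meas_Sm k).div_const 4)).ennreal_ofReal)
    conv_lhs => rw [← cns_map μ]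
    have hmc : Measurable fun p : ℝ × (ℕ → ℝ) =>
        ENNReal.ofReal (Real.exp (Sm (cns p) (k + 1) / 4)) := hm.comp measurable_cns
    rw [lintegral_map hm measurable_cns, lintegral_prod _ hmc.aemeasurable]
    have e : ∀ a : ℝ, ∫⁻ v, ENNReal.ofReal (Real.exp (Sm (cns (a, v)) (k + 1) / 4))
        ∂(Measure.infinitePi fun _ : ℕ => μ) = ENNReal.ofReal (Real.exp (a / 4)) *
          ENNReal.ofReal (∫ x, Real.exp (x / 4) ∂μ) ^ k := by
      intro a
      rw [← ih, ← lintegral_const_mul _ hm2]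
      refine lintegral_congr fun v => ?_
      rw [Sm_cns, show (a + Sm v k) / 4 = a / 4 + Sm v k / 4 by ring, Real.exp_add,
        ENNReal.ofReal_mul (Real.exp_pos _).le]
    simp_rw [e]
    rw [lintegral_mul_const _ (by fun_prop),
      ← ofReal_integral_eq_lintegral_ofReal (int_bdd μ L hL _ (by fun_prop))
      (ae_of_all _ fun x => (Real.exp_pos _).le), pow_succ, mul_comm]

theorem low (μ : Measure ℝ) [IsProbabilityMeasure μ] [IsProbabilityMeasure (tl μ)] (L : ℝ)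
    (hL : ∀ᵐ x ∂μ, |x| ≤ L) (h : ℝ) (M : ℕ) :
    (Measure.infinitePi fun _ : ℕ => tl μ) {x | Sm x M < h} ≤
      ENNReal.ofReal (Real.exp (h / 4) * (∫ x, Real.exp (x / 4) ∂μ) ^ M) := by
  have hm : Measurable fun x : ℕ → ℝ => ENNReal.ofReal (Real.exp (-Sm x M / 4)) :=
    ((Real.measurable_exp.comp ((meas_Sm M).neg.div_const 4)).ennreal_ofReal)
  have h1 : (Measure.infinitePi fun _ : ℕ => tl μ) {x | Sm x M < h} ≤
      ∫⁻ x, ENNReal.ofReal (Real.exp (h / 4)) * ENNReal.ofReal (Real.exp (-Sm x M / 4))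
        ∂(Measure.infinitePi fun _ : ℕ => tl μ) := by
    have hms : MeasurableSet {x : ℕ → ℝ | Sm x M < h} := measurableSet_lt (meas_Sm M) measurable_const
    rw [← lintegral_indicator_one hms]
    refine lintegral_mono fun x => ?_
    by_cases hx : x ∈ {x : ℕ → ℝ | Sm x M < h}
    · rw [Set.indicator_of_mem hx, ← ENNReal.ofReal_mul (Real.exp_pos _).le, ← Real.exp_add,
        Pi.one_apply, ← ENNReal.ofReal_one]
      refine ENNReal.ofReal_le_ofReal ?_
      rw [← Real.exp_zero]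
      refine Real.exp_le_exp.2 ?_
      have : Sm x M < h := hx
      linarith
    · rw [Set.indicator_of_notMem hx]
      exact zero_le
  refine h1.trans (le_of_eq ?_)
  rw [lintegral_const_mul _ hm, ← chg μ M _ hm (fun x y hxy => by rw [Sm_congr x y M hxy]),
    ENNReal.ofReal_mul (Real.exp_pos _).le, ENNReal.ofReal_pow (phi_pos μ L hL).le,
    ← mgf4 μ L hL M]
  congr 1
  refine lintegral_congr fun x => ?_
  rw [← ENNReal.ofReal_mul (Real.exp_pos _).le, ← Real.exp_add]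
  congr 2
  ring

theorem ae_all (μ : Measure ℝ) [IsProbabilityMeasure μ] (L : ℝ) (hL : ∀ᵐ x ∂μ, |x| ≤ L) :
    ∀ᵐ x ∂(Measure.infinitePi fun _ : ℕ => μ), ∀ i : ℕ, |x i| ≤ L := by
  rw [ae_all_iff]
  intro i
  exact (measurePreserving_eval_infinitePi (fun _ : ℕ => μ) i).quasiMeasurePreserving.ae hL

/-- First passage above `h` at time `k` with the good properties. -/
def Fp (A h : ℝ) (k : ℕ) : Set (ℕ → ℝ) := {x | h ≤ Sm x k ∧ (∀ j < k, Sm x j < h) ∧
  (∀ j, 1 ≤ j → j ≤ k → 0 < Sm x j) ∧ ∑ j ∈ Finset.range (k + 1), Real.exp (-Sm x j) ≤ A}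

theorem meas_sum (k : ℕ) :
    Measurable fun x : ℕ → ℝ => ∑ j ∈ Finset.range (k + 1), Real.exp (-Sm x j) :=
  Finset.measurable_sum _ fun j _ => Real.measurable_exp.comp (meas_Sm j).neg

theorem meas_pos (k : ℕ) : MeasurableSet {x : ℕ → ℝ | ∀ j, 1 ≤ j → j ≤ k → 0 < Sm x j} := by
  have : {x : ℕ → ℝ | ∀ j, 1 ≤ j → j ≤ k → 0 < Sm x j} =
      ⋂ j, ⋂ (_ : 1 ≤ j), ⋂ (_ : j ≤ k), {x | 0 < Sm x j} := by
    ext x; simp
  rw [this]
  exact MeasurableSet.iInter fun j => MeasurableSet.iInter fun _ => MeasurableSet.iInter fun _ =>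
    measurableSet_lt measurable_const (meas_Sm j)

theorem meas_Fp (A h : ℝ) (k : ℕ) : MeasurableSet (Fp A h k) := by
  have e : Fp A h k = {x | h ≤ Sm x k} ∩ ((⋂ j, ⋂ (_ : j < k), {x | Sm x j < h}) ∩
      ({x : ℕ → ℝ | ∀ j, 1 ≤ j → j ≤ k → 0 < Sm x j} ∩
        {x | ∑ j ∈ Finset.range (k + 1), Real.exp (-Sm x j) ≤ A})) := by
    ext x; simp [Fp]
  rw [e]
  exact (measurableSet_le measurable_const (meas_Sm k)).inter
    ((MeasurableSet.iInter fun j => MeasurableSet.iInter fun _ =>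
      measurableSet_lt (meas_Sm j) measurable_const).inter
      ((meas_pos k).inter (measurableSet_le (meas_sum k) measurable_const)))

theorem Fp_congr (A h : ℝ) (k : ℕ) (x y : ℕ → ℝ) (hxy : ∀ i < k, x i = y i) :
    x ∈ Fp A h k ↔ y ∈ Fp A h k := by
  have e : ∀ j, j ≤ k → Sm x j = Sm y j := fun j hj =>
    Sm_congr x y j fun i hi => hxy i (by omega)
  have e2 : ∑ j ∈ Finset.range (k + 1), Real.exp (-Sm x j) =
      ∑ j ∈ Finset.range (k + 1), Real.exp (-Sm y j) :=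
    Finset.sum_congr rfl fun j hj => by rw [e j (by simpa [Nat.lt_succ_iff] using hj)]
  simp only [Fp, Set.mem_ofPred_eq, e k le_rfl, e2]
  refine and_congr_right fun _ => and_congr ?_ (and_congr ?_ Iff.rfl)
  · exact forall_congr' fun j => forall_congr' fun hj => by rw [e j hj.le]
  · exact forall_congr' fun j => forall_congr' fun _ => forall_congr' fun hj => by rw [e j hj]

theorem Fp_disj (A h : ℝ) : Pairwise (Function.onFun Disjoint (Fp A h)) := by
  intro k k' hk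
  rw [Function.onFun, Set.disjoint_left]
  rintro x ⟨h1, h2, _, _⟩ ⟨h3, h4, _, _⟩
  rcases lt_or_gt_of_ne hk with hlt | hlt
  · exact absurd (h4 k hlt) (not_lt.2 h1)
  · exact absurd (h2 k' hlt) (not_lt.2 h3)

theorem Fp_le (μ : Measure ℝ) [IsProbabilityMeasure μ] [IsProbabilityMeasure (tl μ)] (L : ℝ)
    (hL : ∀ᵐ x ∂μ, |x| ≤ L) (A h : ℝ) (k : ℕ) (hk : 1 ≤ k) :
    (Measure.infinitePi fun _ : ℕ => tl μ) (Fp A h k) ≤ ENNReal.ofReal (Real.exp ((h + L) / 2)) *
      (Measure.infinitePi fun _ : ℕ => μ) (Fp A h k) := by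
  have hms := meas_Fp A h k
  rw [← lintegral_indicator_one hms, ← lintegral_indicator_one hms,
    ← chg μ k _ (measurable_one.indicator hms) (fun x y hxy => by
      by_cases hx : x ∈ Fp A h k
      · rw [Set.indicator_of_mem hx, Set.indicator_of_mem ((Fp_congr A h k x y hxy).1 hx)]
        rfl
      · rw [Set.indicator_of_notMem hx, Set.indicator_of_notMem
          (fun h' => hx ((Fp_congr A h k x y hxy).2 h'))]),
    ← lintegral_const_mul _ (measurable_one.indicator hms)]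
  refine lintegral_mono_ae ?_
  filter_upwards [ae_all μ L hL] with x hx
  by_cases hx2 : x ∈ Fp A h k
  · rw [Set.indicator_of_mem hx2, Pi.one_apply, one_mul, mul_one]
    refine ENNReal.ofReal_le_ofReal (Real.exp_le_exp.2 ?_)
    obtain ⟨k, rfl⟩ : ∃ k', k = k' + 1 := ⟨k - 1, by omega⟩
    have h3 := hx2.2.1 k (by omega)
    have h4 := (abs_le.1 (hx k)).2
    rw [Sm_succ]
    linarith
  · rw [Set.indicator_of_notMem hx2]
    simp

end Rt

open Rt in
/-- The rise, with (EA) for the tilted law as a hypothesis. -/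
theorem right_rise_of (hEA : ∀ (μ : Measure ℝ) [IsProbabilityMeasure μ] (L : ℝ),
    (∀ᵐ x ∂μ, |x| ≤ L) → 0 < ∫ x, x ∂μ → ∃ A c : ℝ, 0 < A ∧ 0 < c ∧ ∀ n : ℕ, ENNReal.ofReal c ≤
      (Measure.infinitePi fun _ : ℕ => μ) {x | (∀ k, 1 ≤ k → k ≤ n → 0 < Sm x k) ∧
        ∑ k ∈ Finset.range (n + 1), Real.exp (-Sm x k) ≤ A})
    (μ : Measure ℝ) [IsProbabilityMeasure μ] (L : ℝ) (hL : ∀ᵐ x ∂μ, |x| ≤ L)
    (h1 : ∫ x, Real.exp (x / 2) ∂μ = 1) (h2 : ∫ x, x ∂μ < 0) : ∃ A B c : ℝ, 0 < A ∧ 0 < B ∧ 0 < c ∧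
    ∀ (h : ℝ) (M : ℕ), 0 < h → B * (h + 1) ≤ M → ENNReal.ofReal (c * Real.exp (-h / 2)) ≤
      (Measure.infinitePi fun _ : ℕ => μ) {x | ∃ k, 1 ≤ k ∧ k ≤ M ∧ h ≤ Sm x k ∧
        (∀ j, 1 ≤ j → j ≤ k → 0 < Sm x j) ∧
        ∑ j ∈ Finset.range (k + 1), Real.exp (-Sm x j) ≤ A} := by
  have := tl_prob μ L hL h1
  obtain ⟨A, c, hA, hc, hAc⟩ := hEA (tl μ) L ((tl_ac μ).ae_le hL) (tl_mean μ L hL h1 h2)
  set φ := ∫ x, Real.exp (x / 4) ∂μ with hφ
  have hφ0 : 0 < φ := phi_pos μ L hL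
  have hφ1 : φ < 1 := phi_lt μ L hL h1 h2
  have hlog : 0 < -Real.log φ := by
    have := Real.log_neg hφ0 hφ1
    linarith
  refine ⟨A, (1 / 4 + |Real.log (2 / c)|) / (-Real.log φ), c / 2 * Real.exp (-L / 2), hA,
    by positivity, by positivity, ?_⟩
  intro h M hh hM
  -- the tail is small
  have htail : Real.exp (h / 4) * φ ^ M ≤ c / 2 := by
    rw [div_mul_eq_mul_div, div_le_iff₀ hlog] at hM
    have e : φ ^ M = Real.exp (M * Real.log φ) := by
      rw [← Real.log_pow, Real.exp_log (pow_pos hφ0 M)]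
    rw [e, ← Real.exp_add]
    have h5 : c / 2 = Real.exp (-Real.log (2 / c)) := by
      rw [← Real.log_inv, Real.exp_log (by positivity)]
      field_simp
    rw [h5]
    refine Real.exp_le_exp.2 ?_
    have h6 := le_abs_self (Real.log (2 / c))
    have h7 := abs_nonneg (Real.log (2 / c))
    nlinarith
  have hlow := (low μ L hL h M).trans (ENNReal.ofReal_le_ofReal htail)
  -- the good event under the tilted law
  set ν := Measure.infinitePi fun _ : ℕ => tl μ with hν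
  have hG : ENNReal.ofReal (c / 2) ≤ ν (⋃ k ∈ Finset.Icc 1 M, Fp A h k) := by
    have hsub : {x : ℕ → ℝ | (∀ k, 1 ≤ k → k ≤ M → 0 < Sm x k) ∧
        ∑ k ∈ Finset.range (M + 1), Real.exp (-Sm x k) ≤ A} ⊆
        (⋃ k ∈ Finset.Icc 1 M, Fp A h k) ∪ {x | Sm x M < h} := by
      rintro x ⟨hx1, hx2⟩
      by_cases hxM : Sm x M < h
      · exact Or.inr hxM
      · left
        classical
        have hex : ∃ k, h ≤ Sm x k := ⟨M, not_lt.1 hxM⟩
        set k := Nat.find hex with hk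
        have hk1 : h ≤ Sm x k := Nat.find_spec hex
        have hk2 : ∀ j < k, Sm x j < h := fun j hj => not_le.1 (Nat.find_min hex hj)
        have hkM : k ≤ M := Nat.find_min' hex (not_lt.1 hxM)
        have hk0 : 1 ≤ k := by
          rcases Nat.eq_zero_or_pos k with h0 | h0
          · rw [h0, Sm_zero] at hk1
            linarith
          · exact h0
        simp only [Set.mem_iUnion]
        refine ⟨k, Finset.mem_Icc.2 ⟨hk0, hkM⟩, hk1, hk2, fun j hj1 hj2 => hx1 j hj1 (by omega), ?_⟩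
        refine le_trans ?_ hx2
        exact Finset.sum_le_sum_of_subset_of_nonneg
          (Finset.range_subset_range.2 (by omega)) fun _ _ _ => (Real.exp_pos _).le
    have h8 : ENNReal.ofReal c ≤ ν (⋃ k ∈ Finset.Icc 1 M, Fp A h k) + ENNReal.ofReal (c / 2) :=
      (hAc M).trans ((measure_mono hsub).trans ((measure_union_le _ _).trans
        (add_le_add le_rfl hlow)))
    have h9 : ENNReal.ofReal c = ENNReal.ofReal (c / 2) + ENNReal.ofReal (c / 2) := by
      rw [← ENNReal.ofReal_add (by positivity) (by positivity)]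
      congr 1; ring
    rw [h9] at h8
    exact (ENNReal.add_le_add_iff_right ENNReal.ofReal_ne_top).1 h8
  -- back to the original law
  have hback : ν (⋃ k ∈ Finset.Icc 1 M, Fp A h k) ≤ ENNReal.ofReal (Real.exp ((h + L) / 2)) *
      (Measure.infinitePi fun _ : ℕ => μ) (⋃ k ∈ Finset.Icc 1 M, Fp A h k) := by
    rw [measure_biUnion_finset (fun i _ j _ hij => Fp_disj A h hij) (fun k _ => meas_Fp A h k),
      measure_biUnion_finset (fun i _ j _ hij => Fp_disj A h hij) (fun k _ => meas_Fp A h k),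
      Finset.mul_sum]
    exact Finset.sum_le_sum fun k hk => Fp_le μ L hL A h k (Finset.mem_Icc.1 hk).1
  have hfin : ENNReal.ofReal (c / 2 * Real.exp (-L / 2) * Real.exp (-h / 2)) ≤
      (Measure.infinitePi fun _ : ℕ => μ) (⋃ k ∈ Finset.Icc 1 M, Fp A h k) := by
    have h10 := hG.trans hback
    have h11 : ENNReal.ofReal (c / 2 * Real.exp (-L / 2) * Real.exp (-h / 2)) =
        ENNReal.ofReal (Real.exp (-(h + L) / 2)) * ENNReal.ofReal (c / 2) := by
      rw [← ENNReal.ofReal_mul (Real.exp_pos _).le]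
      congr 1
      rw [show -(h + L) / 2 = -L / 2 + -h / 2 by ring, Real.exp_add]
      ring
    rw [h11]
    calc ENNReal.ofReal (Real.exp (-(h + L) / 2)) * ENNReal.ofReal (c / 2)
        ≤ ENNReal.ofReal (Real.exp (-(h + L) / 2)) * (ENNReal.ofReal (Real.exp ((h + L) / 2)) *
          (Measure.infinitePi fun _ : ℕ => μ) (⋃ k ∈ Finset.Icc 1 M, Fp A h k)) := by gcongr
      _ = (Measure.infinitePi fun _ : ℕ => μ) (⋃ k ∈ Finset.Icc 1 M, Fp A h k) := by
        rw [← mul_assoc, ← ENNReal.ofReal_mul (Real.exp_pos _).le, ← Real.exp_add,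
          show -(h + L) / 2 + (h + L) / 2 = 0 by ring, Real.exp_zero, ENNReal.ofReal_one, one_mul]
  refine hfin.trans (measure_mono ?_)
  intro x hx
  simp only [Set.mem_iUnion] at hx
  obtain ⟨k, hk, hx1, _, hx3, hx4⟩ := hx
  exact ⟨k, (Finset.mem_Icc.1 hk).1, (Finset.mem_Icc.1 hk).2, hx1, hx3, hx4⟩

theorem right_rise (μ : Measure ℝ) [IsProbabilityMeasure μ] (L : ℝ) (hL : ∀ᵐ x ∂μ, |x| ≤ L)
    (h1 : ∫ x, Real.exp (x / 2) ∂μ = 1) (h2 : ∫ x, x ∂μ < 0) : ∃ A B c : ℝ, 0 < A ∧ 0 < B ∧ 0 < c ∧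
    ∀ (h : ℝ) (M : ℕ), 0 < h → B * (h + 1) ≤ M → ENNReal.ofReal (c * Real.exp (-h / 2)) ≤
      (Measure.infinitePi fun _ : ℕ => μ) {x | ∃ k, 1 ≤ k ∧ k ≤ M ∧ h ≤ Sm x k ∧
        (∀ j, 1 ≤ j → j ≤ k → 0 < Sm x j) ∧
        ∑ j ∈ Finset.range (k + 1), Real.exp (-Sm x j) ≤ A} :=
  right_rise_of (fun μ _ L hL hm => pos_path μ L hL hm) μ L hL h1 h2

end Pool.Agent.H96.RW
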