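import Pool.Agent.H96.RW.BlockA
import Pool.Agent.H96.RW.Right
import Pool.Agent.H96.RW.Left

/-! (EE) The block contains a good valley with probability bounded below. -/

namespace Pool.Agent.H96.RW

open MeasureTheory ProbabilityTheory Filter Topology
open scoped ENNReal

theorem block_prob (μ : Measure ℝ) [IsProbabilityMeasure μ] (L : ℝ) (hL : ∀ᵐ x ∂μ, |x| ≤ L)
    (h1 : ∫ x, Real.exp (x / 2) ∂μ = 1) (h2 : ∫ x, x ∂μ < 0) :
    ∃ A C K₀ : ℝ, 0 < A ∧ 0 < C ∧ 0 < K₀ ∧ ∀ K : ℝ, K₀ ≤ K → ∃ c : ℝ, 0 < c ∧ ∃ m₀ : ℕ, ∀ m : ℕ,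
      m₀ ≤ m → ENNReal.ofReal c ≤ (Measure.infinitePi fun _ : ℕ => μ)
        {x | Blk m (Real.log (K * m ^ 2)) A (C * Real.sqrt K * m ^ 2) x} :=
  BK.block_prob_of μ (right_rise μ L hL h1 h2) (left_part μ L hL h1 h2)

end Pool.Agent.H96.RW
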