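import Pool.Agent.H96.RW.Defs

/-! (EE) The block contains a good valley with probability bounded below: the gluing of the left
and the right part, with these as hypotheses. -/

namespace Pool.Agent.H96.RW.BK

open MeasureTheory ProbabilityTheory Filter Topology
open scoped ENNReal

/-- The first `n` coordinates of one sequence followed by another sequence. -/
noncomputable def Jn (n : ℕ) (p : (ℕ → ℝ) × (ℕ → ℝ)) : ℕ → ℝ :=
  fun i => if i < n then p.1 i else p.2 (i - n)

theorem Jn_meas (n : ℕ) : Measurable (Jn n) := by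
  rw [measurable_pi_iff]
  intro i
  unfold Jn
  by_cases h : i < n
  · simp only [h, if_true]
    exact (measurable_pi_apply i).comp measurable_fst
  · simp only [h, if_false]
    exact (measurable_pi_apply (i - n)).comp measurable_snd

theorem Jn_map (μ : Measure ℝ) [IsProbabilityMeasure μ] (n : ℕ) :
    ((Measure.infinitePi fun _ : ℕ => μ).prod (Measure.infinitePi fun _ : ℕ => μ)).map (Jn n) =
      Measure.infinitePi fun _ : ℕ => μ := by
  classical
  apply Measure.eq_infinitePi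
  intro s t ht
  rw [Measure.map_apply (Jn_meas n) (MeasurableSet.pi s.countable_toSet fun i _ => ht i)]
  have hpre : Jn n ⁻¹' (Set.pi s t) =
      (Set.pi (s.filter (· < n) : Finset ℕ) t) ×ˢ
        (Set.pi ((s.filter (fun i => ¬ i < n)).image (· - n) : Finset ℕ) fun j => t (j + n)) := by
    ext p
    simp only [Set.mem_preimage, Set.mem_pi, Finset.mem_coe, Set.mem_prod, Finset.mem_filter,
      Finset.mem_image, Jn]
    constructor
    · intro h
      refine ⟨fun i hi => ?_, ?_⟩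
      · have := h i hi.1
        rwa [if_pos hi.2] at this
      · rintro j ⟨i, ⟨his, hin⟩, rfl⟩
        have := h i his
        rw [if_neg hin] at this
        have e : i - n + n = i := by omega
        rw [e]; exact this
    · rintro ⟨h1, h2⟩ i hi
      by_cases hin : i < n
      · rw [if_pos hin]; exact h1 i ⟨hi, hin⟩
      · rw [if_neg hin]
        have := h2 (i - n) ⟨i, ⟨hi, hin⟩, rfl⟩
        have e : i - n + n = i := by omega
        rw [e] at this; exact this
  rw [hpre, Measure.prod_prod, Measure.infinitePi_pi _ (fun i _ => ht i),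
    Measure.infinitePi_pi _ (fun i _ => ht (i + n))]
  rw [Finset.prod_image]
  · have e1 : ∏ x ∈ s.filter (fun i => ¬ i < n), μ (t (x - n + n)) =
        ∏ x ∈ s.filter (fun i => ¬ i < n), μ (t x) := by
      refine Finset.prod_congr rfl fun x hx => ?_
      rw [Finset.mem_filter] at hx
      have e : x - n + n = x := by omega
      rw [e]
    rw [e1]
    exact Finset.prod_filter_mul_prod_filter_not s (· < n) fun i => μ (t i)
  · intro a ha b hb hab
    simp only [Finset.coe_filter, Set.mem_ofPred_eq] at ha hb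
    simp only at hab
    omega

theorem Sm_meas (k : ℕ) : Measurable fun x : ℕ → ℝ => Sm x k := by
  unfold Sm
  exact Finset.measurable_sum _ fun i _ => measurable_pi_apply i

theorem Sm_congr {x y : ℕ → ℝ} {n : ℕ} (h : ∀ i < n, x i = y i) : ∀ j ≤ n, Sm x j = Sm y j := by
  intro j hj
  unfold Sm
  refine Finset.sum_congr rfl fun i hi => h i ?_
  rw [Finset.mem_range] at hi
  omega

theorem Sm_add (x : ℕ → ℝ) (n j : ℕ) : Sm x (n + j) = Sm x n + Sm (fun i => x (n + i)) j := by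
  unfold Sm
  rw [Finset.sum_range_add]

/-- The left event. -/
def LE (n : ℕ) (h A G : ℝ) : Set (ℕ → ℝ) :=
  {x | (∀ i < n, Sm x n < Sm x i) ∧
    (∑ i ∈ Finset.range (n + 1), Real.exp (-(Sm x i - Sm x n)) ≤ A) ∧
    (∃ i < n, h ≤ Sm x i - Sm x n) ∧
    (∀ i j, i < j → j ≤ n → Sm x j - Sm x i < h) ∧
    (∑ i ∈ Finset.range n, ∑ j ∈ Finset.range (i + 1), Real.exp (Sm x i - Sm x j) ≤ G)}

/-- The right event. -/
def RE (M : ℕ) (h A : ℝ) : Set (ℕ → ℝ) :=
  {x | ∃ k, 1 ≤ k ∧ k ≤ M ∧ h ≤ Sm x k ∧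
        (∀ j, 1 ≤ j → j ≤ k → 0 < Sm x j) ∧
        ∑ j ∈ Finset.range (k + 1), Real.exp (-Sm x j) ≤ A}

theorem LE_meas (n : ℕ) (h A G : ℝ) : MeasurableSet (LE n h A G) := by
  have hS := Sm_meas
  unfold LE
  refine MeasurableSet.inter ?_ (MeasurableSet.inter ?_ (MeasurableSet.inter ?_
    (MeasurableSet.inter ?_ ?_)))
  · have : {x : ℕ → ℝ | ∀ i < n, Sm x n < Sm x i} = ⋂ i, ⋂ (_ : i < n), {x | Sm x n < Sm x i} := by
      ext x; simp
    change MeasurableSet {x : ℕ → ℝ | ∀ i < n, Sm x n < Sm x i}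
    rw [this]
    exact MeasurableSet.iInter fun i => MeasurableSet.iInter fun _ =>
      measurableSet_lt (hS n) (hS i)
  · exact measurableSet_le (Finset.measurable_sum _ fun i _ =>
      Real.measurable_exp.comp ((hS i).sub (hS n)).neg) measurable_const
  · have : {x : ℕ → ℝ | ∃ i < n, h ≤ Sm x i - Sm x n} =
        ⋃ i, ⋃ (_ : i < n), {x | h ≤ Sm x i - Sm x n} := by
      ext x; simp
    change MeasurableSet {x : ℕ → ℝ | ∃ i < n, h ≤ Sm x i - Sm x n}
    rw [this]
    exact MeasurableSet.iUnion fun i => MeasurableSet.iUnion fun _ =>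
      measurableSet_le measurable_const ((hS i).sub (hS n))
  · have : {x : ℕ → ℝ | ∀ i j, i < j → j ≤ n → Sm x j - Sm x i < h} =
        ⋂ i, ⋂ j, ⋂ (_ : i < j), ⋂ (_ : j ≤ n), {x | Sm x j - Sm x i < h} := by
      ext x; simp
    change MeasurableSet {x : ℕ → ℝ | ∀ i j, i < j → j ≤ n → Sm x j - Sm x i < h}
    rw [this]
    exact MeasurableSet.iInter fun i => MeasurableSet.iInter fun j => MeasurableSet.iInter fun _ =>
      MeasurableSet.iInter fun _ => measurableSet_lt ((hS j).sub (hS i)) measurable_const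
  · exact measurableSet_le (Finset.measurable_sum _ fun i _ => Finset.measurable_sum _ fun j _ =>
      Real.measurable_exp.comp ((hS i).sub (hS j))) measurable_const

theorem RE_meas (M : ℕ) (h A : ℝ) : MeasurableSet (RE M h A) := by
  have hS := Sm_meas
  have : RE M h A = ⋃ k, ⋃ (_ : 1 ≤ k), ⋃ (_ : k ≤ M), ({x | h ≤ Sm x k} ∩
      ((⋂ j, ⋂ (_ : 1 ≤ j), ⋂ (_ : j ≤ k), {x | 0 < Sm x j}) ∩
        {x | ∑ j ∈ Finset.range (k + 1), Real.exp (-Sm x j) ≤ A})) := by
    ext x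
    simp only [RE, Set.mem_ofPred_eq, Set.mem_iUnion, Set.mem_inter_iff, Set.mem_iInter,
      exists_prop]
  rw [this]
  refine MeasurableSet.iUnion fun k => MeasurableSet.iUnion fun _ => MeasurableSet.iUnion fun _ =>
    MeasurableSet.inter (measurableSet_le measurable_const (hS k)) (MeasurableSet.inter ?_ ?_)
  · exact MeasurableSet.iInter fun j => MeasurableSet.iInter fun _ => MeasurableSet.iInter fun _ =>
      measurableSet_lt measurable_const (hS j)
  · exact measurableSet_le (Finset.measurable_sum _ fun j _ =>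
      Real.measurable_exp.comp (hS j).neg) measurable_const

theorem LE_congr {n : ℕ} {h A G : ℝ} {x y : ℕ → ℝ} (hxy : ∀ i < n, x i = y i)
    (hx : x ∈ LE n h A G) : y ∈ LE n h A G := by
  have hS := Sm_congr hxy
  obtain ⟨a1, a2, ⟨i0, hi0, a3⟩, a4, a5⟩ := hx
  refine ⟨fun i hi => ?_, ?_, ⟨i0, hi0, ?_⟩, fun i j hij hj => ?_, ?_⟩
  · rw [← hS n le_rfl, ← hS i hi.le]; exact a1 i hi
  · refine le_trans (le_of_eq (Finset.sum_congr rfl fun i hi => ?_)) a2
    have e1 := hS n le_rfl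
    have e2 := hS i (by rw [Finset.mem_range] at hi; omega)
    simp only [e1, e2]
  · rw [← hS n le_rfl, ← hS i0 hi0.le]; exact a3
  · rw [← hS i (by omega), ← hS j hj]; exact a4 i j hij hj
  · refine le_trans (le_of_eq (Finset.sum_congr rfl fun i hi => Finset.sum_congr rfl
      fun j hj => ?_)) a5
    rw [Finset.mem_range] at hi hj
    have e1 := hS i hi.le
    have e2 := hS j (by omega)
    simp only [e1, e2]

/-- The event that `n` is the bottom of a good valley. -/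
def EE (n M : ℕ) (h A₁ A₂ G : ℝ) : Set (ℕ → ℝ) :=
  LE n h A₁ G ∩ (fun (x : ℕ → ℝ) (i : ℕ) => x (n + i)) ⁻¹' RE M h A₂

theorem EE_meas (n M : ℕ) (h A₁ A₂ G : ℝ) : MeasurableSet (EE n M h A₁ A₂ G) := by
  refine (LE_meas n h A₁ G).inter ?_
  have : Measurable (fun (x : ℕ → ℝ) (i : ℕ) => x (n + i)) := by
    rw [measurable_pi_iff]
    exact fun i => measurable_pi_apply (n + i)
  exact this (RE_meas M h A₂)

theorem EE_prob (μ : Measure ℝ) [IsProbabilityMeasure μ] (n M : ℕ) (h A₁ A₂ G : ℝ) :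
    (Measure.infinitePi fun _ : ℕ => μ) (EE n M h A₁ A₂ G) =
      (Measure.infinitePi fun _ : ℕ => μ) (LE n h A₁ G) *
        (Measure.infinitePi fun _ : ℕ => μ) (RE M h A₂) := by
  conv_lhs => rw [← Jn_map μ n]
  rw [Measure.map_apply (Jn_meas n) (EE_meas n M h A₁ A₂ G), ← Measure.prod_prod]
  congr 1
  ext p
  have e1 : (fun i => Jn n p (n + i)) = p.2 := by
    ext i
    unfold Jn
    rw [if_neg (by omega), Nat.add_sub_cancel_left]
  have e2 : ∀ i < n, Jn n p i = p.1 i := fun i hi => by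
    unfold Jn
    rw [if_pos hi]
  simp only [EE, Set.mem_preimage, Set.mem_inter_iff, Set.mem_prod, e1]
  constructor
  · rintro ⟨a, b⟩
    exact ⟨LE_congr e2 a, b⟩
  · rintro ⟨a, b⟩
    exact ⟨LE_congr (fun i hi => (e2 i hi).symm) a, b⟩

theorem EE_disjoint (M : ℕ) (h A₁ A₂ G : ℝ) {n n' : ℕ} (hn : n < n') :
    Disjoint (EE n M h A₁ A₂ G) (EE n' M h A₁ A₂ G) := by
  rw [Set.disjoint_left]
  rintro x ⟨-, k, hk1, -, hk, hpos, -⟩ ⟨⟨a1, -, -, a4, -⟩, -⟩
  have hadd : ∀ j, Sm (fun i => x (n + i)) j = Sm x (n + j) - Sm x n := fun j => by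
    rw [Sm_add]; ring
  rcases le_or_gt n' (n + k) with hc | hc
  · have h1 := hpos (n' - n) (by omega) (by omega)
    rw [hadd, show n + (n' - n) = n' by omega] at h1
    have h2 := a1 n hn
    linarith
  · rw [hadd] at hk
    have h2 := a4 n (n + k) (by omega) (by omega)
    linarith

theorem EE_subset {m n : ℕ} (h A₁ A₂ A G : ℝ) (hA1 : A₁ ≤ A) (hA2 : A₂ ≤ A) (hn1 : m ≤ n)
    (hn2 : n ≤ 2 * m) : EE n m h A₁ A₂ G ⊆ {x | Blk m h A G x} := by
  rintro x ⟨⟨-, a2, a3, -, a5⟩, k, hk1, hk2, hk, -, hs⟩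
  have hadd : ∀ j, Sm (fun i => x (n + i)) j = Sm x (n + j) - Sm x n := fun j => by
    rw [Sm_add]; ring
  refine ⟨n, n + k, hn1, hn2, by omega, by omega, a2.trans hA1, a3, a5, ?_, ?_⟩
  · have hk' : h ≤ Sm (fun i => x (n + i)) k := hk
    rw [hadd] at hk'; exact hk'
  · have hs' : ∑ j ∈ Finset.range (k + 1), Real.exp (-Sm (fun i => x (n + i)) j) ≤ A₂ := hs
    refine le_trans (le_of_eq ?_) (hs'.trans hA2)
    have e0 : Finset.Icc n (n + k) = Finset.Ico n (n + (k + 1)) := by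
      ext i; simp only [Finset.mem_Icc, Finset.mem_Ico]; omega
    rw [e0, Finset.sum_Ico_eq_sum_range, Nat.add_sub_cancel_left]
    refine Finset.sum_congr rfl fun j _ => ?_
    rw [hadd j]

theorem block_prob_of (μ : Measure ℝ) [IsProbabilityMeasure μ]
    (right : ∃ A B c : ℝ, 0 < A ∧ 0 < B ∧ 0 < c ∧
    ∀ (h : ℝ) (M : ℕ), 0 < h → B * (h + 1) ≤ M → ENNReal.ofReal (c * Real.exp (-h / 2)) ≤
      (Measure.infinitePi fun _ : ℕ => μ) {x | ∃ k, 1 ≤ k ∧ k ≤ M ∧ h ≤ Sm x k ∧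
        (∀ j, 1 ≤ j → j ≤ k → 0 < Sm x j) ∧
        ∑ j ∈ Finset.range (k + 1), Real.exp (-Sm x j) ≤ A})
    (left : ∃ A C c K₀ : ℝ, 0 < A ∧ 0 < C ∧ 0 < c ∧ 0 < K₀ ∧ ∀ K : ℝ, K₀ ≤ K →
      ∃ m₀ : ℕ, ∀ m : ℕ, m₀ ≤ m →
      ∀ n : ℕ, m ≤ n → n ≤ 2 * m → ENNReal.ofReal c ≤ (Measure.infinitePi fun _ : ℕ => μ)
        {x | (∀ i < n, Sm x n < Sm x i) ∧
          (∑ i ∈ Finset.range (n + 1), Real.exp (-(Sm x i - Sm x n)) ≤ A) ∧
          (∃ i < n, Real.log (K * m ^ 2) ≤ Sm x i - Sm x n) ∧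
          (∀ i j, i < j → j ≤ n → Sm x j - Sm x i < Real.log (K * m ^ 2)) ∧
          (∑ i ∈ Finset.range n, ∑ j ∈ Finset.range (i + 1), Real.exp (Sm x i - Sm x j) ≤
            C * Real.sqrt K * m ^ 2)}) :
    ∃ A C K₀ : ℝ, 0 < A ∧ 0 < C ∧ 0 < K₀ ∧ ∀ K : ℝ, K₀ ≤ K → ∃ c : ℝ, 0 < c ∧ ∃ m₀ : ℕ, ∀ m : ℕ,
      m₀ ≤ m → ENNReal.ofReal c ≤ (Measure.infinitePi fun _ : ℕ => μ)
        {x | Blk m (Real.log (K * m ^ 2)) A (C * Real.sqrt K * m ^ 2) x} := by
  obtain ⟨A₂, B, c₂, hA₂, hB, hc₂, hR⟩ := right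
  obtain ⟨A₁, C, c₁, K₀, hA₁, hC, hc₁, hK₀, hLft⟩ := left
  refine ⟨A₁ + A₂, C, K₀ + 1, by positivity, hC, by positivity, fun K hK => ?_⟩
  have hK1 : 1 < K := by linarith
  have hKpos : 0 < K := by linarith
  have hsK : 0 < Real.sqrt K := Real.sqrt_pos.mpr hKpos
  obtain ⟨m₁, hm₁⟩ := hLft K (by linarith)
  refine ⟨c₁ * c₂ / Real.sqrt K, by positivity, ?_⟩
  have hlog : ∀ᶠ m : ℕ in atTop, B * (Real.log (K * m ^ 2) + 1) ≤ m := by
    have e1 : ∀ᶠ m : ℕ in atTop, ‖Real.log (m : ℝ)‖ ≤ 1 / (4 * B) * ‖(m : ℝ)‖ :=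
      (Real.isLittleO_log_id_atTop.comp_tendsto tendsto_natCast_atTop_atTop).def (by positivity)
    have e2 : ∀ᶠ m : ℕ in atTop, 2 * (B * (Real.log K + 1)) ≤ (m : ℝ) :=
      tendsto_natCast_atTop_atTop.eventually (eventually_ge_atTop _)
    filter_upwards [e1, e2, eventually_ge_atTop 1] with m g1 g2 g3
    have hm : (0 : ℝ) < m := by exact_mod_cast g3
    rw [Real.norm_eq_abs, Real.norm_eq_abs, abs_of_pos hm] at g1
    have g4 := (le_abs_self _).trans g1
    rw [Real.log_mul hKpos.ne' (by positivity), Real.log_pow]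
    have g5 : B * Real.log m ≤ m / 4 := by
      calc B * Real.log m ≤ B * (1 / (4 * B) * m) := mul_le_mul_of_nonneg_left g4 hB.le
        _ = m / 4 := by field_simp
    push_cast
    linarith
  obtain ⟨m₂, hm₂⟩ := eventually_atTop.mp hlog
  refine ⟨max 1 (max m₁ m₂), fun m hm => ?_⟩
  have hm1 : 1 ≤ m := le_trans (le_max_left _ _) hm
  have hmm1 : m₁ ≤ m := le_trans (le_trans (le_max_left _ _) (le_max_right _ _)) hm
  have hmm2 : m₂ ≤ m := le_trans (le_trans (le_max_right _ _) (le_max_right _ _)) hm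
  have hmpos : (0 : ℝ) < m := by exact_mod_cast hm1
  set h := Real.log (K * (m : ℝ) ^ 2) with hh
  set G := C * Real.sqrt K * (m : ℝ) ^ 2 with hG
  have hhpos : 0 < h := by
    apply Real.log_pos
    have : (1 : ℝ) ≤ (m : ℝ) ^ 2 := one_le_pow₀ (by exact_mod_cast hm1)
    nlinarith
  have hexp : Real.exp (-h / 2) = 1 / (Real.sqrt K * m) := by
    have e1 : Real.exp (-h / 2) = (Real.exp (h / 2))⁻¹ := by
      rw [← Real.exp_neg]; congr 1; ring
    have e2 : Real.exp (h / 2) = Real.sqrt K * m := by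
      have e3 : Real.exp (h / 2) ^ 2 = (Real.sqrt K * m) ^ 2 := by
        rw [← Real.exp_nat_mul, mul_pow, Real.sq_sqrt hKpos.le]
        have : ((2 : ℕ) : ℝ) * (h / 2) = h := by push_cast; ring
        rw [this, hh, Real.exp_log (by positivity)]
      exact (sq_eq_sq₀ (Real.exp_nonneg _) (by positivity)).mp e3
    rw [e1, e2, one_div]
  have hRE : ENNReal.ofReal (c₂ / (Real.sqrt K * m)) ≤
      (Measure.infinitePi fun _ : ℕ => μ) (RE m h A₂) := by
    have := hR h m hhpos (hm₂ m hmm2)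
    rw [hexp, mul_one_div] at this
    exact this
  have hsub : (⋃ n ∈ Finset.Icc m (2 * m), EE n m h A₁ A₂ G) ⊆
      {x | Blk m h (A₁ + A₂) G x} := by
    refine Set.iUnion₂_subset fun n hn => ?_
    rw [Finset.mem_Icc] at hn
    exact EE_subset h A₁ A₂ _ G (by linarith) (by linarith) hn.1 hn.2
  refine le_trans ?_ (measure_mono hsub)
  rw [measure_biUnion_finset]
  · calc ENNReal.ofReal (c₁ * c₂ / Real.sqrt K)
        ≤ ∑ _n ∈ Finset.Icc m (2 * m), ENNReal.ofReal c₁ *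
            ENNReal.ofReal (c₂ / (Real.sqrt K * m)) := by
          rw [Finset.sum_const, Nat.card_Icc, nsmul_eq_mul, ← ENNReal.ofReal_mul hc₁.le,
            ← ENNReal.ofReal_natCast, ← ENNReal.ofReal_mul (by positivity)]
          apply ENNReal.ofReal_le_ofReal
          have e1 : ((2 * m + 1 - m : ℕ) : ℝ) = m + 1 := by
            rw [show 2 * m + 1 - m = m + 1 by omega]; push_cast; ring
          rw [e1]
          have e2 : c₁ * c₂ / Real.sqrt K = m * (c₁ * (c₂ / (Real.sqrt K * m))) := by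
            field_simp
          rw [e2]
          apply mul_le_mul_of_nonneg_right _ (by positivity)
          linarith
      _ ≤ ∑ n ∈ Finset.Icc m (2 * m), (Measure.infinitePi fun _ : ℕ => μ)
            (EE n m h A₁ A₂ G) := by
          refine Finset.sum_le_sum fun n hn => ?_
          rw [Finset.mem_Icc] at hn
          rw [EE_prob]
          exact mul_le_mul' (hm₁ m hmm1 n hn.1 hn.2) hRE
  · intro n _ n' _ hne
    rcases lt_or_gt_of_ne hne with hlt | hlt
    · exact EE_disjoint m h A₁ A₂ G hlt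
    · exact (EE_disjoint m h A₁ A₂ G hlt).symm
  · exact fun n _ => EE_meas n m h A₁ A₂ G

end Pool.Agent.H96.RW.BK
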