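import Mathlib

/-!
# Random walks in random environment and simple random walk: definitions
-/

namespace Pool.Agent.H96.RW

open MeasureTheory ProbabilityTheory Filter Topology
open scoped ENNReal

open Classical in
/-- The walk in the environment `w` started at `x`, driven by the numbers `u n`: from `y` it steps
to `y + 1` if `u n < w y` and to `y - 1` otherwise. -/
noncomputable def path (w : ℤ → ℝ) (x : ℤ) (u : ℕ → ℝ) : ℕ → ℤ
  | 0 => x
  | n + 1 => if u n < w (path w x u n) then path w x u n + 1 else path w x u n - 1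

/-- The uniform law on `[0,1]`. -/
noncomputable def unif : Measure ℝ := volume.restrict (Set.Icc 0 1)

instance : IsProbabilityMeasure unif := ⟨by simp [unif]⟩

/-- The law of the driving numbers of the `d` walks in the environment and of the simple random
walk: all of them are independent and uniform. -/
noncomputable def nz (d : ℕ) : Measure (ℕ → (Fin d → ℝ) × ℝ) :=
  Measure.infinitePi fun _ : ℕ => (Measure.pi fun _ : Fin d => unif).prod unif

instance (d : ℕ) : IsProbabilityMeasure (nz d) := by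
  unfold nz
  infer_instance

/-- A collision at time `n` of the `d` walks in the environment `w` started at `x 0, x 1, ...` and
the simple random walk started at `z`. -/
def Coll {d : ℕ} (w : ℤ → ℝ) (x : Fin d → ℤ) (z : ℤ) (u : ℕ → (Fin d → ℝ) × ℝ) (n : ℕ) : Prop :=
  ∀ j, path w (x j) (fun k => (u k).1 j) n = path (fun _ => 1 / 2) z (fun k => (u k).2) n

/-- The `n`-step transition probabilities. -/
noncomputable def pn (w : ℤ → ℝ) : ℕ → ℤ → ℤ → ℝ
  | 0, x, y => if x = y then 1 else 0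
  | n + 1, x, y => w x * pn w n (x + 1) y + (1 - w x) * pn w n (x - 1) y

/-- The probability not to leave the open interval `(l, r)` in `n` steps. -/
noncomputable def sv (w : ℤ → ℝ) (l r : ℤ) : ℕ → ℤ → ℝ
  | 0, x => if l < x ∧ x < r then 1 else 0
  | n + 1, x => if l < x ∧ x < r then
      w x * sv w l r n (x + 1) + (1 - w x) * sv w l r n (x - 1) else 0

/-- The probability not to hit `b` in `n` steps. -/
noncomputable def hb (w : ℤ → ℝ) (b : ℤ) : ℕ → ℤ → ℝ
  | 0, x => if x = b then 0 else 1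
  | n + 1, x => if x = b then 0 else w x * hb w b n (x + 1) + (1 - w x) * hb w b n (x - 1)

/-- `ρ_x`. -/
noncomputable def rho (w : ℤ → ℝ) (x : ℤ) : ℝ := (1 - w x) / w x

/-- The potential relative to `a`: `V(x) = ∑_{a < i ≤ x} log ρ_i` for `x ≥ a`. -/
noncomputable def pot (w : ℤ → ℝ) (a x : ℤ) : ℝ := ∑ i ∈ Finset.Ioc a x, Real.log (rho w i)

/-- `b` is a good bottom for the starting points of absolute value at most `t`. -/
def GoodV (w : ℤ → ℝ) (c A : ℝ) (t T : ℕ) (b : ℤ) : Prop :=
  (∀ n : ℕ, T ≤ n → n ≤ 2 * T → ∀ y : ℤ, |y| ≤ t → Even (b - y - n) → c ≤ pn w n y b) ∧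
    (|b| : ℝ) + t ≤ A * Real.sqrt T

/-- Partial sums. -/
noncomputable def Sm (x : ℕ → ℝ) (k : ℕ) : ℝ := ∑ i ∈ Finset.range k, x i

/-- The block of length `3m` contains a good valley of depth `h`. -/
def Blk (m : ℕ) (h A G : ℝ) (x : ℕ → ℝ) : Prop :=
  ∃ n r : ℕ, m ≤ n ∧ n ≤ 2 * m ∧ n < r ∧ r ≤ 3 * m ∧
    (∑ i ∈ Finset.range (n + 1), Real.exp (-(Sm x i - Sm x n)) ≤ A) ∧
    (∃ i < n, h ≤ Sm x i - Sm x n) ∧
    (∑ i ∈ Finset.range n, ∑ j ∈ Finset.range (i + 1), Real.exp (Sm x i - Sm x j) ≤ G) ∧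
    h ≤ Sm x r - Sm x n ∧
    (∑ i ∈ Finset.Icc n r, Real.exp (-(Sm x i - Sm x n)) ≤ A)

/-- The mean time to go from `i` to `i + 1`. -/
noncomputable def Wf (w : ℤ → ℝ) (i : ℤ) : ℝ := ∑' j : ℕ, 1 / w (i - j) * Real.exp (pot w (i - j) i)

end Pool.Agent.H96.RW
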