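import Pool.Agent.H96.RW.Defs

/-! The return probability of a reversible killed walk (letter DB). -/

namespace Pool.Agent.H96.RW

namespace Ret

open Finset

/-- the kernel killed outside `(l, r)` -/
noncomputable def kq (w : ℤ → ℝ) (l r : ℤ) : ℕ → ℤ → ℤ → ℝ
  | 0, x, y => if l < x ∧ x < r then (if x = y then 1 else 0) else 0
  | n + 1, x, y => if l < x ∧ x < r then
      w x * kq w l r n (x + 1) y + (1 - w x) * kq w l r n (x - 1) y else 0

theorem kq_out (w : ℤ → ℝ) (l r : ℤ) (n : ℕ) (x y : ℤ) (h : ¬ (l < x ∧ x < r)) :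
    kq w l r n x y = 0 := by
  cases n with
  | zero => simp [kq, h]
  | succ n => simp [kq, h]

theorem kq_nonneg (w : ℤ → ℝ) (hw : ∀ x, 0 < w x ∧ w x < 1) (l r : ℤ) (n : ℕ) (x y : ℤ) :
    0 ≤ kq w l r n x y := by
  induction n generalizing x with
  | zero =>
    unfold kq
    split_ifs <;> norm_num
  | succ n ih =>
    unfold kq
    split_ifs with h
    · have h1 := hw x
      have h2 := mul_nonneg h1.1.le (ih (x + 1))
      have h3 := mul_nonneg (sub_nonneg.2 h1.2.le) (ih (x - 1))
      linarith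
    · exact le_rfl

theorem pn_nonneg' (w : ℤ → ℝ) (hw : ∀ x, 0 < w x ∧ w x < 1) (n : ℕ) (x y : ℤ) :
    0 ≤ pn w n x y := by
  induction n generalizing x with
  | zero =>
    unfold pn
    split_ifs <;> norm_num
  | succ n ih =>
    unfold pn
    have h1 := hw x
    have h2 := mul_nonneg h1.1.le (ih (x + 1))
    have h3 := mul_nonneg (sub_nonneg.2 h1.2.le) (ih (x - 1))
    linarith

theorem kq_le (w : ℤ → ℝ) (hw : ∀ x, 0 < w x ∧ w x < 1) (l r : ℤ) (n : ℕ) (x y : ℤ) :
    kq w l r n x y ≤ pn w n x y := by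
  induction n generalizing x with
  | zero =>
    unfold kq pn
    split_ifs <;> norm_num
  | succ n ih =>
    by_cases h : l < x ∧ x < r
    · have h1 := hw x
      have h2 := mul_le_mul_of_nonneg_left (ih (x + 1)) h1.1.le
      have h3 := mul_le_mul_of_nonneg_left (ih (x - 1)) (sub_nonneg.2 h1.2.le)
      unfold kq pn
      rw [if_pos h]
      linarith
    · rw [kq_out w l r _ x y h]
      exact pn_nonneg' w hw _ _ _

theorem sv_eq (w : ℤ → ℝ) (l r : ℤ) (n : ℕ) (x : ℤ) :
    sv w l r n x = ∑ y ∈ Ioo l r, kq w l r n x y := by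
  induction n generalizing x with
  | zero =>
    unfold sv kq
    by_cases h : l < x ∧ x < r
    · simp only [h, and_self, if_true]
      rw [sum_ite_eq, if_pos (mem_Ioo.2 h)]
    · simp only [h, if_false, sum_const_zero]
  | succ n ih =>
    unfold sv
    by_cases h : l < x ∧ x < r
    · rw [if_pos h, ih, ih, mul_sum, mul_sum, ← sum_add_distrib]
      refine sum_congr rfl fun y _ => ?_
      rw [kq, if_pos h]
    · rw [if_neg h]
      exact (sum_eq_zero fun y _ => kq_out w l r _ x y h).symm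

theorem semi (w : ℤ → ℝ) (l r : ℤ) (m n : ℕ) (x z : ℤ) :
    kq w l r (m + n) x z = ∑ y ∈ Ioo l r, kq w l r m x y * kq w l r n y z := by
  induction m generalizing x with
  | zero =>
    rw [Nat.zero_add]
    by_cases h : l < x ∧ x < r
    · have h1 : ∀ y ∈ Ioo l r, kq w l r 0 x y * kq w l r n y z =
          if x = y then kq w l r n y z else 0 := by
        intro y _
        unfold kq
        rw [if_pos h]
        split_ifs <;> simp
      rw [sum_congr rfl h1, sum_ite_eq, if_pos (mem_Ioo.2 h)]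
    · rw [kq_out w l r n x z h]
      refine (sum_eq_zero fun y _ => ?_).symm
      rw [kq_out w l r 0 x y h, zero_mul]
  | succ m ih =>
    rw [show m + 1 + n = (m + n) + 1 by ring]
    by_cases h : l < x ∧ x < r
    · rw [kq, if_pos h, ih, ih, mul_sum, mul_sum, ← sum_add_distrib]
      refine sum_congr rfl fun y _ => ?_
      rw [kq, if_pos h]
      ring
    · rw [kq_out w l r _ x z h]
      refine (sum_eq_zero fun y _ => ?_).symm
      rw [kq_out w l r _ x y h, zero_mul]

theorem rev1 (w : ℤ → ℝ) (l r : ℤ) (q : ℤ → ℝ)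
    (hrev : ∀ x, q x * w x = q (x + 1) * (1 - w (x + 1))) (x y : ℤ) :
    q x * kq w l r 1 x y = q y * kq w l r 1 y x := by
  have e : ∀ a b : ℤ, kq w l r 1 a b = if (l < a ∧ a < r) ∧ (l < b ∧ b < r) then
      (if a + 1 = b then w a else if a - 1 = b then 1 - w a else 0) else 0 := by
    intro a b
    simp only [kq]
    by_cases ha : l < a ∧ a < r
    · by_cases h1 : a + 1 = b
      · subst h1
        have h2 : ¬ (a - 1 = a + 1) := by omega
        by_cases hb : l < a + 1 ∧ a + 1 < r
        · simp [ha, hb, h2]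
        · simp [ha, hb, h2]
      · by_cases h2 : a - 1 = b
        · subst h2
          by_cases hb : l < a - 1 ∧ a - 1 < r
          · simp [ha, hb, h1]
          · simp [ha, hb, h1]
        · simp [ha, h1, h2]
    · simp [ha]
  rw [e, e]
  by_cases hx : l < x ∧ x < r
  · by_cases hy : l < y ∧ y < r
    · have hxy : (l < x ∧ x < r) ∧ (l < y ∧ y < r) := ⟨hx, hy⟩
      have hyx : (l < y ∧ y < r) ∧ (l < x ∧ x < r) := ⟨hy, hx⟩
      rw [if_pos hxy, if_pos hyx]
      by_cases h1 : x + 1 = y
      · subst h1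
        have h2 : ¬ (x + 1 + 1 = x) := by omega
        have h3 : x + 1 - 1 = x := by ring
        rw [if_pos rfl, if_neg h2, if_pos h3]
        exact hrev x
      · by_cases h2 : x - 1 = y
        · have h3 : x = y + 1 := by omega
          subst h3
          have h4 : ¬ (y + 1 + 1 = y) := by omega
          rw [if_neg h4, if_pos (by ring), if_pos rfl]
          exact (hrev y).symm
        · have h3 : ¬ (y + 1 = x) := by omega
          have h4 : ¬ (y - 1 = x) := by omega
          rw [if_neg h1, if_neg h2, if_neg h3, if_neg h4]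
          ring
    · have hxy : ¬ ((l < x ∧ x < r) ∧ (l < y ∧ y < r)) := fun h => hy h.2
      have hyx : ¬ ((l < y ∧ y < r) ∧ (l < x ∧ x < r)) := fun h => hy h.1
      rw [if_neg hxy, if_neg hyx]
      ring
  · have hxy : ¬ ((l < x ∧ x < r) ∧ (l < y ∧ y < r)) := fun h => hx h.1
    have hyx : ¬ ((l < y ∧ y < r) ∧ (l < x ∧ x < r)) := fun h => hx h.2
    rw [if_neg hxy, if_neg hyx]
    ring

theorem rev (w : ℤ → ℝ) (l r : ℤ) (q : ℤ → ℝ)
    (hrev : ∀ x, q x * w x = q (x + 1) * (1 - w (x + 1))) (n : ℕ) (x y : ℤ) :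
    q x * kq w l r n x y = q y * kq w l r n y x := by
  induction n generalizing x y with
  | zero =>
    unfold kq
    by_cases h : x = y
    · subst h; rfl
    · have h' : ¬ y = x := fun h' => h h'.symm
      simp [h, h']
  | succ n ih =>
    rw [semi w l r n 1 x y, Nat.add_comm n 1, semi w l r 1 n y x, mul_sum, mul_sum]
    refine sum_congr rfl fun z _ => ?_
    calc q x * (kq w l r n x z * kq w l r 1 z y) = (q x * kq w l r n x z) * kq w l r 1 z y := by
          ring
      _ = kq w l r n z x * (q z * kq w l r 1 z y) := by rw [ih]; ring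
      _ = q y * (kq w l r 1 y z * kq w l r n z x) := by rw [rev1 w l r q hrev z y]; ring

end Ret

open Finset in
/-- (DB) -/
theorem ret (w : ℤ → ℝ) (hw : ∀ x, 0 < w x ∧ w x < 1) (l r b : ℤ) (hl : l < b) (hr : b < r)
    (q : ℤ → ℝ) (hq : ∀ x, 0 < q x) (hrev : ∀ x, q x * w x = q (x + 1) * (1 - w (x + 1)))
    (n : ℕ) : q b * sv w l r n b ^ 2 ≤ (∑ x ∈ Finset.Ioo l r, q x) * pn w (2 * n) b b := by
  have h1 : (∑ y ∈ Ioo l r, Ret.kq w l r n b y) ^ 2 ≤ (∑ y ∈ Ioo l r, q y) *
      ∑ y ∈ Ioo l r, (Ret.kq w l r n b y * Ret.kq w l r n y b) / q b := by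
    apply sum_sq_le_sum_mul_sum_of_sq_eq_mul
    · exact fun y _ => (hq y).le
    · exact fun y _ => div_nonneg (mul_nonneg (Ret.kq_nonneg w hw l r n b y)
        (Ret.kq_nonneg w hw l r n y b)) (hq b).le
    · intro y _
      have h2 := Ret.rev w l r q hrev n b y
      have h3 := (hq b).ne'
      field_simp
      linear_combination (Ret.kq w l r n b y) * h2
  rw [← sum_div, ← Ret.semi w l r n n b b, ← Ret.sv_eq, ← two_mul] at h1
  have h4 := Ret.kq_le w hw l r (2 * n) b b
  have h5 : 0 ≤ ∑ y ∈ Ioo l r, q y := sum_nonneg fun y _ => (hq y).le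
  calc q b * sv w l r n b ^ 2 ≤ q b * ((∑ y ∈ Ioo l r, q y) * (Ret.kq w l r (2 * n) b b / q b)) :=
        mul_le_mul_of_nonneg_left h1 (hq b).le
    _ = (∑ y ∈ Ioo l r, q y) * Ret.kq w l r (2 * n) b b := by
        have h3 := (hq b).ne'
        field_simp
    _ ≤ _ := mul_le_mul_of_nonneg_left h4 h5

end Pool.Agent.H96.RW
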