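import Pool.Agent.H96.RW.Defs

/-!
# Survival in an interval
-/

namespace Pool.Agent.H96.RW

theorem sv_out (w : ℤ → ℝ) (l r : ℤ) (n : ℕ) (x : ℤ) (h : ¬ (l < x ∧ x < r)) :
    sv w l r n x = 0 := by
  cases n with
  | zero => simp only [sv]; rw [if_neg h]
  | succ n => simp only [sv]; rw [if_neg h]

theorem surv (w : ℤ → ℝ) (hw : ∀ x, 0 ≤ w x ∧ w x ≤ 1) (l r : ℤ) (u : ℤ → ℝ) (γ : ℝ)
    (hγ : 0 ≤ γ) (hu : ∀ x, 0 ≤ u x) (hul : 1 ≤ u l) (hur : 1 ≤ u r)
    (hstep : ∀ x, l < x → x < r → w x * u (x + 1) + (1 - w x) * u (x - 1) ≤ u x + γ)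
    (n : ℕ) (x : ℤ) (hl : l < x) (hr : x < r) : 1 - u x - γ * n ≤ sv w l r n x := by
  have main : ∀ n : ℕ, ∀ x : ℤ, l ≤ x → x ≤ r → 1 - u x - γ * n ≤ sv w l r n x := by
    intro n
    induction n with
    | zero =>
      intro x h1 h2
      rcases eq_or_lt_of_le h1 with e | e
      · subst e
        rw [sv_out w l r 0 l (fun h => lt_irrefl _ h.1)]
        push_cast; linarith
      · rcases eq_or_lt_of_le h2 with e' | e'
        · subst e'
          rw [sv_out w l x 0 x (fun h => lt_irrefl _ h.2)]
          push_cast; linarith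
        · simp only [sv]
          rw [if_pos ⟨e, e'⟩]
          push_cast
          linarith [hu x]
    | succ n ih =>
      intro x h1 h2
      have hn : 0 ≤ γ * ((n + 1 : ℕ) : ℝ) := by positivity
      rcases eq_or_lt_of_le h1 with e | e
      · subst e
        rw [sv_out w l r (n + 1) l (fun h => lt_irrefl _ h.1)]
        linarith
      · rcases eq_or_lt_of_le h2 with e' | e'
        · subst e'
          rw [sv_out w l x (n + 1) x (fun h => lt_irrefl _ h.2)]
          linarith
        · simp only [sv]
          rw [if_pos ⟨e, e'⟩]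
          have i1 := ih (x + 1) (by omega) (by omega)
          have i2 := ih (x - 1) (by omega) (by omega)
          have hs := hstep x e e'
          have a1 : w x * (1 - u (x + 1) - γ * n) ≤ w x * sv w l r n (x + 1) :=
            mul_le_mul_of_nonneg_left i1 (hw x).1
          have a2 : (1 - w x) * (1 - u (x - 1) - γ * n) ≤ (1 - w x) * sv w l r n (x - 1) :=
            mul_le_mul_of_nonneg_left i2 (by linarith [(hw x).2])
          push_cast
          nlinarith
  exact main n x hl.le hr.le

end Pool.Agent.H96.RW
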