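import Pool.Agent.H96.RW.Defs
import Pool.Agent.H96.RW.Surv
import Pool.Agent.H96.RW.Ret

/-! (DD): valleys. -/

set_option autoImplicit false

namespace Pool.Agent.H96.RW

open MeasureTheory ProbabilityTheory Filter Topology
open scoped ENNReal

namespace Vly

/-- the almost harmonic function -/
noncomputable def uu (V : ℤ → ℝ) (l b r x : ℤ) : ℝ :=
  if b ≤ x then (∑ i ∈ Finset.Ico b x, Real.exp (V i)) / ∑ i ∈ Finset.Ico b r, Real.exp (V i)
  else (∑ i ∈ Finset.Ico x b, Real.exp (V i)) / ∑ i ∈ Finset.Ico l b, Real.exp (V i)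

lemma sum_top (f : ℤ → ℝ) {b x : ℤ} (h : b ≤ x) :
    ∑ i ∈ Finset.Ico b (x + 1), f i = ∑ i ∈ Finset.Ico b x, f i + f x := by
  have h1 : Finset.Ico b (x + 1) = insert x (Finset.Ico b x) := by
    ext i
    simp only [Finset.mem_Ico, Finset.mem_insert]
    omega
  rw [h1, Finset.sum_insert (by simp)]
  ring

lemma sum_bot (f : ℤ → ℝ) {b x : ℤ} (h : x < b) :
    ∑ i ∈ Finset.Ico x b, f i = ∑ i ∈ Finset.Ico (x + 1) b, f i + f x := by
  have h1 : Finset.Ico x b = insert x (Finset.Ico (x + 1) b) := by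
    ext i
    simp only [Finset.mem_Ico, Finset.mem_insert]
    omega
  rw [h1, Finset.sum_insert (by simp)]
  ring

lemma w_eq (V : ℤ → ℝ) (x : ℤ) : 1 / (1 + Real.exp (V x - V (x - 1))) =
    Real.exp (-V x) / (Real.exp (-V (x - 1)) + Real.exp (-V x)) := by
  have h1 : Real.exp (V x - V (x - 1)) = Real.exp (-V (x - 1)) / Real.exp (-V x) := by
    rw [← Real.exp_sub]
    congr 1
    ring
  have h2 := Real.exp_pos (-V x)
  have h3 := Real.exp_pos (-V (x - 1))
  rw [h1]
  field_simp
  ring

end Vly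

open Vly in
theorem valley (V : ℤ → ℝ) (w : ℤ → ℝ) (hw : ∀ x, w x = 1 / (1 + Real.exp (V x - V (x - 1))))
    (l b r : ℤ) (hl : l < b) (hr : b < r) (h R A : ℝ) (h0 : 0 ≤ h) (hhl : h ≤ V l - V b)
    (hhr : h ≤ V (r - 1) - V b) (hR : Real.exp (V (b - 1) - V b) ≤ R)
    (hA : ∑ x ∈ Finset.Ioo l r, Real.exp (-(V x - V b)) ≤ A) (j : ℕ)
    (hj : (1 + R) * Real.exp (-h) * j ≤ 1 / 2) : 1 / (4 * (2 * A + 1)) ≤ pn w (2 * j) b b := by
  obtain ⟨q, hqdef⟩ : ∃ q : ℤ → ℝ, q = fun x => Real.exp (-V (x - 1)) + Real.exp (-V x) :=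
    ⟨_, rfl⟩
  have hq : ∀ x, 0 < q x := fun x => by rw [hqdef]; positivity
  have hqw : ∀ x, q x * w x = Real.exp (-V x) := fun x => by
    have h1 := hq x
    rw [hw x, w_eq V x]
    rw [hqdef] at h1 ⊢
    simp only at h1 ⊢
    field_simp
  have hqw' : ∀ x, q x * (1 - w x) = Real.exp (-V (x - 1)) := fun x => by
    have h1 : q x * (1 - w x) = q x - q x * w x := by ring
    rw [h1, hqw x, hqdef]
    ring
  have hw0 : ∀ x, 0 < w x ∧ w x < 1 := fun x => by
    have h1 := Real.exp_pos (V x - V (x - 1))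
    rw [hw x]
    refine ⟨by positivity, ?_⟩
    rw [div_lt_one (by positivity)]
    linarith
  have hR0 : 0 < R := (Real.exp_pos _).trans_le hR
  have hγ : 0 ≤ (1 + R) * Real.exp (-h) := by positivity
  -- the sums
  obtain ⟨Sr, hSr⟩ : ∃ Sr, Sr = ∑ i ∈ Finset.Ico b r, Real.exp (V i) := ⟨_, rfl⟩
  obtain ⟨Sl, hSl⟩ : ∃ Sl, Sl = ∑ i ∈ Finset.Ico l b, Real.exp (V i) := ⟨_, rfl⟩
  have hSr1 : Real.exp (V (r - 1)) ≤ Sr := by
    rw [hSr]
    exact Finset.single_le_sum (f := fun i => Real.exp (V i)) (fun i _ => (Real.exp_pos _).le)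
      (Finset.mem_Ico.2 ⟨by omega, by omega⟩)
  have hSl1 : Real.exp (V l) ≤ Sl := by
    rw [hSl]
    exact Finset.single_le_sum (f := fun i => Real.exp (V i)) (fun i _ => (Real.exp_pos _).le)
      (Finset.mem_Ico.2 ⟨le_rfl, hl⟩)
  have hSr0 : 0 < Sr := (Real.exp_pos _).trans_le hSr1
  have hSl0 : 0 < Sl := (Real.exp_pos _).trans_le hSl1
  have hu : ∀ x, 0 ≤ uu V l b r x := fun x => by
    unfold uu
    split_ifs
    · exact div_nonneg (Finset.sum_nonneg fun i _ => (Real.exp_pos _).le) (hSr ▸ hSr0.le)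
    · exact div_nonneg (Finset.sum_nonneg fun i _ => (Real.exp_pos _).le) (hSl ▸ hSl0.le)
  have hur : ∀ x, b ≤ x → uu V l b r x = (∑ i ∈ Finset.Ico b x, Real.exp (V i)) / Sr :=
    fun x hx => by
    unfold uu
    rw [if_pos hx, hSr]
  have hul : ∀ x, x ≤ b → uu V l b r x = (∑ i ∈ Finset.Ico x b, Real.exp (V i)) / Sl :=
    fun x hx => by
    rcases hx.lt_or_eq with h1 | h1
    · unfold uu
      rw [if_neg (by omega), hSl]
    · rw [h1]
      unfold uu
      simp
  have hub : uu V l b r b = 0 := by rw [hur b le_rfl]; simp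
  have hstep : ∀ x, l < x → x < r → w x * uu V l b r (x + 1) + (1 - w x) * uu V l b r (x - 1) ≤
      uu V l b r x + (1 + R) * Real.exp (-h) := by
    intro x hlx hxr
    -- detailed balance
    have hbal : w x * Real.exp (V x) = (1 - w x) * Real.exp (V (x - 1)) := by
      have h1 := hqw x
      have h2 := hqw' x
      have h3 : q x * (w x * Real.exp (V x)) = q x * ((1 - w x) * Real.exp (V (x - 1))) := by
        rw [← mul_assoc, h1, ← mul_assoc, h2, ← Real.exp_add, ← Real.exp_add]
        simp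
      exact mul_left_cancel₀ (hq x).ne' h3
    rcases lt_trichotomy x b with hxb | hxb | hxb
    · have e1 := hul x hxb.le
      have e2 := hul (x + 1) (by omega)
      have e3 := hul (x - 1) (by omega)
      have s1 := sum_bot (fun i => Real.exp (V i)) hxb
      have s2 := sum_bot (fun i => Real.exp (V i)) (show x - 1 < b by omega)
      rw [show x - 1 + 1 = x by ring] at s2
      have h3 : w x * uu V l b r (x + 1) + (1 - w x) * uu V l b r (x - 1) = uu V l b r x := by
        rw [e1, e2, e3, s2]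
        have h4 : ∑ i ∈ Finset.Ico (x + 1) b, Real.exp (V i) =
            ∑ i ∈ Finset.Ico x b, Real.exp (V i) - Real.exp (V x) := by linarith
        rw [h4]
        field_simp
        linear_combination -hbal
      linarith
    · subst hxb
      rw [hub]
      have e2 := hur (x + 1) (by omega)
      have e3 := hul (x - 1) (by omega)
      have s1 := sum_top (fun i => Real.exp (V i)) (le_refl x)
      have s2 := sum_bot (fun i => Real.exp (V i)) (show x - 1 < x by omega)
      rw [show x - 1 + 1 = x by ring] at s2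
      simp only [Finset.Ico_self, Finset.sum_empty, zero_add] at s1 s2
      rw [s1] at e2
      rw [s2] at e3
      have b1 : uu V l x r (x + 1) ≤ Real.exp (-h) := by
        rw [e2, div_le_iff₀ hSr0]
        calc Real.exp (V x) ≤ Real.exp (-h) * Real.exp (V (r - 1)) := by
              rw [← Real.exp_add]
              exact Real.exp_le_exp.2 (by linarith)
          _ ≤ Real.exp (-h) * Sr := by gcongr
      have b2 : uu V l x r (x - 1) ≤ R * Real.exp (-h) := by
        rw [e3, div_le_iff₀ hSl0]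
        calc Real.exp (V (x - 1)) = Real.exp (V (x - 1) - V x) * Real.exp (V x) := by
              rw [← Real.exp_add]
              congr 1
              ring
          _ ≤ R * (Real.exp (-h) * Real.exp (V l)) := by
              gcongr
              rw [← Real.exp_add]
              exact Real.exp_le_exp.2 (by linarith)
          _ = R * Real.exp (-h) * Real.exp (V l) := by ring
          _ ≤ R * Real.exp (-h) * Sl := by gcongr
      have c1 : w x * uu V l x r (x + 1) ≤ 1 * Real.exp (-h) := by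
        have := (hw0 x).2.le
        have := (hw0 x).1.le
        have := hu (x + 1)
        gcongr
      have c2 : (1 - w x) * uu V l x r (x - 1) ≤ 1 * (R * Real.exp (-h)) := by
        have h5 : 1 - w x ≤ 1 := by linarith [(hw0 x).1]
        have := hu (x - 1)
        gcongr
      linarith
    · have e1 := hur x hxb.le
      have e2 := hur (x + 1) (by omega)
      have e3 := hur (x - 1) (by omega)
      have s1 := sum_top (fun i => Real.exp (V i)) hxb.le
      have s2 := sum_top (fun i => Real.exp (V i)) (show b ≤ x - 1 by omega)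
      rw [show x - 1 + 1 = x by ring] at s2
      have h3 : w x * uu V l b r (x + 1) + (1 - w x) * uu V l b r (x - 1) = uu V l b r x := by
        rw [e1, e2, e3, s1]
        have h4 : ∑ i ∈ Finset.Ico b (x - 1), Real.exp (V i) =
            ∑ i ∈ Finset.Ico b x, Real.exp (V i) - Real.exp (V (x - 1)) := by linarith
        rw [h4]
        field_simp
        linear_combination hbal
      linarith
  have hul1 : 1 ≤ uu V l b r l := by
    rw [hul l hl.le, ← hSl, div_self hSl0.ne']
  have hur1 : 1 ≤ uu V l b r r := by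
    rw [hur r hr.le, ← hSr, div_self hSr0.ne']
  have hsv := surv w (fun x => ⟨(hw0 x).1.le, (hw0 x).2.le⟩) l r (uu V l b r)
    ((1 + R) * Real.exp (-h)) hγ hu hul1 hur1 hstep j b hl hr
  rw [hub] at hsv
  have hsv2 : 1 / 2 ≤ sv w l r j b := by linarith
  have hrt := ret w hw0 l r b hl hr q hq (fun x => by
    rw [hqw x, hqw' (x + 1), add_sub_cancel_right]) j
  have hqb : Real.exp (-V b) ≤ q b := by
    rw [hqdef]
    have := Real.exp_pos (-V (b - 1))
    simp only
    linarith
  have hsum : ∑ x ∈ Finset.Ioo l r, q x ≤ (2 * A + 1) * Real.exp (-V b) := by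
    have h1 : ∑ x ∈ Finset.Ioo l r, Real.exp (-V x) ≤ A * Real.exp (-V b) := by
      have h2 : ∑ x ∈ Finset.Ioo l r, Real.exp (-V x) =
          (∑ x ∈ Finset.Ioo l r, Real.exp (-(V x - V b))) * Real.exp (-V b) := by
        rw [Finset.sum_mul]
        refine Finset.sum_congr rfl fun x _ => ?_
        rw [← Real.exp_add]
        congr 1
        ring
      rw [h2]
      gcongr
    have h3 : ∑ x ∈ Finset.Ioo l r, Real.exp (-V (x - 1)) ≤
        Real.exp (-V l) + ∑ x ∈ Finset.Ioo l r, Real.exp (-V x) := by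
      have h4 : ∑ x ∈ Finset.Ioo l r, Real.exp (-V (x - 1)) =
          ∑ x ∈ Finset.Ico l (r - 1), Real.exp (-V x) := by
        refine Finset.sum_bij (fun x _ => x - 1) (fun x hx => ?_) (fun x _ y _ hxy => ?_)
          (fun y hy => ⟨y + 1, ?_, ?_⟩) (fun x _ => rfl)
        · rw [Finset.mem_Ioo] at hx
          rw [Finset.mem_Ico]
          omega
        · have h8 : x - 1 = y - 1 := hxy
          omega
        · rw [Finset.mem_Ico] at hy
          rw [Finset.mem_Ioo]
          omega
        · simp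
      rw [h4]
      have h5 : Finset.Ico l (r - 1) ⊆ insert l (Finset.Ioo l r) := by
        intro x hx
        rw [Finset.mem_Ico] at hx
        rw [Finset.mem_insert, Finset.mem_Ioo]
        omega
      refine (Finset.sum_le_sum_of_subset_of_nonneg h5 fun _ _ _ => (Real.exp_pos _).le).trans ?_
      rw [Finset.sum_insert (by simp)]
    have h6 : Real.exp (-V l) ≤ Real.exp (-V b) := Real.exp_le_exp.2 (by linarith)
    have h7 : ∑ x ∈ Finset.Ioo l r, q x = ∑ x ∈ Finset.Ioo l r, Real.exp (-V (x - 1)) +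
        ∑ x ∈ Finset.Ioo l r, Real.exp (-V x) := by
      rw [hqdef, Finset.sum_add_distrib]
    rw [h7]
    linarith
  have hAnn : 0 ≤ A := (Finset.sum_nonneg fun x _ => (Real.exp_pos _).le).trans hA
  have hE := Real.exp_pos (-V b)
  have hpn : 0 ≤ pn w (2 * j) b b := by
    by_contra hneg
    push Not at hneg
    have h1 : 0 < ∑ x ∈ Finset.Ioo l r, q x :=
      Finset.sum_pos (fun x _ => hq x) ⟨b, Finset.mem_Ioo.2 ⟨hl, hr⟩⟩
    have h2 : (∑ x ∈ Finset.Ioo l r, q x) * pn w (2 * j) b b < 0 := mul_neg_of_pos_of_neg h1 hneg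
    have h3 : 0 ≤ q b * sv w l r j b ^ 2 := mul_nonneg (hq b).le (sq_nonneg _)
    linarith
  have hfin : Real.exp (-V b) * (1 / 4) ≤ (2 * A + 1) * Real.exp (-V b) * pn w (2 * j) b b := by
    have h1 : (1 / 2 : ℝ) ^ 2 ≤ sv w l r j b ^ 2 := pow_le_pow_left₀ (by norm_num) hsv2 2
    calc Real.exp (-V b) * (1 / 4) = Real.exp (-V b) * (1 / 2) ^ 2 := by norm_num
      _ ≤ q b * sv w l r j b ^ 2 := by
          apply mul_le_mul hqb h1 (by norm_num) (hq b).le
      _ ≤ _ := hrt
      _ ≤ _ := by gcongr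
  rw [div_le_iff₀ (by positivity)]
  have h8 : 1 / 4 ≤ (2 * A + 1) * pn w (2 * j) b b := by
    have h9 : Real.exp (-V b) * (1 / 4) ≤ Real.exp (-V b) * ((2 * A + 1) * pn w (2 * j) b b) := by
      linarith
    exact le_of_mul_le_mul_left h9 hE
  linarith

end Pool.Agent.H96.RW
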