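import Pool.Agent.H96.RW.Hit
import Pool.Agent.H96.RW.Valley

/-!
# The block contains a good bottom (EG)
-/

namespace Pool.Agent.H96.RW

open MeasureTheory ProbabilityTheory Filter Topology
open scoped ENNReal

/-! ### Sums over intervals of integers -/

theorem gd_left (f : ℤ → ℝ) {x b : ℤ} (h : x < b) :
    ∑ i ∈ Finset.Ico x b, f i = f x + ∑ i ∈ Finset.Ico (x + 1) b, f i := by
  have : Finset.Ico x b = insert x (Finset.Ico (x + 1) b) := by
    ext i
    simp only [Finset.mem_Ico, Finset.mem_insert]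
    omega
  rw [this, Finset.sum_insert (by simp)]

theorem gd_ext (f : ℤ → ℝ) (a : ℕ) (k : ℕ) :
    ∑ i ∈ Finset.Ico (-a : ℤ) (a + 1 + k), f i =
      ∑ i ∈ Finset.Icc (-a : ℤ) a, f i + ∑ j ∈ Finset.range k, f (a + 1 + j) := by
  induction k with
  | zero =>
    have : Finset.Ico (-a : ℤ) (a + 1 + (0 : ℕ)) = Finset.Icc (-a : ℤ) a := by
      ext i
      simp only [Finset.mem_Ico, Finset.mem_Icc]
      push_cast
      omega
    rw [this]
    simp
  | succ k ih =>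
    have : Finset.Ico (-a : ℤ) (a + 1 + ((k + 1 : ℕ) : ℤ)) =
        insert ((a : ℤ) + 1 + k) (Finset.Ico (-a : ℤ) (a + 1 + k)) := by
      ext i
      simp only [Finset.mem_Ico, Finset.mem_insert]
      push_cast
      omega
    rw [this, Finset.sum_insert (by simp), ih, Finset.sum_range_succ]
    ring

theorem pot_right (w : ℤ → ℝ) {a x : ℤ} (h : a < x) :
    pot w a x = pot w a (x - 1) + Real.log (rho w x) := by
  unfold pot
  have : Finset.Ioc a x = insert x (Finset.Ioc a (x - 1)) := by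
    ext i
    simp only [Finset.mem_Ioc, Finset.mem_insert]
    omega
  rw [this, Finset.sum_insert (by simp), add_comm]

theorem pot_left (w : ℤ → ℝ) {a x : ℤ} (h : x ≤ a) :
    pot w (x - 1) a = Real.log (rho w x) + pot w x a := by
  unfold pot
  have : Finset.Ioc (x - 1) a = insert x (Finset.Ioc x a) := by
    ext i
    simp only [Finset.mem_Ioc, Finset.mem_insert]
    omega
  rw [this, Finset.sum_insert (by simp)]

theorem pot_zero (w : ℤ → ℝ) {a x : ℤ} (h : x ≤ a) : pot w a x = 0 := by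
  unfold pot
  rw [Finset.Ioc_eq_empty (by omega), Finset.sum_empty]

/-- the potential on all of `ℤ` -/
noncomputable def gV (w : ℤ → ℝ) (a x : ℤ) : ℝ := pot w a x - pot w x a

theorem gV_step (w : ℤ → ℝ) (a x : ℤ) : gV w a x - gV w a (x - 1) = Real.log (rho w x) := by
  unfold gV
  rcases lt_or_ge a x with h | h
  · rw [pot_right w h, pot_zero w h.le, pot_zero w (by omega : a ≤ x - 1)]
    ring
  · rw [pot_left w h, pot_zero w h, pot_zero w (by omega : x - 1 ≤ a)]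
    ring

theorem pot_Sm (w : ℤ → ℝ) (a k : ℕ) :
    pot w a (a + k) = Sm (fun i : ℕ => Real.log (rho w (a + 1 + i))) k := by
  induction k with
  | zero => simp [pot, Sm]
  | succ k ih =>
    rw [pot_right w (by push_cast; omega)]
    have e : (a : ℤ) + ((k + 1 : ℕ) : ℤ) - 1 = a + k := by push_cast; ring
    have e' : (a : ℤ) + ((k + 1 : ℕ) : ℤ) = a + 1 + k := by push_cast; ring
    rw [e, ih, e']
    unfold Sm
    rw [Finset.sum_range_succ]

theorem gV_Sm (w : ℤ → ℝ) (a k : ℕ) :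
    gV w a (a + k) = Sm (fun i : ℕ => Real.log (rho w (a + 1 + i))) k := by
  unfold gV
  rw [pot_Sm, pot_zero w (by omega : (a : ℤ) ≤ a + k), sub_zero]

section

variable {ε : ℝ} (hε : 0 < ε) (hε2 : ε < 1 / 2) {w : ℤ → ℝ} (hw : ∀ x, ε ≤ w x ∧ w x ≤ 1 - ε)

include hε hw

theorem gd_rho (x : ℤ) : 0 < rho w x := by
  unfold rho
  obtain ⟨h1, h2⟩ := hw x
  exact div_pos (by linarith) (by linarith)

theorem gd_w (a x : ℤ) : w x = 1 / (1 + Real.exp (gV w a x - gV w a (x - 1))) := by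
  obtain ⟨h1, h2⟩ := hw x
  rw [gV_step, Real.exp_log (gd_rho hε hw x)]
  unfold rho
  have : w x ≠ 0 := by linarith
  field_simp
  ring

theorem Wf_nonneg (i : ℤ) : 0 ≤ Wf w i := by
  unfold Wf
  refine tsum_nonneg fun j => ?_
  obtain ⟨h1, -⟩ := hw (i - j)
  have : 0 < w (i - j) := by linarith
  positivity

theorem Wf_rec (hsum : ∀ i : ℤ, Summable fun j : ℕ => 1 / w (i - j) * Real.exp (pot w (i - j) i))
    (i : ℤ) : Wf w i = 1 / w i + rho w i * Wf w (i - 1) := by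
  unfold Wf
  rw [(hsum i).tsum_eq_zero_add, ← tsum_mul_left]
  congr 1
  · rw [pot_zero w (by simp)]
    simp
  · refine tsum_congr fun j => ?_
    have e : i - ((j + 1 : ℕ) : ℤ) = i - 1 - j := by push_cast; ring
    rw [e, pot_right w (by omega : i - 1 - j < i), Real.exp_add,
      Real.exp_log (gd_rho hε hw i)]
    ring

theorem Wf_bound (hsum : ∀ i : ℤ, Summable fun j : ℕ => 1 / w (i - j) * Real.exp (pot w (i - j) i))
    (a k : ℕ) : Wf w (a + k) ≤
      1 / ε * ∑ j ∈ Finset.range (k + 1), Real.exp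
        (Sm (fun i : ℕ => Real.log (rho w (a + 1 + i))) k -
          Sm (fun i : ℕ => Real.log (rho w (a + 1 + i))) j) +
      Real.exp (Sm (fun i : ℕ => Real.log (rho w (a + 1 + i))) k) * Wf w a := by
  set S := Sm (fun i : ℕ => Real.log (rho w (a + 1 + i))) with hS
  have hSs : ∀ k, S (k + 1) = S k + Real.log (rho w (a + 1 + k)) := fun k => by
    rw [hS]; unfold Sm; rw [Finset.sum_range_succ]
  induction k with
  | zero =>
    have : S 0 = 0 := by rw [hS]; simp [Sm]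
    simp only [Nat.cast_zero, add_zero, zero_add, Finset.sum_range_one, sub_self, Real.exp_zero,
      mul_one, this, one_mul]
    have : 0 < 1 / ε := by positivity
    linarith
  | succ k ih =>
    have hr := gd_rho hε hw (a + 1 + k)
    have e : (a : ℤ) + ((k + 1 : ℕ) : ℤ) = a + 1 + k := by push_cast; ring
    have e' : (a : ℤ) + 1 + k - 1 = a + k := by ring
    rw [e, Wf_rec hε hw hsum, e']
    have h1 : 1 / w (a + 1 + k) ≤ 1 / ε := one_div_le_one_div_of_le hε (hw _).1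
    have h2 := mul_le_mul_of_nonneg_left ih hr.le
    have h3 : ∑ j ∈ Finset.range (k + 1 + 1), Real.exp (S (k + 1) - S j) =
        rho w (a + 1 + k) * ∑ j ∈ Finset.range (k + 1), Real.exp (S k - S j) + 1 := by
      rw [Finset.sum_range_succ, sub_self, Real.exp_zero, Finset.mul_sum]
      congr 1
      refine Finset.sum_congr rfl fun j _ => ?_
      rw [hSs, add_sub_right_comm, Real.exp_add, Real.exp_log hr, mul_comm]
    have h4 : Real.exp (S (k + 1)) = rho w (a + 1 + k) * Real.exp (S k) := by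
      rw [hSs, Real.exp_add, Real.exp_log hr, mul_comm]
    rw [h3, h4]
    calc 1 / w (a + 1 + k) + rho w (a + 1 + k) * Wf w (a + k)
        ≤ 1 / ε + rho w (a + 1 + k) * (1 / ε * ∑ j ∈ Finset.range (k + 1), Real.exp (S k - S j) +
          Real.exp (S k) * Wf w a) := add_le_add h1 h2
      _ = _ := by ring

end

/-! ### The sums of the block -/

theorem gd_sum (f g : ℕ → ℝ) (n : ℕ) (hn : 1 ≤ n) (c W : ℝ) (hc : 0 ≤ c) (hg0 : 0 ≤ g 0)
    (G q : ℝ) (hG : ∑ k ∈ Finset.range n, g k ≤ G) (hW : 0 ≤ W) (e : ℕ → ℝ)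
    (hq : ∑ k ∈ Finset.range (n - 1), e (k + 1) ≤ q)
    (hf : ∀ k, f k ≤ c * g k + e k * W) :
    ∑ k ∈ Finset.range (n - 1), f (k + 1) ≤ c * G + q * W := by
  obtain ⟨n', rfl⟩ : ∃ n', n = n' + 1 := ⟨n - 1, by omega⟩
  simp only [Nat.add_sub_cancel] at hq ⊢
  rw [Finset.sum_range_succ'] at hG
  calc ∑ k ∈ Finset.range n', f (k + 1)
      ≤ ∑ k ∈ Finset.range n', (c * g (k + 1) + e (k + 1) * W) :=
        Finset.sum_le_sum fun k _ => hf (k + 1)
    _ = c * ∑ k ∈ Finset.range n', g (k + 1) + (∑ k ∈ Finset.range n', e (k + 1)) * W := by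
        rw [Finset.sum_add_distrib, Finset.mul_sum, Finset.sum_mul]
    _ ≤ c * G + q * W := by
        refine add_le_add (mul_le_mul_of_nonneg_left ?_ hc) (mul_le_mul_of_nonneg_right hq hW)
        linarith

theorem gd_pos (F : ℤ → ℝ) (hF : ∀ i, 0 ≤ F i) (a i0 n r : ℕ) (A : ℝ) (_hn : n < r)
    (h1 : ∑ i ∈ Finset.range (n + 1), F (a + i) ≤ A)
    (h2 : ∑ i ∈ Finset.Icc n r, F (a + i) ≤ A) :
    ∑ x ∈ Finset.Ioo ((a : ℤ) + i0) (a + r + 1), F x ≤ 2 * A := by
  have e1 : Finset.Ioo ((a : ℤ) + i0) (a + r + 1) ⊆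
      (Finset.range (n + 1) ∪ Finset.Icc n r).image (fun i : ℕ => (a : ℤ) + i) := by
    intro x hx
    rw [Finset.mem_Ioo] at hx
    rw [Finset.mem_image]
    refine ⟨(x - a).toNat, ?_, by omega⟩
    rw [Finset.mem_union, Finset.mem_range, Finset.mem_Icc]
    omega
  have e2 := Finset.sum_le_sum_of_subset_of_nonneg e1 (fun i _ _ => hF i)
  rw [Finset.sum_image (fun x _ y _ h => by simpa using h)] at e2
  have e3 := Finset.sum_union_inter (s₁ := Finset.range (n + 1)) (s₂ := Finset.Icc n r)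
    (f := fun i : ℕ => F (a + i))
  have e4 : 0 ≤ ∑ i ∈ Finset.range (n + 1) ∩ Finset.Icc n r, F (a + i) :=
    Finset.sum_nonneg fun i _ => hF _
  linarith

theorem gd_hit {ε : ℝ} (hε : 0 < ε) {w : ℤ → ℝ} (hw : ∀ x, ε ≤ w x ∧ w x ≤ 1 - ε)
    (hsum : ∀ i : ℤ, Summable fun j : ℕ => 1 / w (i - j) * Real.exp (pot w (i - j) i))
    (b : ℤ) (k : ℕ) (y : ℤ) (hyb : y ≤ b) :
    k * hb w b k y ≤ ∑ i ∈ Finset.Ico y b, Wf w i := by
  have hw01 : ∀ x, 0 ≤ w x ∧ w x ≤ 1 := fun x => ⟨by linarith [(hw x).1], by linarith [(hw x).2]⟩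
  refine hit w hw01 b (fun x => ∑ i ∈ Finset.Ico x b, Wf w i)
      (fun x _ => Finset.sum_nonneg fun i _ => Wf_nonneg hε hw i) ?_ k y hyb
  intro x hx
  have e1 := gd_left (Wf w) hx
  have e2 := gd_left (Wf w) (by omega : x - 1 < b)
  have e3 := Wf_rec hε hw hsum x
  rw [sub_add_cancel] at e2
  have hwx : w x ≠ 0 := by linarith [(hw x).1]
  have e5 : w x * Wf w x = 1 + (1 - w x) * Wf w (x - 1) := by
    rw [e3, rho]
    field_simp
  change 1 + w x * (∑ i ∈ Finset.Ico (x + 1) b, Wf w i) +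
    (1 - w x) * (∑ i ∈ Finset.Ico (x - 1) b, Wf w i) ≤ ∑ i ∈ Finset.Ico x b, Wf w i
  rw [e2]
  have e4 : ∑ i ∈ Finset.Ico (x + 1) b, Wf w i =
      ∑ i ∈ Finset.Ico x b, Wf w i - Wf w x := by linarith
  rw [e4]
  apply le_of_eq
  linear_combination (-1 : ℝ) * e5

theorem gd_half {w : ℤ → ℝ} (hw01 : ∀ x, 0 ≤ w x ∧ w x ≤ 1) (b : ℤ) (k : ℕ) (y : ℤ)
    (hyb : y ≤ b) (hpar : Even (b - y - k)) (A : ℝ) (hA : 0 < A) (G : ℝ)
    (h1 : k * hb w b k y ≤ G) (hG : 0 < G) (hk : 2 * G ≤ k)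
    (hret : ∀ j : ℕ, 2 * j ≤ k → 1 / (4 * (2 * (2 * A) + 1)) ≤ pn w (2 * j) b b) :
    1 / (8 * (4 * A + 1)) ≤ pn w k y b := by
  have hk0 : (0 : ℝ) < k := by linarith
  have h3 : hb w b k y ≤ 1 / 2 := by
    by_contra h4
    push Not at h4
    have : (k : ℝ) * (1 / 2) < k * hb w b k y := mul_lt_mul_of_pos_left h4 hk0
    linarith
  have h5 := hit_ret w hw01 b (1 / (4 * (2 * (2 * A) + 1))) (by positivity) k hret y hyb hpar
  refine le_trans ?_ h5
  have h6 : 1 / (8 * (4 * A + 1)) = 1 / 2 * (1 / (4 * (2 * (2 * A) + 1))) := by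
    have : 4 * A + 1 ≠ 0 := by positivity
    have h7 : 2 * (2 * A) + 1 = 4 * A + 1 := by ring
    rw [h7]
    field_simp
    norm_num
  rw [h6]
  exact mul_le_mul_of_nonneg_right (by linarith) (by positivity)

theorem gd_dist {a m n t T : ℕ} (ham : a ≤ m) (hn2 : n ≤ 2 * m) (ht : t ≤ m)
    (hT4 : 4 * (m : ℝ) ^ 2 ≤ T) :
    (|(((a : ℤ) + n : ℤ) : ℝ)| + t : ℝ) ≤ 2 * Real.sqrt T := by
  have hsT : 2 * (m : ℝ) ≤ Real.sqrt T := by
    refine Real.le_sqrt_of_sq_le ?_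
    nlinarith
  have h1 : |(((a : ℤ) + n : ℤ) : ℝ)| = (a : ℝ) + n := by
    push_cast
    exact abs_of_nonneg (by positivity)
  have h2 : (a : ℝ) ≤ m := by exact_mod_cast ham
  have h3 : (n : ℝ) ≤ 2 * m := by exact_mod_cast hn2
  have h4 : (t : ℝ) ≤ m := by exact_mod_cast ht
  rw [h1]
  linarith

/-- EG -/
theorem block_good (ε : ℝ) (hε : 0 < ε) (hε2 : ε < 1 / 2) (w : ℤ → ℝ)
    (hw : ∀ x, ε ≤ w x ∧ w x ≤ 1 - ε) (A C K : ℝ) (hA : 0 < A) (hC : 0 < C) (hK1 : 1 ≤ K)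
    (hK : 2 * (1 + 1 / ε) * (4 * (C * Real.sqrt K / ε + 2) + 1) ≤ K)
    (a m t : ℕ) (ht : t ≤ a) (ham : a ≤ m) (hm : 1 ≤ m)
    (hsum : ∀ i : ℤ, Summable fun j : ℕ => 1 / w (i - j) * Real.exp (pot w (i - j) i))
    (hG : ∑ i ∈ Finset.Icc (-a : ℤ) a, Wf w i ≤ m)
    (hY : ∀ n : ℕ, ∑ i ∈ Finset.Ioc (a : ℤ) (a + n), Real.exp (pot w a i) ≤ Real.sqrt m)
    (hB : Blk m (Real.log (K * m ^ 2)) A (C * Real.sqrt K * m ^ 2)
      (fun i : ℕ => Real.log (rho w (a + 1 + i)))) :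
    ∃ (T : ℕ) (b : ℤ), m ≤ T ∧ GoodV w (1 / (8 * (4 * A + 1))) 2 t T b := by
  obtain ⟨n, r, hmn, hn2, hnr, hr3, hs1, ⟨i0, hi0, hi0h⟩, hs2, hrh, hs3⟩ := hB
  set S := Sm (fun i : ℕ => Real.log (rho w (a + 1 + i))) with hS
  set D : ℝ := C * Real.sqrt K / ε + 2 with hD
  have hm1 : (1 : ℝ) ≤ m := by exact_mod_cast hm
  have hmm : (m : ℝ) ≤ (m : ℝ) ^ 2 := by nlinarith
  have hD2 : 2 ≤ D := by
    have : 0 ≤ C * Real.sqrt K / ε := by positivity
    linarith
  have hm2 : (1 : ℝ) ≤ (m : ℝ) ^ 2 := by nlinarith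
  have hKm : 1 ≤ K * (m : ℝ) ^ 2 := by nlinarith
  set T : ℕ := ⌈2 * D * (m : ℝ) ^ 2⌉₊ with hT
  have hT1 : 2 * D * (m : ℝ) ^ 2 ≤ T := Nat.le_ceil _
  have hT2 : (T : ℝ) ≤ 2 * D * (m : ℝ) ^ 2 + 1 :=
    (Nat.ceil_lt_add_one (by positivity)).le
  have hT4 : 4 * (m : ℝ) ^ 2 ≤ T := by nlinarith
  have hn1 : 1 ≤ n := hm.trans hmn
  have hw01 : ∀ x, 0 ≤ w x ∧ w x ≤ 1 := fun x => ⟨by linarith [(hw x).1], by linarith [(hw x).2]⟩
  have hWn := Wf_nonneg hε hw
  have haW : Wf w a ≤ m := by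
    refine le_trans ?_ hG
    exact Finset.single_le_sum (f := fun i : ℤ => Wf w i) (fun i _ => hWn i)
      (Finset.mem_Icc.mpr ⟨by omega, le_refl _⟩)
  -- the sum of the hitting times
  have hsq : Real.sqrt m ≤ m := by
    rw [Real.sqrt_le_left (by linarith)]
    nlinarith
  have hexpS : ∀ k : ℕ, Real.exp (pot w a (a + k)) = Real.exp (S k) := fun k => by rw [pot_Sm]
  have hq : ∑ k ∈ Finset.range (n - 1), Real.exp (S (k + 1)) ≤ Real.sqrt m := by
    refine le_trans (le_of_eq ?_) (hY (n - 1))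
    have e : Finset.Ioc (a : ℤ) (a + ((n - 1 : ℕ) : ℤ)) =
        (Finset.range (n - 1)).image (fun k : ℕ => (a : ℤ) + (k + 1 : ℕ)) := by
      ext x
      simp only [Finset.mem_Ioc, Finset.mem_image, Finset.mem_range]
      constructor
      · intro h
        exact ⟨(x - a - 1).toNat, by omega, by omega⟩
      · rintro ⟨k, hk, rfl⟩
        omega
    rw [e, Finset.sum_image (fun x _ y _ h => by
      have : ((x + 1 : ℕ) : ℤ) = ((y + 1 : ℕ) : ℤ) := by linarith
      omega)]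
    exact Finset.sum_congr rfl fun k _ => (hexpS (k + 1)).symm
  have hsumW : ∑ i ∈ Finset.Ico (-a : ℤ) (a + n), Wf w i ≤ D * (m : ℝ) ^ 2 := by
    have e1 := gd_ext (Wf w) a (n - 1)
    have e2 : (a : ℤ) + 1 + ((n - 1 : ℕ) : ℤ) = a + n := by omega
    rw [e2] at e1
    rw [e1]
    have e3 := gd_sum (fun k => Wf w (a + k))
      (fun k => ∑ j ∈ Finset.range (k + 1), Real.exp (S k - S j)) n hn1 (1 / ε) (Wf w a)
      (by positivity) (Finset.sum_nonneg fun j _ => (Real.exp_pos _).le)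
      (C * Real.sqrt K * m ^ 2) (Real.sqrt m) hs2 (hWn a) (fun k => Real.exp (S k)) hq
      (fun k => Wf_bound hε hw hsum a k)
    have e4 : ∑ j ∈ Finset.range (n - 1), Wf w (a + 1 + j) =
        ∑ k ∈ Finset.range (n - 1), Wf w (a + ((k + 1 : ℕ) : ℤ)) := by
      refine Finset.sum_congr rfl fun j _ => ?_
      congr 1
      push_cast
      ring
    rw [e4]
    have e5 : Real.sqrt m * Wf w a ≤ (m : ℝ) ^ 2 := by
      rw [sq]
      exact mul_le_mul hsq haW (hWn a) (by linarith)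
    calc ∑ i ∈ Finset.Icc (-a : ℤ) a, Wf w i +
          ∑ k ∈ Finset.range (n - 1), Wf w (a + ((k + 1 : ℕ) : ℤ))
        ≤ m + (1 / ε * (C * Real.sqrt K * m ^ 2) + Real.sqrt m * Wf w a) := add_le_add hG e3
      _ ≤ (m : ℝ) ^ 2 + (1 / ε * (C * Real.sqrt K * m ^ 2) + (m : ℝ) ^ 2) := by linarith
      _ = D * (m : ℝ) ^ 2 := by rw [hD]; ring
  -- the return probabilities
  have hret : ∀ j : ℕ, j ≤ T → 1 / (4 * (2 * (2 * A) + 1)) ≤ pn w (2 * j) (a + n) (a + n) := by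
    intro j hj
    refine valley (gV w a) w (gd_w hε hw a) (a + i0) (a + n) (a + r + 1) (by omega) (by omega)
      (Real.log (K * m ^ 2)) (1 / ε) (2 * A) (Real.log_nonneg hKm) ?_ ?_ ?_ ?_ j ?_
    · rw [gV_Sm, gV_Sm]
      exact hi0h
    · have e : (a : ℤ) + r + 1 - 1 = a + r := by ring
      rw [e, gV_Sm, gV_Sm]
      exact hrh
    · have e := gV_step w a (a + n)
      have e' : gV w a (a + n - 1) - gV w a (a + n) = -Real.log (rho w (a + n)) := by linarith
      rw [e', Real.exp_neg, Real.exp_log (gd_rho hε hw _), rho, inv_div]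
      obtain ⟨h1, h2⟩ := hw (a + n)
      rw [div_le_div_iff₀ (by linarith) hε]
      nlinarith
    · refine gd_pos (fun x => Real.exp (-(gV w a x - gV w a (a + n))))
        (fun i => (Real.exp_pos _).le) a i0 n r A hnr ?_ ?_
      · simp only [gV_Sm]
        exact hs1
      · simp only [gV_Sm]
        exact hs3
    · have hj' : (j : ℝ) ≤ T := by exact_mod_cast hj
      rw [Real.exp_neg, Real.exp_log (by linarith)]
      have h0 : 0 < 1 + 1 / ε := by positivity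
      have h1 : 2 * (1 + 1 / ε) * (2 * D * (m : ℝ) ^ 2 + 1) ≤ K * (m : ℝ) ^ 2 := by
        have h2 : 2 * (1 + 1 / ε) * (2 * D * (m : ℝ) ^ 2 + 1) ≤
            2 * (1 + 1 / ε) * ((4 * D + 1) * (m : ℝ) ^ 2) := by
          refine mul_le_mul_of_nonneg_left ?_ (by positivity)
          nlinarith
        have h3 : 2 * (1 + 1 / ε) * ((4 * D + 1) * (m : ℝ) ^ 2) ≤ K * (m : ℝ) ^ 2 := by
          rw [← mul_assoc]
          exact mul_le_mul_of_nonneg_right hK (by positivity)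
        linarith
      have h2 : (1 + 1 / ε) * j ≤ K * (m : ℝ) ^ 2 / 2 := by
        have : (1 + 1 / ε) * j ≤ (1 + 1 / ε) * (2 * D * (m : ℝ) ^ 2 + 1) :=
          mul_le_mul_of_nonneg_left (hj'.trans hT2) h0.le
        linarith
      have h3 : (1 + 1 / ε) * (K * (m : ℝ) ^ 2)⁻¹ * j = (1 + 1 / ε) * j / (K * (m : ℝ) ^ 2) := by
        rw [div_eq_mul_inv]
        ring
      rw [h3, div_le_iff₀ (by linarith)]
      linarith
  -- the conclusion
  refine ⟨T, a + n, ?_, ?_, ?_⟩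
  · have : (m : ℝ) ≤ T := by linarith
    exact_mod_cast this
  · intro k hk1 hk2 y hy hpar
    have hya : -(a : ℤ) ≤ y ∧ y ≤ a := by
      rw [abs_le] at hy
      omega
    have hyb : y ≤ (a : ℤ) + n := by omega
    have hTk : (T : ℝ) ≤ k := by exact_mod_cast hk1
    have h1 := gd_hit hε hw hsum (a + n) k y hyb
    have h2 : ∑ i ∈ Finset.Ico y ((a : ℤ) + n), Wf w i ≤ D * (m : ℝ) ^ 2 := by
      refine le_trans (Finset.sum_le_sum_of_subset_of_nonneg ?_ fun i _ _ => hWn i) hsumW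
      exact Finset.Ico_subset_Ico_left hya.1
    refine gd_half hw01 (a + n) k y hyb hpar A hA (D * (m : ℝ) ^ 2) (h1.trans h2)
      (by linarith) (by linarith) (fun j hj => hret j (by omega))
  · exact gd_dist ham hn2 (ht.trans ham) hT4

end Pool.Agent.H96.RW
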