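import Pool.Agent.H96.RW.Defs

/-!
# Infinitely many collisions from a uniform lower bound
-/

namespace Pool.Agent.H96.RW

open MeasureTheory ProbabilityTheory Filter Topology
open scoped ENNReal

namespace InfL

section cons

variable {E : Type*} [MeasurableSpace E]

/-- The sequence with first term `p.1`, followed by `p.2`. -/
def cons (p : E × (ℕ → E)) : ℕ → E
  | 0 => p.1
  | n + 1 => p.2 n

lemma measurable_cons : Measurable (cons : E × (ℕ → E) → ℕ → E) := by
  refine measurable_pi_iff.2 fun n => ?_
  cases n with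
  | zero => exact measurable_fst
  | succ n => exact (measurable_pi_apply n).comp measurable_snd

open Classical in
lemma map_cons (ν : Measure E) [IsProbabilityMeasure ν] :
    (ν.prod (Measure.infinitePi fun _ : ℕ => ν)).map cons = Measure.infinitePi fun _ : ℕ => ν := by
  refine Measure.eq_infinitePi _ fun s t ht => ?_
  obtain ⟨N, hN⟩ := Finset.exists_nat_subset_range s
  have hN' : s ⊆ Finset.range (N + 1) := hN.trans (Finset.range_mono (Nat.le_succ N))
  set t' : ℕ → Set E := fun i => if i ∈ s then t i else Set.univ with ht'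
  have hm' : ∀ i, MeasurableSet (t' i) := by
    intro i
    by_cases hi : i ∈ s
    · simp only [ht', hi, if_true]
      exact ht i
    · simp only [ht', hi, if_false]
      exact MeasurableSet.univ
  have hprod : ∏ i ∈ s, ν (t i) = ∏ i ∈ Finset.range (N + 1), ν (t' i) := by
    rw [← Finset.prod_subset hN']
    · refine Finset.prod_congr rfl fun i hi => ?_
      simp [ht', hi]
    · intro i _ hi
      simp [ht', hi]
  have hms : MeasurableSet (Set.pi (s : Set ℕ) t) :=
    MeasurableSet.pi (Set.to_countable _) fun i _ => ht i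
  have hset : cons ⁻¹' (Set.pi (s : Set ℕ) t) =
      (t' 0) ×ˢ (Set.pi ((Finset.range N : Finset ℕ) : Set ℕ) fun i => t' (i + 1)) := by
    ext p
    simp only [Set.mem_preimage, Set.mem_pi, Finset.mem_coe, Set.mem_prod, Finset.mem_range]
    constructor
    · intro h
      refine ⟨?_, fun i _ => ?_⟩
      · by_cases h0 : 0 ∈ s
        · simp only [ht', h0, if_true]
          exact h 0 h0
        · simp [ht', h0]
      · by_cases hi : i + 1 ∈ s
        · simp only [ht', hi, if_true]
          exact h (i + 1) hi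
        · simp [ht', hi]
    · rintro ⟨h0, h1⟩ i hi
      cases i with
      | zero =>
        simp only [ht', hi, if_true] at h0
        exact h0
      | succ i =>
        have hiN : i < N := by
          have := Finset.mem_range.1 (hN' hi)
          omega
        have h2 := h1 i hiN
        simp only [ht', hi, if_true] at h2
        exact h2
  rw [Measure.map_apply measurable_cons hms, hset, Measure.prod_prod,
    Measure.infinitePi_pi _ (fun i _ => hm' (i + 1)), hprod, Finset.prod_range_succ', mul_comm]

end cons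

/-- The one step law. -/
noncomputable def nu (d : ℕ) : Measure ((Fin d → ℝ) × ℝ) :=
  (Measure.pi fun _ : Fin d => unif).prod unif

instance (d : ℕ) : IsProbabilityMeasure (nu d) := by
  unfold nu
  infer_instance

lemma one_step {d : ℕ} (A : Set (ℕ → (Fin d → ℝ) × ℝ)) (hA : MeasurableSet A) :
    nz d A = ∫⁻ a, nz d {u | cons (a, u) ∈ A} ∂(nu d) := by
  have h1 : nz d A = ((nu d).prod (nz d)).map cons A := by
    have h2 : ((nu d).prod (nz d)).map cons = nz d := map_cons (nu d)
    rw [h2]
  rw [h1, Measure.map_apply measurable_cons hA, Measure.prod_apply (measurable_cons hA)]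
  rfl

lemma path_succ' (w : ℤ → ℝ) (x : ℤ) (v : ℕ → ℝ) (n : ℕ) :
    path w x v (n + 1) =
      path w (if v 0 < w x then x + 1 else x - 1) (fun k => v (k + 1)) n := by
  induction n with
  | zero => rfl
  | succ n ih =>
    rw [path, ih]
    rfl

lemma measurable_path (w : ℤ → ℝ) (x : ℤ) (n : ℕ) {α : Type*} [MeasurableSpace α]
    (v : α → ℕ → ℝ) (hv : ∀ k, Measurable fun a => v a k) :
    Measurable fun a => path w x (v a) n := by
  induction n with
  | zero => exact measurable_const
  | succ n ih =>
    simp only [path]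
    refine Measurable.ite ?_ ?_ ?_
    · exact measurableSet_lt (hv n) ((measurable_of_countable w).comp ih)
    · exact (measurable_of_countable fun y : ℤ => y + 1).comp ih
    · exact (measurable_of_countable fun y : ℤ => y - 1).comp ih

lemma measurableSet_coll {d : ℕ} (w : ℤ → ℝ) (x : Fin d → ℤ) (z : ℤ) (n : ℕ) :
    MeasurableSet {u : ℕ → (Fin d → ℝ) × ℝ | Coll w x z u n} := by
  unfold Coll
  simp only [Set.ofPred_forall]
  refine MeasurableSet.iInter fun j => ?_
  refine measurableSet_eq_fun ?_ ?_
  · refine measurable_path w (x j) n (fun (u : ℕ → (Fin d → ℝ) × ℝ) k => (u k).1 j) fun k => ?_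
    exact (measurable_pi_apply j).comp (measurable_fst.comp (measurable_pi_apply k))
  · refine measurable_path _ z n (fun (u : ℕ → (Fin d → ℝ) × ℝ) k => (u k).2) fun k => ?_
    exact measurable_snd.comp (measurable_pi_apply k)

/-- One step. -/
noncomputable def step {d : ℕ} (w : ℤ → ℝ) (s : (Fin d → ℤ) × ℤ) (a : (Fin d → ℝ) × ℝ) :
    (Fin d → ℤ) × ℤ :=
  (fun j => if a.1 j < w (s.1 j) then s.1 j + 1 else s.1 j - 1,
    if a.2 < 1 / 2 then s.2 + 1 else s.2 - 1)

lemma coll_cons {d : ℕ} (w : ℤ → ℝ) (s : (Fin d → ℤ) × ℤ) (a : (Fin d → ℝ) × ℝ)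
    (u : ℕ → (Fin d → ℝ) × ℝ) (n : ℕ) :
    Coll w s.1 s.2 (cons (a, u)) (n + 1) ↔ Coll w (step w s a).1 (step w s a).2 u n := by
  unfold Coll
  simp only [path_succ']
  rfl

lemma coll_zero {d : ℕ} (w : ℤ → ℝ) (s : (Fin d → ℤ) × ℤ)
    (u : ℕ → (Fin d → ℝ) × ℝ) :
    Coll w s.1 s.2 u 0 ↔ ∀ j, s.1 j = s.2 := by
  unfold Coll
  rfl

/-- The parity condition. -/
def Vd {d : ℕ} (s : (Fin d → ℤ) × ℤ) : Prop := ∀ j, Even (s.1 j - s.2)

lemma vd_step {d : ℕ} (w : ℤ → ℝ) (s : (Fin d → ℤ) × ℤ) (a : (Fin d → ℝ) × ℝ) (hs : Vd s) :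
    Vd (step w s a) := by
  intro j
  have h := hs j
  rw [Int.even_iff] at h ⊢
  simp only [step]
  split_ifs <;> omega

lemma meas_nc {d : ℕ} (w : ℤ → ℝ) (s : (Fin d → ℤ) × ℤ) (p : ℕ → Prop) :
    MeasurableSet {u : ℕ → (Fin d → ℝ) × ℝ | ∀ n, p n → ¬ Coll w s.1 s.2 u n} := by
  simp only [Set.ofPred_forall]
  refine MeasurableSet.iInter fun n => MeasurableSet.iInter fun _ => ?_
  exact (measurableSet_coll w s.1 s.2 n).compl

end InfL

open InfL in
theorem inf_often (d : ℕ) (w : ℤ → ℝ) (c₁ : ℝ) (hc : 0 < c₁)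
    (h : ∀ t : ℕ, ∃ L : ℕ, ∀ (x : Fin d → ℤ) (z : ℤ), (∀ j, |x j| ≤ t) → |z| ≤ t →
      (∀ j, Even (x j - z)) → ENNReal.ofReal c₁ ≤ nz d {u | ∃ n ≤ L, Coll w x z u n})
    (x : Fin d → ℤ) (z : ℤ) (hx : ∀ j, Even (x j - z)) :
    ∀ᵐ u ∂(nz d), ∃ᶠ n in atTop, Coll w x z u n := by
  -- no collision from `s` at times `N, N+1, ...` and at times `0, ..., K`
  set R : ℕ → (Fin d → ℤ) × ℤ → Set (ℕ → (Fin d → ℝ) × ℝ) :=
    fun N s => {u | ∀ n, N ≤ n → ¬ Coll w s.1 s.2 u n} with hR
  set Q : ℕ → (Fin d → ℤ) × ℤ → Set (ℕ → (Fin d → ℝ) × ℝ) :=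
    fun K s => {u | ∀ n, n ≤ K → ¬ Coll w s.1 s.2 u n} with hQ
  have hRm : ∀ N s, MeasurableSet (R N s) := fun N s => meas_nc w s fun n => N ≤ n
  have hQm : ∀ K s, MeasurableSet (Q K s) := fun K s => meas_nc w s fun n => n ≤ K
  set G : ℝ≥0∞ := ⨆ s : {s : (Fin d → ℤ) × ℤ // Vd s}, nz d (R 0 s.1) with hG
  have hG1 : G ≤ 1 := iSup_le fun s => prob_le_one
  have hGtop : G ≠ ∞ := ne_top_of_le_ne_top ENNReal.one_ne_top hG1
  have hle : ∀ s, Vd s → nz d (R 0 s) ≤ G := fun s hs =>
    le_iSup (fun s : {s : (Fin d → ℤ) × ℤ // Vd s} => nz d (R 0 s.1)) ⟨s, hs⟩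
  have hcl : ∀ K s, Vd s → nz d (R 0 s) ≤ nz d (Q K s) * G := by
    intro K
    induction K with
    | zero =>
      intro s hs
      by_cases h0 : ∀ j, s.1 j = s.2
      · have hempty : R 0 s = ∅ := by
          ext u
          simp only [hR, Set.mem_ofPred_eq, Set.mem_empty_iff_false, iff_false]
          intro hu
          exact hu 0 le_rfl ((coll_zero w s u).2 h0)
        rw [hempty]
        simp
      · have huniv : Q 0 s = Set.univ := by
          ext u
          simp only [hQ, Set.mem_ofPred_eq, Set.mem_univ, iff_true]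
          intro n hn hcol
          obtain rfl : n = 0 := by omega
          exact h0 ((coll_zero w s u).1 hcol)
        rw [huniv, measure_univ, one_mul]
        exact hle s hs
    | succ K ih =>
      intro s hs
      by_cases h0 : ∀ j, s.1 j = s.2
      · have hempty : R 0 s = ∅ := by
          ext u
          simp only [hR, Set.mem_ofPred_eq, Set.mem_empty_iff_false, iff_false]
          intro hu
          exact hu 0 le_rfl ((coll_zero w s u).2 h0)
        rw [hempty]
        simp
      · have hR1 : ∀ a, {u | cons (a, u) ∈ R 0 s} = R 0 (step w s a) := by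
          intro a
          ext u
          simp only [hR, Set.mem_ofPred_eq]
          constructor
          · intro hu n _ hcol
            exact hu (n + 1) (Nat.zero_le _) ((coll_cons w s a u n).2 hcol)
          · intro hu n _ hcol
            cases n with
            | zero => exact h0 ((coll_zero w s _).1 hcol)
            | succ n => exact hu n (Nat.zero_le _) ((coll_cons w s a u n).1 hcol)
        have hQ1 : ∀ a, {u | cons (a, u) ∈ Q (K + 1) s} = Q K (step w s a) := by
          intro a
          ext u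
          simp only [hQ, Set.mem_ofPred_eq]
          constructor
          · intro hu n hn hcol
            exact hu (n + 1) (by omega) ((coll_cons w s a u n).2 hcol)
          · intro hu n hn hcol
            cases n with
            | zero => exact h0 ((coll_zero w s _).1 hcol)
            | succ n => exact hu n (by omega) ((coll_cons w s a u n).1 hcol)
        rw [one_step _ (hRm 0 s), one_step _ (hQm (K + 1) s)]
        simp only [hR1, hQ1]
        rw [← lintegral_mul_const' _ _ hGtop]
        exact lintegral_mono fun a => ih (step w s a) (vd_step w s a hs)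
  have hQle : ∀ s, Vd s → ∃ L, nz d (Q L s) ≤ 1 - ENNReal.ofReal c₁ := by
    intro s hs
    obtain ⟨L, hL⟩ := h (∑ j, (s.1 j).natAbs + s.2.natAbs)
    refine ⟨L, ?_⟩
    have h1 := hL s.1 s.2 (fun j => ?_) ?_ hs
    · have h2 : Q L s = {u | ∃ n ≤ L, Coll w s.1 s.2 u n}ᶜ := by
        ext u
        simp only [hQ, Set.mem_ofPred_eq, Set.mem_compl_iff, not_exists, not_and]
      have h3 : MeasurableSet {u : ℕ → (Fin d → ℝ) × ℝ | ∃ n ≤ L, Coll w s.1 s.2 u n} := by
        have := (hQm L s).compl
        rw [h2, compl_compl] at this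
        exact this
      rw [h2, prob_compl_eq_one_sub h3]
      exact tsub_le_tsub_left h1 1
    · have h2 : (s.1 j).natAbs ≤ ∑ j, (s.1 j).natAbs :=
        Finset.single_le_sum (f := fun j => (s.1 j).natAbs) (fun _ _ => Nat.zero_le _)
          (Finset.mem_univ j)
      rw [Int.abs_eq_natAbs]
      exact_mod_cast le_trans h2 (Nat.le_add_right _ _)
    · rw [Int.abs_eq_natAbs]
      exact_mod_cast Nat.le_add_left _ _
  have hG2 : G ≤ (1 - ENNReal.ofReal c₁) * G := by
    refine iSup_le fun s => ?_
    obtain ⟨L, hL⟩ := hQle s.1 s.2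
    exact (hcl L s.1 s.2).trans (mul_le_mul_left hL G)
  have hG0 : G = 0 := by
    by_contra hne
    have h1 : (1 - ENNReal.ofReal c₁) < 1 :=
      ENNReal.sub_lt_self ENNReal.one_ne_top one_ne_zero (by simpa using hc)
    have h2 : (1 - ENNReal.ofReal c₁) * G < 1 * G :=
      (ENNReal.mul_lt_mul_iff_left hne hGtop).2 h1
    rw [one_mul] at h2
    exact absurd hG2 (not_le.2 h2)
  have hR0 : ∀ N s, Vd s → nz d (R N s) = 0 := by
    intro N
    induction N with
    | zero =>
      intro s hs
      have := hle s hs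
      rw [hG0] at this
      exact le_antisymm this bot_le
    | succ N ih =>
      intro s hs
      have hR1 : ∀ a, {u | cons (a, u) ∈ R (N + 1) s} = R N (step w s a) := by
        intro a
        ext u
        simp only [hR, Set.mem_ofPred_eq]
        constructor
        · intro hu n hn hcol
          exact hu (n + 1) (by omega) ((coll_cons w s a u n).2 hcol)
        · intro hu n hn hcol
          cases n with
          | zero => omega
          | succ n => exact hu n (by omega) ((coll_cons w s a u n).1 hcol)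
      rw [one_step _ (hRm (N + 1) s)]
      simp only [hR1]
      rw [lintegral_congr fun a => ih (step w s a) (vd_step w s a hs)]
      simp
  have hall : ∀ᵐ u ∂(nz d), ∀ N : ℕ, u ∉ R N (x, z) := by
    rw [ae_all_iff]
    intro N
    exact measure_eq_zero_iff_ae_notMem.1 (hR0 N (x, z) hx)
  filter_upwards [hall] with u hu
  rw [frequently_atTop]
  intro N
  have h1 := hu N
  simp only [hR, Set.mem_ofPred_eq, not_forall, not_not] at h1
  obtain ⟨n, hn, hcol⟩ := h1
  exact ⟨n, hn, hcol⟩

end Pool.Agent.H96.RW
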