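import Pool.Agent.H96.RW.Defs

/-!
# A lower bound for the transition probabilities of the simple random walk
-/

set_option autoImplicit false

namespace Pool.Agent.H96.RW

namespace SrwLow

theorem nonneg (n : ℕ) (x y : ℤ) : 0 ≤ pn (fun _ => 1 / 2) n x y := by
  induction n generalizing x with
  | zero =>
    unfold pn
    split_ifs <;> norm_num
  | succ n ih =>
    unfold pn
    have h1 := ih (x + 1)
    have h2 := ih (x - 1)
    have h3 : (0 : ℝ) ≤ 1 - 1 / 2 := by norm_num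
    positivity

theorem choose_le (n k : ℕ) (x : ℤ) :
    (n.choose k : ℝ) / 2 ^ n ≤ pn (fun _ => 1 / 2) n x (x + 2 * k - n) := by
  induction n generalizing k x with
  | zero =>
    cases k with
    | zero => simp [pn]
    | succ k =>
      have := nonneg 0 x (x + 2 * ((k + 1 : ℕ) : ℤ) - ((0 : ℕ) : ℤ))
      simpa using this
  | succ n ih =>
    cases k with
    | zero =>
      have h1 := ih 0 (x - 1)
      have e : x - 1 + 2 * ((0 : ℕ) : ℤ) - n = x + 2 * ((0 : ℕ) : ℤ) - ((n + 1 : ℕ) : ℤ) := by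
        push_cast
        ring
      rw [e] at h1
      have h2 := nonneg n (x + 1) (x + 2 * ((0 : ℕ) : ℤ) - ((n + 1 : ℕ) : ℤ))
      rw [pn]
      rw [Nat.choose_zero_right] at h1 ⊢
      rw [pow_succ]
      have h3 : (((1 : ℕ) : ℝ)) / (2 ^ n * 2) = ((1 : ℕ) : ℝ) / 2 ^ n / 2 := by
        rw [div_div]
      rw [h3]
      linarith
    | succ k =>
      have h1 := ih k (x + 1)
      have h2 := ih (k + 1) (x - 1)
      have e1 : x + 1 + 2 * (k : ℤ) - n = x + 2 * ((k + 1 : ℕ) : ℤ) - ((n + 1 : ℕ) : ℤ) := by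
        push_cast
        ring
      have e2 : x - 1 + 2 * ((k + 1 : ℕ) : ℤ) - n =
          x + 2 * ((k + 1 : ℕ) : ℤ) - ((n + 1 : ℕ) : ℤ) := by
        push_cast
        ring
      rw [e1] at h1
      rw [e2] at h2
      rw [pn, Nat.choose_succ_succ, pow_succ]
      have h3 : (((n.choose k + n.choose (k + 1) : ℕ)) : ℝ) / (2 ^ n * 2) =
          (n.choose k : ℝ) / 2 ^ n / 2 + (n.choose (k + 1) : ℝ) / 2 ^ n / 2 := by
        push_cast
        field_simp
      rw [h3]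
      linarith

theorem central_sq (m : ℕ) (hm : 1 ≤ m) :
    (16 : ℝ) ^ m ≤ 4 * m * (m.centralBinom : ℝ) ^ 2 := by
  induction m, hm using Nat.le_induction with
  | base => norm_num [Nat.centralBinom, Nat.choose]
  | succ m hm ih =>
    have h1 : ((m + 1 : ℕ) : ℝ) * ((m + 1).centralBinom : ℝ) =
        2 * (2 * m + 1) * (m.centralBinom : ℝ) := by
      exact_mod_cast Nat.succ_mul_centralBinom_succ m
    have hm0 : (0 : ℝ) < ((m + 1 : ℕ) : ℝ) := by positivity
    have hc : ((m + 1).centralBinom : ℝ) =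
        2 * (2 * m + 1) * (m.centralBinom : ℝ) / ((m + 1 : ℕ) : ℝ) := by
      rw [eq_div_iff hm0.ne']
      linarith
    rw [hc, pow_succ]
    have h2 : 4 * ((m + 1 : ℕ) : ℝ) * (2 * (2 * m + 1) * (m.centralBinom : ℝ) /
        ((m + 1 : ℕ) : ℝ)) ^ 2 = 16 * (2 * m + 1) ^ 2 / ((m + 1 : ℕ) : ℝ) *
          (m.centralBinom : ℝ) ^ 2 := by
      field_simp
      ring
    rw [h2]
    have h3 : (4 * m : ℝ) ≤ (2 * m + 1) ^ 2 / ((m + 1 : ℕ) : ℝ) := by
      rw [le_div_iff₀ hm0]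
      push_cast
      nlinarith
    have h4 : 0 ≤ (m.centralBinom : ℝ) ^ 2 := by positivity
    calc (16 : ℝ) ^ m * 16 ≤ 4 * m * (m.centralBinom : ℝ) ^ 2 * 16 := by linarith
      _ = 16 * ((4 * m) * (m.centralBinom : ℝ) ^ 2) := by ring
      _ ≤ 16 * (((2 * m + 1) ^ 2 / ((m + 1 : ℕ) : ℝ)) * (m.centralBinom : ℝ) ^ 2) := by gcongr
      _ = _ := by ring

theorem central (m : ℕ) (hm : 1 ≤ m) :
    1 / (2 * Real.sqrt m) ≤ ((2 * m).choose m : ℝ) / 4 ^ m := by
  have hm0 : (0 : ℝ) < m := by exact_mod_cast hm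
  have hs : 0 < Real.sqrt m := Real.sqrt_pos.2 hm0
  have h1 := central_sq m hm
  rw [Nat.centralBinom_eq_two_mul_choose] at h1
  rw [div_le_div_iff₀ (by positivity) (by positivity), one_mul]
  have h2 : (0 : ℝ) ≤ ((2 * m).choose m : ℝ) * (2 * Real.sqrt m) := by positivity
  refine (sq_le_sq₀ (by positivity) h2).1 ?_
  have h3 : (((2 * m).choose m : ℝ) * (2 * Real.sqrt m)) ^ 2 =
      4 * m * ((2 * m).choose m : ℝ) ^ 2 := by
    rw [mul_pow, mul_pow, Real.sq_sqrt hm0.le]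
    ring
  rw [h3, ← pow_mul, mul_comm m 2, pow_mul]
  norm_num
  exact h1

theorem off (m j i : ℕ) (hij : i ≤ j) (hj : 2 * j ≤ m) (hm : 0 < m) :
    ((2 * m).choose m : ℝ) * (1 - 2 * j / m) ^ i ≤ ((2 * m).choose (m + i) : ℝ) := by
  have hm0 : (0 : ℝ) < m := by exact_mod_cast hm
  have hj' : (2 * j : ℝ) ≤ m := by exact_mod_cast hj
  have hq : (0 : ℝ) ≤ 1 - 2 * j / m := by
    rw [sub_nonneg, div_le_one hm0]
    exact hj'
  induction i with
  | zero => simp
  | succ i ih =>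
    have ih' := ih (by omega)
    have hrec : ((2 * m).choose (m + i + 1) : ℝ) * (m + i + 1) =
        ((2 * m).choose (m + i) : ℝ) * (m - i) := by
      have h := Nat.choose_succ_right_eq (2 * m) (m + i)
      have h2 : 2 * m - (m + i) = m - i := by omega
      rw [h2] at h
      have h3 : ((m - i : ℕ) : ℝ) = (m : ℝ) - i := by
        rw [Nat.cast_sub (by omega)]
      have h4 := congrArg (Nat.cast : ℕ → ℝ) h
      push_cast at h4
      rw [h3] at h4
      exact h4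
    have hi : (i : ℝ) + 1 ≤ j := by exact_mod_cast hij
    have hstep : (1 - 2 * j / m) * ((m : ℝ) + i + 1) ≤ m - i := by
      have : (1 - 2 * (j : ℝ) / m) * ((m : ℝ) + i + 1) * m ≤ (m - i) * m := by
        have e : (1 - 2 * (j : ℝ) / m) * ((m : ℝ) + i + 1) * m = (m - 2 * j) * (m + i + 1) := by
          field_simp
        rw [e]
        have hi0 : (0 : ℝ) ≤ i := Nat.cast_nonneg i
        nlinarith
      exact le_of_mul_le_mul_right this hm0
    have hpos : (0 : ℝ) < (m : ℝ) + i + 1 := by positivity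
    refine le_of_mul_le_mul_right ?_ hpos
    have e : m + (i + 1) = m + i + 1 := by ring
    rw [e, hrec, pow_succ]
    calc ((2 * m).choose m : ℝ) * ((1 - 2 * j / m) ^ i * (1 - 2 * j / m)) * ((m : ℝ) + i + 1)
        = (((2 * m).choose m : ℝ) * (1 - 2 * j / m) ^ i) *
            ((1 - 2 * j / m) * ((m : ℝ) + i + 1)) := by ring
      _ ≤ ((2 * m).choose (m + i) : ℝ) * ((1 - 2 * j / m) * ((m : ℝ) + i + 1)) :=
          mul_le_mul_of_nonneg_right ih' (by positivity)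
      _ ≤ ((2 * m).choose (m + i) : ℝ) * (m - i) :=
          mul_le_mul_of_nonneg_left hstep (by positivity)

theorem exp_le {x : ℝ} (h0 : 0 ≤ x) (h1 : x ≤ 1 / 2) : Real.exp (-(2 * x)) ≤ 1 - x := by
  rw [Real.exp_neg]
  have h2 : 1 + 2 * x ≤ Real.exp (2 * x) := by
    have := Real.add_one_le_exp (2 * x)
    linarith
  have h3 : 0 < 1 + 2 * x := by linarith
  calc (Real.exp (2 * x))⁻¹ ≤ (1 + 2 * x)⁻¹ := inv_anti₀ h3 h2
    _ ≤ 1 - x := by
        rw [inv_le_iff_one_le_mul₀ h3]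
        nlinarith

theorem even_low {A : ℝ} (m j : ℕ) (hm : 8 * A ^ 2 ≤ m) (hm1 : 1 ≤ m)
    (hj : (2 * j : ℝ) ≤ A * Real.sqrt (2 * m)) :
    4 * j ≤ m ∧
      Real.exp (-(2 * A ^ 2)) / (2 * Real.sqrt m) ≤ ((2 * m).choose (m + j) : ℝ) / 4 ^ m := by
  have hm0 : (0 : ℝ) < m := by exact_mod_cast hm1
  have hsq : (2 * j : ℝ) ^ 2 ≤ A ^ 2 * (2 * m) := by
    have h1 : (2 * j : ℝ) ^ 2 ≤ (A * Real.sqrt (2 * m)) ^ 2 :=
      pow_le_pow_left₀ (by positivity) hj 2
    have e : (A * Real.sqrt (2 * m)) ^ 2 = A ^ 2 * (2 * m) := by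
      rw [mul_pow, Real.sq_sqrt (by positivity)]
    rw [e] at h1
    exact h1
  have h4 : (4 * j : ℝ) ≤ m := by
    refine (sq_le_sq₀ (by positivity) hm0.le).1 ?_
    nlinarith
  have h4' : 4 * j ≤ m := by exact_mod_cast h4
  refine ⟨h4', ?_⟩
  have hoff := off m j j le_rfl (by omega) (by omega)
  have hx0 : (0 : ℝ) ≤ 2 * j / m := by positivity
  have hx1 : (2 * j / m : ℝ) ≤ 1 / 2 := by
    rw [div_le_iff₀ hm0]
    linarith
  have hpow : Real.exp (-(2 * A ^ 2)) ≤ (1 - 2 * (j : ℝ) / m) ^ j := by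
    have h5 := pow_le_pow_left₀ (Real.exp_pos _).le (exp_le hx0 hx1) j
    refine le_trans ?_ h5
    rw [← Real.exp_nat_mul]
    apply Real.exp_le_exp.2
    have h6 : (j : ℝ) * (2 * (2 * j / m)) = (2 * j) ^ 2 / m := by
      field_simp
    have h7 : (2 * (j : ℝ)) ^ 2 / m ≤ 2 * A ^ 2 := by
      rw [div_le_iff₀ hm0]
      linarith
    rw [mul_neg, h6]
    linarith
  have hc := central m hm1
  calc Real.exp (-(2 * A ^ 2)) / (2 * Real.sqrt m)
      = 1 / (2 * Real.sqrt m) * Real.exp (-(2 * A ^ 2)) := by ring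
    _ ≤ ((2 * m).choose m : ℝ) / 4 ^ m * (1 - 2 * (j : ℝ) / m) ^ j :=
        mul_le_mul hc hpow (Real.exp_pos _).le (by positivity)
    _ = (((2 * m).choose m : ℝ) * (1 - 2 * (j : ℝ) / m) ^ j) / 4 ^ m := by ring
    _ ≤ ((2 * m).choose (m + j) : ℝ) / 4 ^ m := by gcongr

theorem even_pn {A : ℝ} (m : ℕ) (hm : 8 * A ^ 2 ≤ m) (hm1 : 1 ≤ m) (x y : ℤ)
    (h : (|x - y| : ℝ) ≤ A * Real.sqrt (2 * m)) (he : Even (x - y)) :
    Real.exp (-(2 * A ^ 2)) / (2 * Real.sqrt m) ≤ pn (fun _ => 1 / 2) (2 * m) x y := by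
  obtain ⟨d, hd⟩ := he
  have hdr : ((x : ℝ) - y) = 2 * d := by
    have : ((x - y : ℤ) : ℝ) = ((d + d : ℤ) : ℝ) := by rw [hd]
    push_cast at this
    linarith
  have hj : (2 * (d.natAbs : ℕ) : ℝ) ≤ A * Real.sqrt (2 * m) := by
    have h1 : ((d.natAbs : ℕ) : ℝ) = |(d : ℝ)| := by
      rw [Nat.cast_natAbs]
      push_cast
      rfl
    rw [h1]
    rw [hdr, abs_mul, abs_of_pos (by norm_num : (0 : ℝ) < 2)] at h
    exact h
  obtain ⟨h4, hlow⟩ := even_low m d.natAbs hm hm1 hj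
  refine hlow.trans ?_
  have e16 : (4 : ℝ) ^ m = 2 ^ (2 * m) := by
    rw [pow_mul]
    norm_num
  rw [e16]
  rcases le_total d 0 with h0 | h0
  · have := choose_le (2 * m) (m + d.natAbs) x
    have e : x + 2 * ((m + d.natAbs : ℕ) : ℤ) - ((2 * m : ℕ) : ℤ) = y := by
      push_cast
      rw [abs_of_nonpos h0]
      omega
    rwa [e] at this
  · have := choose_le (2 * m) (m - d.natAbs) x
    have e : x + 2 * ((m - d.natAbs : ℕ) : ℤ) - ((2 * m : ℕ) : ℤ) = y := by
      have h5 : ((m - d.natAbs : ℕ) : ℤ) = (m : ℤ) - d := by omega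
      rw [h5]
      push_cast
      omega
    rw [e] at this
    have hsym : (2 * m).choose (m - d.natAbs) = (2 * m).choose (m + d.natAbs) :=
      Nat.choose_symm_of_eq_add (by omega)
    rwa [hsym] at this

end SrwLow

open SrwLow

theorem srw_low (A : ℝ) (hA : 0 < A) : ∃ c : ℝ, 0 < c ∧ ∃ n₀ : ℕ, ∀ n : ℕ, n₀ ≤ n → ∀ x y : ℤ,
    (|x - y| : ℝ) ≤ A * Real.sqrt n → Even (x - y - n) →
      c / Real.sqrt n ≤ pn (fun _ => 1 / 2) n x y := by
  set B : ℝ := 2 * A + 1 with hB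
  have hBA : A ≤ B := by linarith
  refine ⟨Real.exp (-(2 * B ^ 2)) / 4, by positivity, 2 * ⌈8 * B ^ 2⌉₊ + 4, ?_⟩
  intro n hn x y hxy he
  obtain ⟨m, hm | hm⟩ : ∃ m, n = 2 * m ∨ n = 2 * m + 1 := ⟨n / 2, by omega⟩
  · subst hm
    have hm1 : 1 ≤ m := by omega
    have hmB : 8 * B ^ 2 ≤ (m : ℝ) := by
      have h1 : ⌈8 * B ^ 2⌉₊ ≤ m := by omega
      exact (Nat.le_ceil _).trans (by exact_mod_cast h1)
    have hm0 : (0 : ℝ) < m := by exact_mod_cast hm1
    have hcast : ((2 * m : ℕ) : ℝ) = 2 * (m : ℝ) := by push_cast; ring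
    rw [hcast] at hxy ⊢
    have h1 := even_pn m hmB hm1 x y
      (hxy.trans (mul_le_mul_of_nonneg_right hBA (Real.sqrt_nonneg _)))
      (by
        have h2 : x - y = (x - y - ((2 * m : ℕ) : ℤ)) + 2 * m := by push_cast; ring
        rw [h2]
        exact he.add (even_two_mul _))
    refine le_trans ?_ h1
    have hs : Real.sqrt m ≤ Real.sqrt (2 * m) := Real.sqrt_le_sqrt (by linarith)
    have hs0 : 0 < Real.sqrt m := Real.sqrt_pos.2 hm0
    rw [div_div]
    exact div_le_div_of_nonneg_left (Real.exp_pos _).le (by positivity) (by linarith)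
  · subst hm
    have hm1 : 1 ≤ m := by omega
    have hmB : 8 * B ^ 2 ≤ (m : ℝ) := by
      have h1 : ⌈8 * B ^ 2⌉₊ ≤ m := by omega
      exact (Nat.le_ceil _).trans (by exact_mod_cast h1)
    have hm0 : (1 : ℝ) ≤ m := by exact_mod_cast hm1
    have hcast : ((2 * m + 1 : ℕ) : ℝ) = 2 * (m : ℝ) + 1 := by push_cast; ring
    rw [hcast] at hxy ⊢
    have hs1 : Real.sqrt (2 * m + 1) ≤ 2 * Real.sqrt (2 * m) := by
      have h1 : Real.sqrt (4 * (2 * m)) = 2 * Real.sqrt (2 * m) := by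
        have h4 : Real.sqrt 4 = 2 := by
          rw [show (4 : ℝ) = 2 ^ 2 by norm_num, Real.sqrt_sq (by norm_num)]
        rw [Real.sqrt_mul (by norm_num : (0 : ℝ) ≤ 4), h4]
      rw [← h1]
      exact Real.sqrt_le_sqrt (by linarith)
    have hs2 : 1 ≤ Real.sqrt (2 * m) := by
      rw [Real.one_le_sqrt]
      linarith
    have hx1 : (|((x + 1 : ℤ) : ℝ) - y| : ℝ) ≤ B * Real.sqrt (2 * m) := by
      have h1 : |((x + 1 : ℤ) : ℝ) - y| ≤ |(x : ℝ) - y| + 1 := by
        have e : ((x + 1 : ℤ) : ℝ) - y = ((x : ℝ) - y) + 1 := by push_cast; ring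
        rw [e]
        refine (abs_add_le _ _).trans ?_
        rw [abs_one]
      have h2 : A * Real.sqrt (2 * m + 1) ≤ A * (2 * Real.sqrt (2 * m)) :=
        mul_le_mul_of_nonneg_left hs1 hA.le
      rw [hB]
      nlinarith
    have h1 := even_pn m hmB hm1 (x + 1) y hx1
      (by
        have h2 : x + 1 - y = (x - y - ((2 * m + 1 : ℕ) : ℤ)) + 2 * (m + 1) := by
          push_cast
          ring
        rw [h2]
        exact he.add (even_two_mul _))
    have h2 := nonneg (2 * m) (x - 1) y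
    have h3 : pn (fun _ => 1 / 2) (2 * m + 1) x y =
        1 / 2 * pn (fun _ => 1 / 2) (2 * m) (x + 1) y +
          (1 - 1 / 2) * pn (fun _ => 1 / 2) (2 * m) (x - 1) y := rfl
    rw [h3]
    have h4 : Real.exp (-(2 * B ^ 2)) / 4 / Real.sqrt (2 * m + 1) ≤
        1 / 2 * (Real.exp (-(2 * B ^ 2)) / (2 * Real.sqrt m)) := by
      have hs : Real.sqrt m ≤ Real.sqrt (2 * m + 1) := Real.sqrt_le_sqrt (by linarith)
      have hs0 : 0 < Real.sqrt m := Real.sqrt_pos.2 (by linarith)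
      have e : 1 / 2 * (Real.exp (-(2 * B ^ 2)) / (2 * Real.sqrt m)) =
          Real.exp (-(2 * B ^ 2)) / (4 * Real.sqrt m) := by
        field_simp
        ring
      rw [e, div_div]
      exact div_le_div_of_nonneg_left (Real.exp_pos _).le (by positivity) (by linarith)
    linarith

end Pool.Agent.H96.RW
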