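import Pool.Agent.H96.RW.SrwUp
import Pool.Agent.H96.RW.SrwLow

set_option autoImplicit false

/-!
# (PC) Second moment in one window
-/

namespace Pool.Agent.H96.RW

open MeasureTheory ProbabilityTheory Filter Topology
open scoped ENNReal

namespace PCw

section cons
variable {S : Type*}

/-- the sequence with first term `a` and then `v` -/
def wcons (p : S × (ℕ → S)) : ℕ → S
  | 0 => p.1
  | n + 1 => p.2 n

variable [MeasurableSpace S]

theorem wcons_meas : Measurable (wcons : S × (ℕ → S) → ℕ → S) := by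
  refine measurable_pi_lambda _ fun n => ?_
  cases n with
  | zero => exact measurable_fst
  | succ n => exact (measurable_pi_apply n).comp measurable_snd

theorem wcons_prod (s : Finset ℕ) (g : ℕ → ℝ≥0∞) :
    ∏ u ∈ s, g u = (if 0 ∈ s then g 0 else 1) *
      ∏ u ∈ s.preimage Nat.succ (Nat.succ_injective.injOn), g (u + 1) := by
  classical
  have h1 : (if 0 ∈ s then g 0 else 1) = ∏ u ∈ s, if u = 0 then g u else 1 := by
    rw [Finset.prod_ite_eq' s 0 g]
  have h2 := Finset.prod_preimage' Nat.succ s (Nat.succ_injective.injOn) g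
  simp only [Nat.succ_eq_add_one] at h2
  rw [h1, h2, Finset.prod_filter, ← Finset.prod_mul_distrib]
  refine Finset.prod_congr rfl fun u _ => ?_
  cases u with
  | zero => simp
  | succ u => simp

theorem wcons_mp (ν : Measure S) [IsProbabilityMeasure ν] :
    MeasurePreserving (wcons : S × (ℕ → S) → ℕ → S)
      (ν.prod (Measure.infinitePi fun _ : ℕ => ν)) (Measure.infinitePi fun _ : ℕ => ν) := by
  classical
  refine ⟨wcons_meas, ?_⟩
  refine Measure.eq_infinitePi _ fun s t ht => ?_
  have hms : MeasurableSet (Set.pi (s : Set ℕ) t) :=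
    MeasurableSet.pi s.countable_toSet fun i _ => ht i
  have hpre : (wcons : S × (ℕ → S) → ℕ → S) ⁻¹' (Set.pi (s : Set ℕ) t) =
      (if 0 ∈ s then t 0 else Set.univ) ×ˢ
        (Set.pi ((s.preimage Nat.succ (Nat.succ_injective.injOn) :
            Finset ℕ) : Set ℕ) fun u => t (u + 1)) := by
    ext p
    simp only [Set.mem_preimage, Set.mem_pi, Finset.mem_coe, Set.mem_prod, Finset.mem_preimage]
    constructor
    · intro h
      refine ⟨?_, fun u hu => h _ hu⟩
      split_ifs with h0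
      · exact h _ h0
      · exact Set.mem_univ _
    · rintro ⟨h0, h1⟩ u hu
      match u, hu with
      | 0, hu =>
        rw [if_pos hu] at h0
        exact h0
      | u + 1, hu => exact h1 u hu
  rw [Measure.map_apply wcons_meas hms, hpre, Measure.prod_prod, wcons_prod s fun u => ν (t u)]
  congr 1
  · split_ifs with h0
    · rfl
    · exact measure_univ
  · exact Measure.infinitePi_pi _ fun u hu => ht _

theorem wcons_law (ν : Measure S) [IsProbabilityMeasure ν] {A : Set (ℕ → S)}
    (hA : MeasurableSet A) : (Measure.infinitePi fun _ : ℕ => ν) A =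
      ∫⁻ a, (Measure.infinitePi fun _ : ℕ => ν) {v | wcons (a, v) ∈ A} ∂ν := by
  rw [← (wcons_mp ν).measure_preimage hA.nullMeasurableSet, Measure.prod_apply (wcons_meas hA)]
  rfl

end cons

open Classical in
/-- one step -/
noncomputable def stp (w : ℤ → ℝ) (x : ℤ) (a : ℝ) : ℤ := if a < w x then x + 1 else x - 1

theorem path_stp (w : ℤ → ℝ) (x : ℤ) (u : ℕ → ℝ) (n : ℕ) :
    path w x u (n + 1) = stp w (path w x u n) (u n) := rfl

theorem path_cons (w : ℤ → ℝ) (x : ℤ) (u : ℕ → ℝ) (n : ℕ) :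
    path w x u (n + 1) = path w (stp w x (u 0)) (fun k => u (k + 1)) n := by
  induction n with
  | zero => rfl
  | succ n ih => rw [path_stp, ih, path_stp]

theorem stp_meas (w : ℤ → ℝ) (x : ℤ) : Measurable (stp w x) := by
  unfold stp
  exact Measurable.ite (measurableSet_lt measurable_id measurable_const) measurable_const
    measurable_const

theorem path_meas (w : ℤ → ℝ) (x : ℤ) (n : ℕ) : Measurable fun u : ℕ → ℝ => path w x u n := by
  induction n with
  | zero => exact measurable_const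
  | succ n ih =>
    have h1 : Measurable fun u : ℕ → ℝ => w (path w x u n) := Measurable.of_discrete.comp ih
    exact Measurable.ite (measurableSet_lt (measurable_pi_apply n) h1)
      ((Measurable.of_discrete (f := fun y : ℤ => y + 1)).comp ih)
      ((Measurable.of_discrete (f := fun y : ℤ => y - 1)).comp ih)

theorem unif_lt {p : ℝ} (h1 : p ≤ 1) : unif {a | a < p} = ENNReal.ofReal p := by
  have hs : {a : ℝ | a < p} ∩ Set.Icc 0 1 = Set.Ico 0 p := by
    ext a
    constructor
    · rintro ⟨h2, h3, _⟩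
      exact ⟨h3, h2⟩
    · rintro ⟨h2, h3⟩
      exact ⟨h3, h2, h3.le.trans h1⟩
  have hm : MeasurableSet {a : ℝ | a < p} := measurableSet_Iio
  unfold unif
  rw [Measure.restrict_apply hm, hs, Real.volume_Ico, sub_zero]

theorem lint_stp (w : ℤ → ℝ) (x : ℤ) (h0 : 0 ≤ w x) (h1 : w x ≤ 1) (f : ℤ → ℝ≥0∞) :
    ∫⁻ a, f (stp w x a) ∂unif =
      ENNReal.ofReal (w x) * f (x + 1) + ENNReal.ofReal (1 - w x) * f (x - 1) := by
  have hm : MeasurableSet {a : ℝ | a < w x} := measurableSet_lt measurable_id measurable_const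
  rw [← lintegral_add_compl _ hm]
  have e1 : ∫⁻ a in {a : ℝ | a < w x}, f (stp w x a) ∂unif = ∫⁻ _a in {a : ℝ | a < w x}, f (x + 1) ∂unif := by
    refine setLIntegral_congr_fun hm fun a ha => ?_
    exact congrArg f (if_pos ha)
  have e2 : ∫⁻ a in {a : ℝ | a < w x}ᶜ, f (stp w x a) ∂unif =
      ∫⁻ _a in {a : ℝ | a < w x}ᶜ, f (x - 1) ∂unif := by
    refine setLIntegral_congr_fun hm.compl fun a ha => ?_
    exact congrArg f (if_neg ha)
  rw [e1, e2, setLIntegral_const, setLIntegral_const, prob_compl_eq_one_sub hm, unif_lt h1,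
    ENNReal.ofReal_sub 1 h0, ENNReal.ofReal_one, mul_comm (f (x + 1)), mul_comm (f (x - 1))]

theorem pn_nonneg (w : ℤ → ℝ) (hw : ∀ x, 0 ≤ w x ∧ w x ≤ 1) (n : ℕ) :
    ∀ x y, 0 ≤ pn w n x y := by
  induction n with
  | zero =>
    intro x y
    unfold pn
    split_ifs <;> norm_num
  | succ n ih =>
    intro x y
    unfold pn
    exact add_nonneg (mul_nonneg (hw x).1 (ih _ _)) (mul_nonneg (sub_nonneg.2 (hw x).2) (ih _ _))

/-- the integral of `f` over one step, for `f = ofReal (pn ..) * c` -/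
theorem lint_pn (w : ℤ → ℝ) (hw : ∀ x, 0 ≤ w x ∧ w x ≤ 1) (n : ℕ) (x y : ℤ) :
    ∫⁻ a, ENNReal.ofReal (pn w n (stp w x a) y) ∂unif = ENNReal.ofReal (pn w (n + 1) x y) := by
  rw [lint_stp w x (hw x).1 (hw x).2 fun x' => ENNReal.ofReal (pn w n x' y),
    ← ENNReal.ofReal_mul (hw x).1, ← ENNReal.ofReal_mul (sub_nonneg.2 (hw x).2),
    ← ENNReal.ofReal_add (mul_nonneg (hw x).1 (pn_nonneg w hw n _ _))
      (mul_nonneg (sub_nonneg.2 (hw x).2) (pn_nonneg w hw n _ _))]
  rfl

/-- the law of the walk -/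
theorem law1 (w : ℤ → ℝ) (hw : ∀ x, 0 ≤ w x ∧ w x ≤ 1) (n : ℕ) : ∀ (x y : ℤ),
    (Measure.infinitePi fun _ : ℕ => unif) {u | path w x u n = y} =
      ENNReal.ofReal (pn w n x y) := by
  induction n with
  | zero =>
    intro x y
    by_cases h : x = y
    · have h1 : {u : ℕ → ℝ | path w x u 0 = y} = Set.univ := Set.eq_univ_of_forall fun u => h
      rw [h1, measure_univ]
      unfold pn
      rw [if_pos h, ENNReal.ofReal_one]
    · have h1 : {u : ℕ → ℝ | path w x u 0 = y} = ∅ := Set.eq_empty_of_forall_notMem fun u hu => h hu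
      rw [h1, measure_empty]
      unfold pn
      rw [if_neg h, ENNReal.ofReal_zero]
  | succ n ih =>
    intro x y
    have hm : MeasurableSet {u : ℕ → ℝ | path w x u (n + 1) = y} :=
      path_meas w x (n + 1) (measurableSet_singleton y)
    rw [wcons_law unif hm, ← lint_pn w hw n x y]
    refine lintegral_congr fun a => ?_
    rw [← ih]
    congr 1
    ext v
    simp only [Set.mem_ofPred_eq]
    rw [path_cons]
    rfl

/-- the law of the walk at two times -/
theorem law2 (w : ℤ → ℝ) (hw : ∀ x, 0 ≤ w x ∧ w x ≤ 1) (n m : ℕ) : ∀ (x y y' : ℤ),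
    (Measure.infinitePi fun _ : ℕ => unif) {u | path w x u n = y ∧ path w x u (n + m) = y'} =
      ENNReal.ofReal (pn w n x y) * ENNReal.ofReal (pn w m y y') := by
  induction n with
  | zero =>
    intro x y y'
    by_cases h : x = y
    · subst h
      have h1 : {u : ℕ → ℝ | path w x u 0 = x ∧ path w x u (0 + m) = y'} =
          {u | path w x u m = y'} := by
        ext u
        simp only [Set.mem_ofPred_eq, zero_add]
        exact ⟨fun h => h.2, fun h => ⟨rfl, h⟩⟩
      rw [h1, law1 w hw]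
      have h2 : pn w 0 x x = 1 := by
        unfold pn
        rw [if_pos rfl]
      rw [h2, ENNReal.ofReal_one, one_mul]
    · have h1 : {u : ℕ → ℝ | path w x u 0 = y ∧ path w x u (0 + m) = y'} = ∅ :=
        Set.eq_empty_of_forall_notMem fun u hu => h hu.1
      have h2 : pn w 0 x y = 0 := by
        unfold pn
        rw [if_neg h]
      rw [h1, measure_empty, h2, ENNReal.ofReal_zero, zero_mul]
  | succ n ih =>
    intro x y y'
    have hm : MeasurableSet {u : ℕ → ℝ | path w x u (n + 1) = y ∧ path w x u (n + 1 + m) = y'} :=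
      (path_meas w x (n + 1) (measurableSet_singleton y)).inter
        (path_meas w x (n + 1 + m) (measurableSet_singleton y'))
    rw [wcons_law unif hm, ← lint_pn w hw n x y]
    have hf : Measurable fun a => ENNReal.ofReal (pn w n (stp w x a) y) :=
      (Measurable.of_discrete (f := fun x' : ℤ => ENNReal.ofReal (pn w n x' y))).comp
        (stp_meas w x)
    rw [← lintegral_mul_const _ hf]
    refine lintegral_congr fun a => ?_
    rw [← ih]
    congr 1
    ext v
    simp only [Set.mem_ofPred_eq]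
    rw [path_cons, show n + 1 + m = n + m + 1 by ring, path_cons]
    rfl

/-- the walk driven by the last coordinates -/
theorem snd_mp (d : ℕ) : MeasurePreserving (fun (u : ℕ → (Fin d → ℝ) × ℝ) (k : ℕ) => (u k).2)
    (nz d) (Measure.infinitePi fun _ : ℕ => unif) := by
  refine ⟨measurable_pi_lambda _ fun k => measurable_snd.comp (measurable_pi_apply k), ?_⟩
  have h := Measure.infinitePi_map_pi (fun _ : ℕ => (Measure.pi fun _ : Fin d => unif).prod unif)
    (f := fun _ : ℕ => (Prod.snd : (Fin d → ℝ) × ℝ → ℝ)) (fun _ => measurable_snd)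
  unfold nz
  rw [h]
  congr 1
  funext i
  exact measurePreserving_snd.map_eq

theorem half_mem : ∀ _x : ℤ, (0 : ℝ) ≤ (fun _ : ℤ => (1 / 2 : ℝ)) _x ∧
    (fun _ : ℤ => (1 / 2 : ℝ)) _x ≤ 1 := fun _ => by norm_num

theorem meas_at (d : ℕ) (w : ℤ → ℝ) (n : ℕ) (x : Fin d → ℤ) (z y y' : ℤ) :
    MeasurableSet {u : ℕ → (Fin d → ℝ) × ℝ | (∀ j, path w (x j) (fun k => (u k).1 j) n = y) ∧
      path (fun _ => 1 / 2) z (fun k => (u k).2) n = y'} := by
  have h1 : MeasurableSet {u : ℕ → (Fin d → ℝ) × ℝ |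
      ∀ j, path w (x j) (fun k => (u k).1 j) n = y} := by
    have h2 : {u : ℕ → (Fin d → ℝ) × ℝ | ∀ j, path w (x j) (fun k => (u k).1 j) n = y} =
        ⋂ j, {u | path w (x j) (fun k => (u k).1 j) n = y} := by
      ext u
      simp
    rw [h2]
    refine MeasurableSet.iInter fun j => ?_
    have h3 : Measurable fun (u : ℕ → (Fin d → ℝ) × ℝ) (k : ℕ) => (u k).1 j :=
      measurable_pi_lambda _ fun k =>
        (measurable_pi_apply j).comp (measurable_fst.comp (measurable_pi_apply k))
    exact ((path_meas w (x j) n).comp h3) (measurableSet_singleton y)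
  have h4 : Measurable fun (u : ℕ → (Fin d → ℝ) × ℝ) (k : ℕ) => (u k).2 :=
    measurable_pi_lambda _ fun k => measurable_snd.comp (measurable_pi_apply k)
  exact h1.inter (((path_meas (fun _ => 1 / 2) z n).comp h4) (measurableSet_singleton y'))

theorem lint_pi (d : ℕ) (w : ℤ → ℝ) (hw : ∀ x, 0 ≤ w x ∧ w x ≤ 1) (n : ℕ) (x : Fin d → ℤ)
    (y : ℤ) : ∫⁻ a, ∏ j, ENNReal.ofReal (pn w n (stp w (x j) (a j)) y)
      ∂(Measure.pi fun _ : Fin d => unif) = ∏ j, ENNReal.ofReal (pn w (n + 1) (x j) y) := by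
  have hf : ∀ j, Measurable fun a => ENNReal.ofReal (pn w n (stp w (x j) a) y) := fun j =>
    (Measurable.of_discrete (f := fun x' : ℤ => ENNReal.ofReal (pn w n x' y))).comp
      (stp_meas w (x j))
  have hI : iIndepFun (fun (j : Fin d) (a : Fin d → ℝ) =>
      ENNReal.ofReal (pn w n (stp w (x j) (a j)) y)) (Measure.pi fun _ : Fin d => unif) :=
    iIndepFun_pi (X := fun (j : Fin d) (s : ℝ) => ENNReal.ofReal (pn w n (stp w (x j) s) y))
      fun j => (hf j).aemeasurable
  rw [lintegral_prod_eq_prod_lintegral_of_indepFun Finset.univ _ hI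
    fun j => (hf j).comp (measurable_pi_apply j)]
  refine Finset.prod_congr rfl fun j _ => ?_
  rw [← lint_pn w hw n (x j) y]
  exact (measurePreserving_eval (fun _ : Fin d => unif) j).lintegral_comp (hf j)

/-- the joint law of the walks at one time -/
theorem joint (d : ℕ) (w : ℤ → ℝ) (hw : ∀ x, 0 ≤ w x ∧ w x ≤ 1) (n : ℕ) :
    ∀ (x : Fin d → ℤ) (z y y' : ℤ),
      nz d {u | (∀ j, path w (x j) (fun k => (u k).1 j) n = y) ∧
        path (fun _ => 1 / 2) z (fun k => (u k).2) n = y'} =
      (∏ j, ENNReal.ofReal (pn w n (x j) y)) * ENNReal.ofReal (pn (fun _ => 1 / 2) n z y') := by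
  induction n with
  | zero =>
    intro x z y y'
    by_cases h : (∀ j, x j = y) ∧ z = y'
    · have h1 : {u : ℕ → (Fin d → ℝ) × ℝ | (∀ j, path w (x j) (fun k => (u k).1 j) 0 = y) ∧
          path (fun _ => 1 / 2) z (fun k => (u k).2) 0 = y'} = Set.univ :=
        Set.eq_univ_of_forall fun u => h
      rw [h1, measure_univ]
      have h2 : ∀ j, pn w 0 (x j) y = 1 := fun j => if_pos (h.1 j)
      have h3 : pn (fun _ => 1 / 2) 0 z y' = 1 := if_pos h.2
      rw [h3]
      simp [h2]
    · have h1 : {u : ℕ → (Fin d → ℝ) × ℝ | (∀ j, path w (x j) (fun k => (u k).1 j) 0 = y) ∧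
          path (fun _ => 1 / 2) z (fun k => (u k).2) 0 = y'} = ∅ :=
        Set.eq_empty_of_forall_notMem fun u hu => h hu
      rw [h1, measure_empty]
      by_cases h4 : ∀ j, x j = y
      · have h3 : pn (fun _ => 1 / 2) 0 z y' = 0 := if_neg fun h5 => h ⟨h4, h5⟩
        rw [h3, ENNReal.ofReal_zero, mul_zero]
      · push Not at h4
        obtain ⟨j, hj⟩ := h4
        have h3 : pn w 0 (x j) y = 0 := if_neg hj
        rw [Finset.prod_eq_zero (Finset.mem_univ j) (by rw [h3, ENNReal.ofReal_zero]), zero_mul]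
  | succ n ih =>
    intro x z y y'
    have e1 := wcons_law ((Measure.pi fun _ : Fin d => unif).prod unif)
      (meas_at d w (n + 1) x z y y')
    have e2 : nz d {u | (∀ j, path w (x j) (fun k => (u k).1 j) (n + 1) = y) ∧
        path (fun _ => 1 / 2) z (fun k => (u k).2) (n + 1) = y'} =
        ∫⁻ a : (Fin d → ℝ) × ℝ, (∏ j, ENNReal.ofReal (pn w n (stp w (x j) (a.1 j)) y)) *
          ENNReal.ofReal (pn (fun _ => 1 / 2) n (stp (fun _ => 1 / 2) z a.2) y')
          ∂((Measure.pi fun _ : Fin d => unif).prod unif) := by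
      refine e1.trans ?_
      refine lintegral_congr fun a => ?_
      rw [← ih]
      unfold nz
      congr 1
      ext v
      simp only [Set.mem_ofPred_eq]
      rw [path_cons]
      refine and_congr (forall_congr' fun j => ?_) Iff.rfl
      rw [path_cons]
      rfl
    have hf : ∀ j, Measurable fun a => ENNReal.ofReal (pn w n (stp w (x j) a) y) := fun j =>
      (Measurable.of_discrete (f := fun x' : ℤ => ENNReal.ofReal (pn w n x' y))).comp
        (stp_meas w (x j))
    have hg : Measurable fun a => ENNReal.ofReal (pn (fun _ => 1 / 2) n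
        (stp (fun _ => 1 / 2) z a) y') :=
      (Measurable.of_discrete (f := fun x' : ℤ =>
        ENNReal.ofReal (pn (fun _ => 1 / 2) n x' y'))).comp (stp_meas (fun _ => 1 / 2) z)
    rw [e2, lintegral_prod_mul (f := fun a : Fin d → ℝ =>
      ∏ j, ENNReal.ofReal (pn w n (stp w (x j) (a j)) y))
      (Finset.measurable_prod _ fun j _ => (hf j).comp (measurable_pi_apply j)).aemeasurable
      hg.aemeasurable, lint_pi d w hw n x y, lint_pn (fun _ => 1 / 2) half_mem n z y']

/-- second moment -/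
theorem second {Ω : Type*} [MeasurableSpace Ω] (P : Measure Ω) [IsProbabilityMeasure P]
    (s : Finset ℕ) (E : ℕ → Set Ω) (hE : ∀ i, MeasurableSet (E i)) (l : ℝ) :
    2 * l * ∑ i ∈ s, P.real (E i) - l ^ 2 * ∑ i ∈ s, ∑ j ∈ s, P.real (E i ∩ E j) ≤
      P.real (⋃ i ∈ s, E i) := by
  have hi : ∀ A : Set Ω, MeasurableSet A → Integrable (A.indicator (1 : Ω → ℝ)) P := fun A hA =>
    (integrable_const (1 : ℝ)).indicator hA
  have hU : MeasurableSet (⋃ i ∈ s, E i) := Finset.measurableSet_biUnion s fun i _ => hE i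
  have i1 : Integrable (fun ω => 2 * l * ∑ i ∈ s, (E i).indicator (1 : Ω → ℝ) ω) P :=
    (integrable_finsetSum s fun i _ => hi _ (hE i)).const_mul _
  have i2 : Integrable (fun ω => l ^ 2 * ∑ i ∈ s, ∑ j ∈ s,
      (E i ∩ E j).indicator (1 : Ω → ℝ) ω) P :=
    (integrable_finsetSum s fun i _ => integrable_finsetSum s fun j _ =>
      hi _ ((hE i).inter (hE j))).const_mul _
  have e1 : 2 * l * ∑ i ∈ s, P.real (E i) - l ^ 2 * ∑ i ∈ s, ∑ j ∈ s, P.real (E i ∩ E j) =
      ∫ ω, (2 * l * ∑ i ∈ s, (E i).indicator (1 : Ω → ℝ) ω -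
        l ^ 2 * ∑ i ∈ s, ∑ j ∈ s, (E i ∩ E j).indicator (1 : Ω → ℝ) ω) ∂P := by
    rw [integral_sub i1 i2, integral_const_mul, integral_const_mul,
      integral_finsetSum s fun i _ => hi _ (hE i),
      integral_finsetSum s fun i _ => integrable_finsetSum s fun j _ =>
        hi _ ((hE i).inter (hE j))]
    congr 2
    · exact Finset.sum_congr rfl fun i _ => (integral_indicator_one (hE i)).symm
    · refine Finset.sum_congr rfl fun i _ => ?_
      rw [integral_finsetSum s fun j _ => hi _ ((hE i).inter (hE j))]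
      exact Finset.sum_congr rfl fun j _ => (integral_indicator_one ((hE i).inter (hE j))).symm
  rw [e1, ← integral_indicator_one hU]
  refine integral_mono (i1.sub i2) (hi _ hU) fun ω => ?_
  show 2 * l * ∑ i ∈ s, (E i).indicator (1 : Ω → ℝ) ω -
        l ^ 2 * ∑ i ∈ s, ∑ j ∈ s, (E i ∩ E j).indicator (1 : Ω → ℝ) ω ≤
      (⋃ i ∈ s, E i).indicator (1 : Ω → ℝ) ω
  have e2 : ∑ i ∈ s, ∑ j ∈ s, (E i ∩ E j).indicator (1 : Ω → ℝ) ω =
      (∑ i ∈ s, (E i).indicator (1 : Ω → ℝ) ω) ^ 2 := by
    rw [sq, Finset.sum_mul_sum]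
    refine Finset.sum_congr rfl fun i _ => Finset.sum_congr rfl fun j _ => ?_
    rw [Set.inter_indicator_one]
    rfl
  rw [e2]
  by_cases h : ω ∈ ⋃ i ∈ s, E i
  · rw [Set.indicator_of_mem h]
    show _ ≤ (1 : ℝ)
    nlinarith [sq_nonneg (1 - l * ∑ i ∈ s, (E i).indicator (1 : Ω → ℝ) ω)]
  · rw [Set.indicator_of_notMem h]
    have h2 : ∑ i ∈ s, (E i).indicator (1 : Ω → ℝ) ω = 0 := by
      refine Finset.sum_eq_zero fun i hi => Set.indicator_of_notMem (fun h3 => h ?_) _
      exact Set.mem_biUnion hi h3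
    rw [h2]
    simp

theorem sum_pairs (K : ℕ) (f : ℕ → ℕ → ℝ) (r : ℕ → ℝ) (G B : ℝ) (hG : 0 ≤ G)
    (hs : ∀ k l, f k l = f l k) (hf0 : ∀ k l, 0 ≤ f k l)
    (hf : ∀ k l, k ≤ l → l < K → f k l ≤ G * r (l - k))
    (hB : ∀ k < K, ∑ m ∈ Finset.range (k + 1), r m ≤ B) :
    ∑ k ∈ Finset.range K, ∑ l ∈ Finset.range K, f k l ≤ 2 * (K * (G * B)) := by
  have h1 : ∀ k ∈ Finset.range K, ∑ l ∈ Finset.range K, (if l ≤ k then f k l else 0) ≤ G * B := by
    intro k hk
    rw [Finset.mem_range] at hk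
    rw [← Finset.sum_filter]
    calc ∑ l ∈ (Finset.range K).filter (fun l => l ≤ k), f k l ≤
          ∑ l ∈ Finset.range (k + 1), f k l := by
          refine Finset.sum_le_sum_of_subset_of_nonneg ?_ fun l _ _ => hf0 k l
          intro l hl
          rw [Finset.mem_filter] at hl
          exact Finset.mem_range.2 (by omega)
      _ ≤ ∑ l ∈ Finset.range (k + 1), G * r (k + 1 - 1 - l) := by
          refine Finset.sum_le_sum fun l hl => ?_
          rw [Finset.mem_range] at hl
          rw [hs k l]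
          exact hf l k (by omega) hk
      _ = G * ∑ m ∈ Finset.range (k + 1), r m := by
          rw [← Finset.mul_sum, Finset.sum_range_reflect]
      _ ≤ G * B := mul_le_mul_of_nonneg_left (hB k hk) hG
  have h2 : ∑ k ∈ Finset.range K, ∑ l ∈ Finset.range K, (if l ≤ k then f k l else 0) ≤
      K * (G * B) := by
    refine (Finset.sum_le_sum h1).trans ?_
    rw [Finset.sum_const, Finset.card_range, nsmul_eq_mul]
  have h3 : ∑ k ∈ Finset.range K, ∑ l ∈ Finset.range K, (if k ≤ l then f k l else 0) ≤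
      K * (G * B) := by
    rw [Finset.sum_comm]
    refine le_trans (le_of_eq ?_) h2
    exact Finset.sum_congr rfl fun l _ => Finset.sum_congr rfl fun k _ => by rw [hs k l]
  have h4 : ∀ k ∈ Finset.range K, ∑ l ∈ Finset.range K, f k l ≤
      ∑ l ∈ Finset.range K, (if l ≤ k then f k l else 0) +
      ∑ l ∈ Finset.range K, (if k ≤ l then f k l else 0) := by
    intro k _
    rw [← Finset.sum_add_distrib]
    refine Finset.sum_le_sum fun l _ => ?_
    have := hf0 k l
    rcases le_total l k with h | h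
    · rw [if_pos h]
      split_ifs <;> linarith
    · rw [if_pos h]
      split_ifs <;> linarith
  have h5 := Finset.sum_le_sum h4
  rw [Finset.sum_add_distrib] at h5
  linarith

theorem sum_sqrt (C : ℝ) (hC : 0 ≤ C) (k : ℕ) :
    ∑ m ∈ Finset.range (k + 1), (if m = 0 then 1 else C / Real.sqrt m) ≤
      1 + 2 * C * Real.sqrt k := by
  induction k with
  | zero => simp
  | succ k ih =>
    rw [Finset.sum_range_succ, if_neg (Nat.succ_ne_zero k)]
    have h1 : C / Real.sqrt ((k + 1 : ℕ) : ℝ) ≤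
        2 * C * (Real.sqrt ((k + 1 : ℕ) : ℝ) - Real.sqrt k) := by
      have h2 : 0 < Real.sqrt ((k + 1 : ℕ) : ℝ) := Real.sqrt_pos.2 (by positivity)
      have h3 : Real.sqrt (k : ℝ) ≤ Real.sqrt ((k + 1 : ℕ) : ℝ) :=
        Real.sqrt_le_sqrt (by push_cast; linarith)
      have h4 : Real.sqrt ((k + 1 : ℕ) : ℝ) ^ 2 = k + 1 := by
        rw [Real.sq_sqrt (by positivity)]
        push_cast
        ring
      have h5 : Real.sqrt (k : ℝ) ^ 2 = k := Real.sq_sqrt (by positivity)
      have h6 : 0 ≤ Real.sqrt (k : ℝ) := Real.sqrt_nonneg _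
      rw [div_le_iff₀ h2]
      have h7 : 1 ≤ 2 * (Real.sqrt ((k + 1 : ℕ) : ℝ) - Real.sqrt k) *
          Real.sqrt ((k + 1 : ℕ) : ℝ) := by nlinarith
      nlinarith
    linarith

end PCw

open PCw in
theorem window (d : ℕ) (c A : ℝ) (hc : 0 < c) (hA : 0 < A) : ∃ c₁ : ℝ, 0 < c₁ ∧ ∃ T₀ : ℕ,
    ∀ (w : ℤ → ℝ), (∀ x, 0 ≤ w x ∧ w x ≤ 1) → ∀ (t T : ℕ) (b : ℤ), T₀ ≤ T → GoodV w c A t T b →
      ∀ (x : Fin d → ℤ) (z : ℤ), (∀ j, |x j| ≤ t) → |z| ≤ t → (∀ j, Even (x j - z)) →
        ENNReal.ofReal c₁ ≤ nz d {u | ∃ n ≤ 2 * T, Coll w x z u n} := by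
  obtain ⟨C, hC, hup⟩ := srw_up
  obtain ⟨c0, hc0, n0, hlow⟩ := srw_low A hA
  set a : ℝ := c ^ d * c0 / 6 with ha
  set K2 : ℝ := C * (1 + 2 * C) with hK2
  have ha0 : 0 < a := by positivity
  have hK20 : 0 < K2 := by positivity
  refine ⟨a ^ 2 / K2, by positivity, max n0 3, ?_⟩
  intro w hw t T b hT hG x z hx hz hpar
  have hT3 : 3 ≤ T := (le_max_right _ _).trans hT
  have hTn : n0 ≤ T := (le_max_left _ _).trans hT
  obtain ⟨e, he1, he⟩ : ∃ e : ℕ, e ≤ 1 ∧ Even (b - z - ((T + e : ℕ) : ℤ)) := by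
    rcases Int.even_or_odd (b - z - (T : ℤ)) with h | h
    · exact ⟨0, by norm_num, by simpa using h⟩
    · refine ⟨1, le_rfl, ?_⟩
      push_cast
      rw [show b - z - ((T : ℤ) + 1) = (b - z - T) - 1 by ring]
      exact h.sub_odd odd_one
  set K : ℕ := T / 2 with hK
  set tm : ℕ → ℕ := fun k => T + e + 2 * k with htm
  set E : ℕ → Set (ℕ → (Fin d → ℝ) × ℝ) := fun k => {u |
    (∀ j, path w (x j) (fun i => (u i).1 j) (tm k) = b) ∧
      path (fun _ => 1 / 2) z (fun i => (u i).2) (tm k) = b} with hE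
  have hEm : ∀ k, MeasurableSet (E k) := fun k => meas_at d w (tm k) x z b b
  have htmT : ∀ k, T ≤ tm k := fun k => by simp only [htm]; omega
  have htm2 : ∀ k, k < K → tm k ≤ 2 * T := fun k hk => by simp only [htm]; omega
  have heven : ∀ k, Even (b - z - ((tm k : ℕ) : ℤ)) := by
    intro k
    have h1 : b - z - ((tm k : ℕ) : ℤ) = (b - z - ((T + e : ℕ) : ℤ)) - 2 * k := by
      simp only [htm]
      push_cast
      ring
    rw [h1]
    exact he.sub (even_two_mul _)
  set S : ℝ := Real.sqrt T with hS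
  have hTr : (3 : ℝ) ≤ T := by exact_mod_cast hT3
  have hS2 : S ^ 2 = T := Real.sq_sqrt (by positivity)
  have hS1 : 1 ≤ S := by
    rw [hS, Real.one_le_sqrt]
    linarith
  have hS0 : 0 < S := by linarith
  have hSt : ∀ k, S ≤ Real.sqrt (tm k : ℝ) := fun k =>
    Real.sqrt_le_sqrt (by exact_mod_cast htmT k)
  have hSt2 : ∀ k, k < K → Real.sqrt (tm k : ℝ) ≤ 2 * S := by
    intro k hk
    rw [Real.sqrt_le_left (by positivity), mul_pow, hS2]
    have : (tm k : ℝ) ≤ 2 * T := by exact_mod_cast htm2 k hk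
    linarith
  -- lower bounds
  have hlo : ∀ k ∈ Finset.range K, c ^ d * (c0 / (2 * S)) ≤ (nz d).real (E k) := by
    intro k hk
    rw [Finset.mem_range] at hk
    have e1 : (nz d).real (E k) = (∏ j, pn w (tm k) (x j) b) *
        pn (fun _ => 1 / 2) (tm k) z b := by
      rw [measureReal_def, hE]
      simp only
      rw [joint d w hw (tm k) x z b b, ENNReal.toReal_mul, ENNReal.toReal_prod,
        ENNReal.toReal_ofReal (pn_nonneg _ half_mem _ _ _)]
      congr 1
      exact Finset.prod_congr rfl fun j _ => ENNReal.toReal_ofReal (pn_nonneg w hw _ _ _)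
    rw [e1]
    have h1 : c ^ d ≤ ∏ j, pn w (tm k) (x j) b := by
      calc c ^ d = ∏ _j : Fin d, c := by rw [Finset.prod_const, Finset.card_univ, Fintype.card_fin]
        _ ≤ _ := by
          refine Finset.prod_le_prod (fun _ _ => hc.le) fun j _ => ?_
          refine hG.1 (tm k) (htmT k) (htm2 k hk) (x j) (hx j) ?_
          rw [show b - x j - ((tm k : ℕ) : ℤ) = (b - z - ((tm k : ℕ) : ℤ)) - (x j - z) by ring]
          exact (heven k).sub (hpar j)
    have h2 : c0 / (2 * S) ≤ pn (fun _ => 1 / 2) (tm k) z b := by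
      have h3 := hlow (tm k) (hTn.trans (htmT k)) z b (by
        have h4 : |(z : ℝ) - b| ≤ |(z : ℝ)| + |(b : ℝ)| := abs_sub _ _
        have h5 : |(z : ℝ)| ≤ t := by exact_mod_cast hz
        have h6 := hG.2
        have h7 : A * Real.sqrt T ≤ A * Real.sqrt (tm k : ℝ) :=
          mul_le_mul_of_nonneg_left (hSt k) hA.le
        linarith) (by
        rw [show z - b - ((tm k : ℕ) : ℤ) = -(b - z - ((tm k : ℕ) : ℤ)) - 2 * (tm k : ℕ) by ring]
        exact (heven k).neg.sub (even_two_mul _))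
      refine le_trans ?_ h3
      exact div_le_div_of_nonneg_left hc0.le (hS0.trans_le (hSt k)) (hSt2 k hk)
    exact mul_le_mul h1 h2 (by positivity) ((by positivity : (0 : ℝ) ≤ c ^ d).trans h1)
  -- upper bounds
  have hupp : ∀ k l, k ≤ l → l < K → (nz d).real (E k ∩ E l) ≤
      C / S * (if l - k = 0 then 1 else C / Real.sqrt ((l - k : ℕ) : ℝ)) := by
    intro k l hkl hl
    have h1 : (nz d).real (E k ∩ E l) ≤ pn (fun _ => 1 / 2) (tm k) z b *
        pn (fun _ => 1 / 2) (2 * (l - k)) b b := by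
      have h2 : nz d (E k ∩ E l) ≤ ENNReal.ofReal (pn (fun _ => 1 / 2) (tm k) z b) *
          ENNReal.ofReal (pn (fun _ => 1 / 2) (2 * (l - k)) b b) := by
        rw [← law2 (fun _ => 1 / 2) half_mem (tm k) (2 * (l - k)) z b b]
        have hms : MeasurableSet {u : ℕ → ℝ | path (fun _ => 1 / 2) z u (tm k) = b ∧
            path (fun _ => 1 / 2) z u (tm k + 2 * (l - k)) = b} :=
          (path_meas _ z _ (measurableSet_singleton b)).inter
            (path_meas _ z _ (measurableSet_singleton b))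
        rw [← (snd_mp d).measure_preimage hms.nullMeasurableSet]
        refine measure_mono ?_
        rintro u ⟨hu1, hu2⟩
        refine ⟨hu1.2, ?_⟩
        have h3 : tm k + 2 * (l - k) = tm l := by simp only [htm]; omega
        show path (fun _ => 1 / 2) z (fun i => (u i).2) (tm k + 2 * (l - k)) = b
        rw [h3]
        exact hu2.2
      rw [measureReal_def]
      refine (ENNReal.toReal_mono (ENNReal.mul_ne_top ENNReal.ofReal_ne_top
        ENNReal.ofReal_ne_top) h2).trans (le_of_eq ?_)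
      rw [ENNReal.toReal_mul, ENNReal.toReal_ofReal (pn_nonneg _ half_mem _ _ _),
        ENNReal.toReal_ofReal (pn_nonneg _ half_mem _ _ _)]
    refine h1.trans (mul_le_mul ?_ ?_ (pn_nonneg _ half_mem _ _ _) (by positivity))
    · refine (hup (tm k) (by have := htmT k; omega) z b).trans ?_
      exact div_le_div_of_nonneg_left hC.le hS0 (hSt k)
    · split_ifs with h4
      · rw [h4, mul_zero]
        have : pn (fun _ => 1 / 2) 0 b b = 1 := if_pos rfl
        rw [this]
      · refine (hup (2 * (l - k)) (by omega) b b).trans ?_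
        refine div_le_div_of_nonneg_left hC.le (Real.sqrt_pos.2 (by
          exact_mod_cast Nat.pos_of_ne_zero h4)) (Real.sqrt_le_sqrt ?_)
        exact_mod_cast (by omega : l - k ≤ 2 * (l - k))
  have hpairs := sum_pairs K (fun k l => (nz d).real (E k ∩ E l))
    (fun m => if m = 0 then 1 else C / Real.sqrt m) (C / S) (1 + 2 * C * S) (by positivity)
    (fun k l => by rw [Set.inter_comm])
    (fun k l => measureReal_nonneg) hupp (fun k hk => by
      refine (sum_sqrt C hC.le k).trans ?_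
      have : Real.sqrt (k : ℝ) ≤ S := Real.sqrt_le_sqrt (by
        have : k ≤ T := by omega
        exact_mod_cast this)
      nlinarith)
  have hsum : a * S ≤ ∑ k ∈ Finset.range K, (nz d).real (E k) := by
    refine le_trans ?_ (Finset.sum_le_sum hlo)
    rw [Finset.sum_const, Finset.card_range, nsmul_eq_mul]
    have h1 : (T : ℝ) / 3 ≤ K := by
      have : T ≤ 3 * K := by omega
      have h2 : (T : ℝ) ≤ 3 * K := by exact_mod_cast this
      linarith
    have h3 : a * S = (T : ℝ) / 3 * (c ^ d * (c0 / (2 * S))) := by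
      rw [ha, ← hS2]
      field_simp
      ring
    rw [h3]
    exact mul_le_mul_of_nonneg_right h1 (by positivity)
  have hss : ∑ k ∈ Finset.range K, ∑ l ∈ Finset.range K, (nz d).real (E k ∩ E l) ≤
      K2 * S ^ 2 := by
    refine hpairs.trans ?_
    have h1 : 2 * (K : ℝ) ≤ S ^ 2 := by
      rw [hS2]
      exact_mod_cast (by omega : 2 * K ≤ T)
    calc 2 * (K * (C / S * (1 + 2 * C * S))) = 2 * K * (C / S * (1 + 2 * C * S)) := by ring
      _ ≤ S ^ 2 * (C / S * (1 + 2 * C * S)) := mul_le_mul_of_nonneg_right h1 (by positivity)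
      _ = C * (S * (1 + 2 * C * S)) := by field_simp
      _ ≤ C * (S * (S + 2 * C * S)) := by gcongr
      _ = K2 * S ^ 2 := by rw [hK2]; ring
  have hfin := second (nz d) (Finset.range K) E hEm (a / (K2 * S))
  have hl0 : 0 < a / (K2 * S) := by positivity
  have hreal : a ^ 2 / K2 ≤ (nz d).real (⋃ k ∈ Finset.range K, E k) := by
    refine le_trans ?_ hfin
    have h1 : 2 * (a / (K2 * S)) * (a * S) ≤
        2 * (a / (K2 * S)) * ∑ k ∈ Finset.range K, (nz d).real (E k) :=
      mul_le_mul_of_nonneg_left hsum (by positivity)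
    have h2 : (a / (K2 * S)) ^ 2 * ∑ k ∈ Finset.range K, ∑ l ∈ Finset.range K,
        (nz d).real (E k ∩ E l) ≤ (a / (K2 * S)) ^ 2 * (K2 * S ^ 2) :=
      mul_le_mul_of_nonneg_left hss (by positivity)
    have h3 : 2 * (a / (K2 * S)) * (a * S) - (a / (K2 * S)) ^ 2 * (K2 * S ^ 2) = a ^ 2 / K2 := by
      field_simp
      ring
    linarith
  have hsub : (⋃ k ∈ Finset.range K, E k) ⊆ {u | ∃ n ≤ 2 * T, Coll w x z u n} := by
    intro u hu
    obtain ⟨k, hk, hu⟩ := Set.mem_iUnion₂.1 hu
    refine ⟨tm k, htm2 k (Finset.mem_range.1 hk), fun j => ?_⟩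
    rw [hu.1 j]
    exact hu.2.symm
  refine le_trans ?_ (measure_mono hsub)
  rw [measureReal_def] at hreal
  exact (ENNReal.ofReal_le_ofReal hreal).trans (ENNReal.ofReal_toReal (measure_ne_top _ _)).le

end Pool.Agent.H96.RW
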