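import Pool.Agent.H96.RW.Block
import Pool.Agent.H96.RW.Bc
import Pool.Agent.H96.RW.Good
import Pool.Agent.H96.RW.Win
import Pool.Agent.H96.RW.Inf

/-! # Assembly: infinitely many collisions at `κ = 1/2` -/

namespace Pool.Agent.H96.RW

open MeasureTheory ProbabilityTheory Filter Topology
open scoped ENNReal

theorem Sm_meas (k : ℕ) : Measurable fun x : ℕ → ℝ => Sm x k := by
  unfold Sm
  exact Finset.measurable_sum _ fun i _ => measurable_pi_apply i

theorem Blk_meas (m : ℕ) (h A G : ℝ) : MeasurableSet {x : ℕ → ℝ | Blk m h A G x} := by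
  have e : {x : ℕ → ℝ | Blk m h A G x} = ⋃ n : ℕ, ⋃ r : ℕ, {x : ℕ → ℝ |
      m ≤ n ∧ n ≤ 2 * m ∧ n < r ∧ r ≤ 3 * m ∧
      (∑ i ∈ Finset.range (n + 1), Real.exp (-(Sm x i - Sm x n)) ≤ A) ∧
      (∃ i < n, h ≤ Sm x i - Sm x n) ∧
      (∑ i ∈ Finset.range n, ∑ j ∈ Finset.range (i + 1), Real.exp (Sm x i - Sm x j) ≤ G) ∧
      h ≤ Sm x r - Sm x n ∧
      (∑ i ∈ Finset.Icc n r, Real.exp (-(Sm x i - Sm x n)) ≤ A)} := by
    ext x
    simp only [Blk, Set.mem_setOf_eq, Set.mem_iUnion]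
  rw [e]
  refine MeasurableSet.iUnion fun n => MeasurableSet.iUnion fun r => ?_
  have hS := Sm_meas
  refine MeasurableSet.inter (MeasurableSet.const _) ?_
  refine MeasurableSet.inter (MeasurableSet.const _) ?_
  refine MeasurableSet.inter (MeasurableSet.const _) ?_
  refine MeasurableSet.inter (MeasurableSet.const _) ?_
  refine MeasurableSet.inter (measurableSet_le (Finset.measurable_sum _ fun i _ =>
    Real.measurable_exp.comp ((hS i).sub (hS n)).neg) measurable_const) ?_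
  refine MeasurableSet.inter ?_ ?_
  · have e2 : {x : ℕ → ℝ | ∃ i < n, h ≤ Sm x i - Sm x n} =
        ⋃ i : ℕ, {x : ℕ → ℝ | i < n ∧ h ≤ Sm x i - Sm x n} := by
      ext x
      simp
    have e3 : MeasurableSet {x : ℕ → ℝ | ∃ i < n, h ≤ Sm x i - Sm x n} := by
      rw [e2]
      exact MeasurableSet.iUnion fun i => MeasurableSet.inter (MeasurableSet.const _)
        (measurableSet_le measurable_const ((hS i).sub (hS n)))
    exact e3
  refine MeasurableSet.inter (measurableSet_le (Finset.measurable_sum _ fun i _ =>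
    Finset.measurable_sum _ fun j _ =>
      Real.measurable_exp.comp ((hS i).sub (hS j))) measurable_const) ?_
  refine MeasurableSet.inter (measurableSet_le measurable_const ((hS r).sub (hS n))) ?_
  exact measurableSet_le (Finset.measurable_sum _ fun i _ =>
    Real.measurable_exp.comp ((hS i).sub (hS n)).neg) measurable_const

theorem Sm_congr {x y : ℕ → ℝ} {N k : ℕ} (h : ∀ i < N, x i = y i) (hk : k ≤ N) :
    Sm x k = Sm y k := by
  unfold Sm
  exact Finset.sum_congr rfl fun i hi => h i (lt_of_lt_of_le (Finset.mem_range.mp hi) hk)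

theorem Blk_mono {m : ℕ} {h A G : ℝ} {x y : ℕ → ℝ} (hxy : ∀ i < 3 * m, x i = y i)
    (hB : Blk m h A G x) : Blk m h A G y := by
  obtain ⟨n, r, h1, h2, h3, h4, h5, ⟨i, hi, h6⟩, h7, h8, h9⟩ := hB
  have e : ∀ k, k ≤ 3 * m → Sm x k = Sm y k := fun k hk => Sm_congr hxy hk
  have en : Sm x n = Sm y n := e n (by omega)
  refine ⟨n, r, h1, h2, h3, h4, ?_, ⟨i, hi, ?_⟩, ?_, ?_, ?_⟩
  · rw [← en]
    refine le_trans (le_of_eq (Finset.sum_congr rfl fun k hk => ?_)) h5
    rw [e k (by have := Finset.mem_range.mp hk; omega)]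
  · rw [← en, ← e i (by omega)]
    exact h6
  · refine le_trans (le_of_eq (Finset.sum_congr rfl fun k hk =>
      Finset.sum_congr rfl fun j hj => ?_)) h7
    have hk' := Finset.mem_range.mp hk
    have hj' := Finset.mem_range.mp hj
    rw [e k (by omega), e j (by omega)]
  · rw [← en, ← e r h4]
    exact h8
  · rw [← en]
    refine le_trans (le_of_eq (Finset.sum_congr rfl fun k hk => ?_)) h9
    rw [e k (by have := (Finset.mem_Icc.mp hk).2; omega)]

theorem Blk_congr {m : ℕ} {h A G : ℝ} {x y : ℕ → ℝ} (hxy : ∀ i < 3 * m, x i = y i) :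
    Blk m h A G x ↔ Blk m h A G y :=
  ⟨Blk_mono hxy, Blk_mono fun i hi => (hxy i hi).symm⟩

theorem collisions (d : ℕ) (p : Measure ℝ) [IsProbabilityMeasure p] (ε : ℝ) (hε : 0 < ε)
    (hε2 : ε < 1 / 2) (hp : ∀ᵐ a ∂p, ε ≤ a ∧ a ≤ 1 - ε)
    (hlog : ∫ a, Real.log ((1 - a) / a) ∂p < 0)
    (hκ : ∫ a, ((1 - a) / a) ^ (1 / 2 : ℝ) ∂p = 1)
    (x : Fin d → ℤ) (z : ℤ) (hx : ∀ j, Even (x j - z)) :
    ∀ᵐ w ∂(Measure.infinitePi fun _ : ℤ => p), ∀ᵐ u ∂(nz d), ∃ᶠ n in atTop, Coll w x z u n := by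
  -- the law of the steps of the potential
  let f : ℝ → ℝ := fun a => Real.log ((1 - a) / a)
  have hf : Measurable f := Real.measurable_log.comp
    ((measurable_const.sub measurable_id).div measurable_id)
  let μ : Measure ℝ := p.map f
  have hμ : IsProbabilityMeasure μ := Measure.isProbabilityMeasure_map hf.aemeasurable
  have hratio : ∀ a, ε ≤ a ∧ a ≤ 1 - ε → 0 < (1 - a) / a := by
    intro a ha
    exact div_pos (by linarith [ha.2]) (by linarith [ha.1])
  have hb : ∀ a, ε ≤ a ∧ a ≤ 1 - ε → |f a| ≤ Real.log (1 / ε) := by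
    intro a ha
    have ha0 : 0 < a := by linarith [ha.1]
    have ha1 : 0 < 1 - a := by linarith [ha.2]
    have h1 : Real.log ((1 - a) / a) = Real.log (1 - a) - Real.log a :=
      Real.log_div ha1.ne' ha0.ne'
    have h2 : Real.log (1 / ε) = - Real.log ε := by rw [one_div, Real.log_inv]
    have h3 : Real.log ε ≤ Real.log a := Real.log_le_log hε ha.1
    have h4 : Real.log ε ≤ Real.log (1 - a) := Real.log_le_log hε (by linarith [ha.2])
    have h5 : Real.log a ≤ 0 := Real.log_nonpos ha0.le (by linarith)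
    have h6 : Real.log (1 - a) ≤ 0 := Real.log_nonpos ha1.le (by linarith)
    show |Real.log ((1 - a) / a)| ≤ _
    rw [h1, h2, abs_le]
    constructor <;> linarith
  have hL : ∀ᵐ y ∂μ, |y| ≤ Real.log (1 / ε) := by
    rw [ae_map_iff hf.aemeasurable (measurableSet_le (by fun_prop) measurable_const)]
    filter_upwards [hp] with a ha using hb a ha
  have h1 : ∫ y, Real.exp (y / 2) ∂μ = 1 := by
    rw [integral_map hf.aemeasurable (by fun_prop), ← hκ]
    refine integral_congr_ae ?_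
    filter_upwards [hp] with a ha
    have hr := hratio a ha
    show Real.exp (Real.log ((1 - a) / a) / 2) = _
    rw [Real.rpow_def_of_pos hr]
    congr 1
    ring
  have h2 : ∫ y, y ∂μ < 0 := by
    rw [integral_map hf.aemeasurable (by fun_prop)]
    exact hlog
  obtain ⟨A, C, K₀, hA, hC, hK0, hblk⟩ := block_prob μ (Real.log (1 / ε)) hL h1 h2
  -- choice of K
  obtain ⟨K, hK1, hKK, hKbig⟩ : ∃ K : ℝ, 1 ≤ K ∧ K₀ ≤ K ∧
      2 * (1 + 1 / ε) * (4 * (C * Real.sqrt K / ε + 2) + 1) ≤ K := by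
    have hdiv : Tendsto (fun s : ℝ => s ^ 2 - 2 * (1 + 1 / ε) * (4 * (C * s / ε + 2) + 1))
        atTop atTop := by
      have : (fun s : ℝ => s ^ 2 - 2 * (1 + 1 / ε) * (4 * (C * s / ε + 2) + 1)) =
          fun s : ℝ => s * (s - 2 * (1 + 1 / ε) * (4 * (C / ε))) + (-(2 * (1 + 1 / ε) * 9)) := by
        funext s
        ring
      rw [this]
      refine tendsto_atTop_add_const_right _ _ ?_
      exact tendsto_id.atTop_mul_atTop₀ (tendsto_atTop_add_const_right _ _ tendsto_id)
    obtain ⟨s, hs⟩ := ((hdiv.eventually (eventually_ge_atTop 0)).and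
      (eventually_ge_atTop (1 + K₀))).exists
    have hs1 : 1 ≤ s := by linarith [hs.2]
    refine ⟨s ^ 2, by nlinarith, ?_, ?_⟩
    · nlinarith [hs.2]
    · rw [Real.sqrt_sq (by linarith)]
      have := hs.1
      linarith
  obtain ⟨c, hc, m₀, hprob⟩ := hblk K hKK
  -- the block events in terms of the environment
  let D : ℕ → Set (ℕ → ℝ) := fun m =>
    {v | Blk m (Real.log (K * m ^ 2)) A (C * Real.sqrt K * m ^ 2) (fun i => f (v i))}
  have hfm : Measurable fun v : ℕ → ℝ => fun i => f (v i) :=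
    measurable_pi_lambda _ fun i => hf.comp (measurable_pi_apply i)
  have hDm : ∀ m, MeasurableSet (D m) := fun m => (Blk_meas m _ _ _).preimage hfm
  have hD : ∀ m, ∀ x y : ℕ → ℝ, (∀ i < 3 * m, x i = y i) → (x ∈ D m ↔ y ∈ D m) := by
    intro m x y hxy
    exact Blk_congr fun i hi => by simp only [hxy i hi]
  have hDc : ∀ m, m₀ ≤ m → ENNReal.ofReal c ≤ (Measure.infinitePi fun _ : ℕ => p) (D m) := by
    intro m hm
    have h3 := hprob m hm
    have h4 : (Measure.infinitePi fun _ : ℕ => μ) =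
        (Measure.infinitePi fun _ : ℕ => p).map fun v => fun i => f (v i) := by
      exact (Measure.infinitePi_map_pi (fun _ : ℕ => p) (fun _ => hf)).symm
    rw [h4, Measure.map_apply hfm (Blk_meas m _ _ _)] at h3
    exact h3
  have henv := env_bc p ε hε hε2 hp hlog c hc m₀ D hDm hD hDc
  have hell : ∀ᵐ w ∂(Measure.infinitePi fun _ : ℤ => p), ∀ i : ℤ, ε ≤ w i ∧ w i ≤ 1 - ε := by
    rw [ae_all_iff]
    intro i
    have h5 := (measurePreserving_eval_infinitePi (fun _ : ℤ => p) i).quasiMeasurePreserving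
    exact h5.ae hp
  filter_upwards [henv, hell] with w hw hwε
  obtain ⟨hsum, hw2⟩ := hw
  have hw01 : ∀ y, 0 ≤ w y ∧ w y ≤ 1 := fun y =>
    ⟨by linarith [(hwε y).1], by linarith [(hwε y).2]⟩
  obtain ⟨c₁, hc₁, T₀, hwin⟩ := window d (1 / (8 * (4 * A + 1))) 2 (by positivity) (by norm_num)
  refine inf_often d w c₁ hc₁ (fun t => ?_) x z hx
  obtain ⟨a, m, hNa, ham, hG, hY, hB⟩ := hw2 (max (max t T₀) 1)
  have ht : t ≤ a := le_trans (le_trans (le_max_left _ _) (le_max_left _ _)) hNa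
  have hT : T₀ ≤ a := le_trans (le_trans (le_max_right _ _) (le_max_left _ _)) hNa
  have h1a : 1 ≤ a := le_trans (le_max_right _ _) hNa
  obtain ⟨T, b, hmT, hgood⟩ := block_good ε hε hε2 w hwε A C K hA hC hK1 hKbig a m t ht ham
    (h1a.trans ham) hsum hG hY hB
  exact ⟨2 * T, fun x' z' hx' hz' hpar => hwin w hw01 t T b (hT.trans (ham.trans hmT)) hgood x' z'
    hx' hz' hpar⟩

end Pool.Agent.H96.RW
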