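import Pool.Agent.H96.RW.Defs

/-! # Joint measurability of the walks in environment and noise -/

namespace Pool.Agent.H96.RW

open MeasureTheory ProbabilityTheory Filter Topology
open scoped ENNReal

theorem path_joint (x : ℤ) (n : ℕ) :
    Measurable fun q : (ℤ → ℝ) × (ℕ → ℝ) => path q.1 x q.2 n := by
  have hev : Measurable fun r : (ℤ → ℝ) × ℤ => r.1 r.2 :=
    measurable_from_prod_countable_left fun k => measurable_pi_apply k
  induction n with
  | zero => exact measurable_const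
  | succ n ih =>
    have h1 : Measurable fun q : (ℤ → ℝ) × (ℕ → ℝ) => q.1 (path q.1 x q.2 n) :=
      hev.comp (measurable_fst.prodMk ih)
    have h2 : Measurable fun q : (ℤ → ℝ) × (ℕ → ℝ) => q.2 n :=
      (measurable_pi_apply n).comp measurable_snd
    exact Measurable.ite (measurableSet_lt h2 h1) (ih.add_const 1) (ih.sub_const 1)

theorem coll_joint {d : ℕ} (x : Fin d → ℤ) (z : ℤ) (n : ℕ) :
    MeasurableSet {q : (ℤ → ℝ) × (ℕ → (Fin d → ℝ) × ℝ) | Coll q.1 x z q.2 n} := by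
  have e : {q : (ℤ → ℝ) × (ℕ → (Fin d → ℝ) × ℝ) | Coll q.1 x z q.2 n} = ⋂ j : Fin d,
      {q : (ℤ → ℝ) × (ℕ → (Fin d → ℝ) × ℝ) |
        path q.1 (x j) (fun k => (q.2 k).1 j) n = path (fun _ => 1 / 2) z (fun k => (q.2 k).2) n} := by
    ext q
    simp [Coll]
  rw [e]
  refine MeasurableSet.iInter fun j => measurableSet_eq_fun ?_ ?_
  · have h : Measurable fun q : (ℤ → ℝ) × (ℕ → (Fin d → ℝ) × ℝ) =>
        (q.1, fun k => (q.2 k).1 j) := by
      refine measurable_fst.prodMk (measurable_pi_lambda _ fun k => ?_)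
      exact (measurable_pi_apply j).comp
        (measurable_fst.comp ((measurable_pi_apply k).comp measurable_snd))
    exact (path_joint (x j) n).comp h
  · have h : Measurable fun q : (ℤ → ℝ) × (ℕ → (Fin d → ℝ) × ℝ) =>
        ((fun _ : ℤ => (1 / 2 : ℝ)), fun k => (q.2 k).2) := by
      refine measurable_const.prodMk (measurable_pi_lambda _ fun k => ?_)
      exact measurable_snd.comp ((measurable_pi_apply k).comp measurable_snd)
    exact (path_joint z n).comp h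

theorem freq_joint {d : ℕ} (x : Fin d → ℤ) (z : ℤ) :
    MeasurableSet {q : (ℤ → ℝ) × (ℕ → (Fin d → ℝ) × ℝ) | ∃ᶠ n in atTop, Coll q.1 x z q.2 n} := by
  have e : {q : (ℤ → ℝ) × (ℕ → (Fin d → ℝ) × ℝ) | ∃ᶠ n in atTop, Coll q.1 x z q.2 n} =
      ⋂ N : ℕ, ⋃ n : ℕ, {q : (ℤ → ℝ) × (ℕ → (Fin d → ℝ) × ℝ) | N ≤ n ∧ Coll q.1 x z q.2 n} := by
    ext q
    simp [frequently_atTop]
  rw [e]
  exact MeasurableSet.iInter fun N => MeasurableSet.iUnion fun n =>
    MeasurableSet.inter (MeasurableSet.const _) (coll_joint x z n)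

theorem annealed {d : ℕ} (P : Measure (ℤ → ℝ)) [SFinite P] (x : Fin d → ℤ) (z : ℤ)
    (h : ∀ᵐ w ∂P, ∀ᵐ u ∂(nz d), ∃ᶠ n in atTop, Coll w x z u n) :
    ∀ᵐ q ∂(P.prod (nz d)), ∃ᶠ n in atTop, Coll q.1 x z q.2 n :=
  (Measure.ae_prod_iff_ae_ae (freq_joint x z)).mpr h

end Pool.Agent.H96.RW
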