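import Pool.Agent.H96.RW.Defs

/-!
# Hitting times (DC)
-/

namespace Pool.Agent.H96.RW

open MeasureTheory ProbabilityTheory Filter Topology
open scoped ENNReal

theorem hb_succ_of_ne (w : ℤ → ℝ) (b : ℤ) (n : ℕ) (x : ℤ) (hx : x ≠ b) :
    hb w b (n + 1) x = w x * hb w b n (x + 1) + (1 - w x) * hb w b n (x - 1) := by
  simp [hb, hx]

theorem hb_self (w : ℤ → ℝ) (b : ℤ) (n : ℕ) : hb w b n b = 0 := by
  cases n <;> simp [hb]

theorem hb_zero_of_ne (w : ℤ → ℝ) (b x : ℤ) (hx : x ≠ b) : hb w b 0 x = 1 := by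
  simp [hb, hx]

theorem hb_nonneg (w : ℤ → ℝ) (hw : ∀ x, 0 ≤ w x ∧ w x ≤ 1) (b : ℤ) (n : ℕ) :
    ∀ x, 0 ≤ hb w b n x := by
  induction n with
  | zero =>
    intro x
    by_cases hx : x = b
    · subst hx; rw [hb_self]
    · rw [hb_zero_of_ne w b x hx]; norm_num
  | succ n ih =>
    intro x
    by_cases hx : x = b
    · subst hx; rw [hb_self]
    · rw [hb_succ_of_ne w b n x hx]
      have h1 := mul_nonneg (hw x).1 (ih (x + 1))
      have h2 := mul_nonneg (sub_nonneg.2 (hw x).2) (ih (x - 1))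
      linarith

theorem hb_le_one (w : ℤ → ℝ) (hw : ∀ x, 0 ≤ w x ∧ w x ≤ 1) (b : ℤ) (n : ℕ) :
    ∀ x, hb w b n x ≤ 1 := by
  induction n with
  | zero =>
    intro x
    by_cases hx : x = b
    · subst hx; rw [hb_self]; norm_num
    · rw [hb_zero_of_ne w b x hx]
  | succ n ih =>
    intro x
    by_cases hx : x = b
    · subst hx; rw [hb_self]; norm_num
    · rw [hb_succ_of_ne w b n x hx]
      have h1 := mul_le_mul_of_nonneg_left (ih (x + 1)) (hw x).1
      have h2 := mul_le_mul_of_nonneg_left (ih (x - 1)) (sub_nonneg.2 (hw x).2)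
      linarith

theorem hb_succ_le (w : ℤ → ℝ) (hw : ∀ x, 0 ≤ w x ∧ w x ≤ 1) (b : ℤ) (n : ℕ) :
    ∀ x, hb w b (n + 1) x ≤ hb w b n x := by
  induction n with
  | zero =>
    intro x
    by_cases hx : x = b
    · subst hx; rw [hb_self, hb_self]
    · rw [hb_zero_of_ne w b x hx]
      exact hb_le_one w hw b 1 x
  | succ n ih =>
    intro x
    by_cases hx : x = b
    · subst hx; rw [hb_self, hb_self]
    · rw [hb_succ_of_ne w b (n + 1) x hx, hb_succ_of_ne w b n x hx]
      have h1 := mul_le_mul_of_nonneg_left (ih (x + 1)) (hw x).1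
      have h2 := mul_le_mul_of_nonneg_left (ih (x - 1)) (sub_nonneg.2 (hw x).2)
      linarith

theorem hb_anti (w : ℤ → ℝ) (hw : ∀ x, 0 ≤ w x ∧ w x ≤ 1) (b x : ℤ) :
    Antitone fun n => hb w b n x :=
  antitone_nat_of_succ_le fun n => hb_succ_le w hw b n x

theorem sum_hb_le (w : ℤ → ℝ) (hw : ∀ x, 0 ≤ w x ∧ w x ≤ 1) (b : ℤ) (g : ℤ → ℝ)
    (hg0 : ∀ x, x ≤ b → 0 ≤ g x)
    (hg : ∀ x, x < b → 1 + w x * g (x + 1) + (1 - w x) * g (x - 1) ≤ g x)
    (n : ℕ) : ∀ x, x ≤ b → ∑ k ∈ Finset.range n, hb w b k x ≤ g x := by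
  induction n with
  | zero => intro x hx; simpa using hg0 x hx
  | succ n ih =>
    intro x hx
    rcases hx.eq_or_lt with rfl | hlt
    · simp only [hb_self, Finset.sum_const_zero]
      exact hg0 _ le_rfl
    · rw [Finset.sum_range_succ']
      have e : ∀ k ∈ Finset.range n, hb w b (k + 1) x =
          w x * hb w b k (x + 1) + (1 - w x) * hb w b k (x - 1) := fun k _ =>
        hb_succ_of_ne w b k x hlt.ne
      rw [Finset.sum_congr rfl e, Finset.sum_add_distrib, ← Finset.mul_sum, ← Finset.mul_sum,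
        hb_zero_of_ne w b x hlt.ne]
      have h1 := mul_le_mul_of_nonneg_left (ih (x + 1) (by omega)) (hw x).1
      have h2 := mul_le_mul_of_nonneg_left (ih (x - 1) (by omega)) (sub_nonneg.2 (hw x).2)
      linarith [hg x hlt]

theorem hit (w : ℤ → ℝ) (hw : ∀ x, 0 ≤ w x ∧ w x ≤ 1) (b : ℤ) (g : ℤ → ℝ) (hg0 : ∀ x, x ≤ b → 0 ≤ g x)
    (hg : ∀ x, x < b → 1 + w x * g (x + 1) + (1 - w x) * g (x - 1) ≤ g x)
    (n : ℕ) (x : ℤ) (hx : x ≤ b) : n * hb w b n x ≤ g x := by
  refine le_trans ?_ (sum_hb_le w hw b g hg0 hg n x hx)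
  have h : ∑ _k ∈ Finset.range n, hb w b n x ≤ ∑ k ∈ Finset.range n, hb w b k x :=
    Finset.sum_le_sum fun k hk => hb_anti w hw b x (Finset.mem_range.1 hk).le
  simpa using h

theorem hit_ret (w : ℤ → ℝ) (hw : ∀ x, 0 ≤ w x ∧ w x ≤ 1) (b : ℤ) (c : ℝ) (hc0 : 0 ≤ c) (n : ℕ)
    (hc : ∀ j : ℕ, 2 * j ≤ n → c ≤ pn w (2 * j) b b) (x : ℤ) (hx : x ≤ b)
    (hpar : Even (b - x - n)) : (1 - hb w b n x) * c ≤ pn w n x b := by
  have _ := hc0
  induction n generalizing x with
  | zero =>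
    by_cases h : x = b
    · subst h
      rw [hb_self]
      have := hc 0 (by omega)
      simpa using this
    · rw [hb_zero_of_ne w b x h]
      simp [pn, h]
  | succ n ih =>
    rcases hx.eq_or_lt with rfl | hlt
    · rw [hb_self]
      have hev : Even (n + 1) := by
        rcases hpar with ⟨k, hk⟩
        push_cast at hk
        exact ⟨(-k).toNat, by omega⟩
      obtain ⟨k, hk⟩ := hev
      have h2 : n + 1 = 2 * k := by omega
      have := hc k (by omega)
      rw [h2]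
      simpa using this
    · rw [hb_succ_of_ne w b n x hlt.ne]
      have hc' : ∀ j : ℕ, 2 * j ≤ n → c ≤ pn w (2 * j) b b := fun j hj => hc j (by omega)
      have p1 : Even (b - (x + 1) - (n : ℤ)) := by
        rcases hpar with ⟨k, hk⟩
        push_cast at hk
        exact ⟨k, by linarith⟩
      have p2 : Even (b - (x - 1) - (n : ℤ)) := by
        rcases hpar with ⟨k, hk⟩
        push_cast at hk
        exact ⟨k + 1, by linarith⟩
      have i1 := ih hc' (x + 1) (by omega) p1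
      have i2 := ih hc' (x - 1) (by omega) p2
      have h1 := mul_le_mul_of_nonneg_left i1 (hw x).1
      have h2 := mul_le_mul_of_nonneg_left i2 (sub_nonneg.2 (hw x).2)
      simp only [pn]
      nlinarith [h1, h2]

end Pool.Agent.H96.RW
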