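import Pool.Agent.H96.RW.Green1
import Pool.Agent.H96.RW.Green2

/-!
# Rises and the double sum in the part of the block before the bottom
-/

set_option autoImplicit false

namespace Pool.Agent.H96.RW

open MeasureTheory ProbabilityTheory Filter Topology
open scoped ENNReal

namespace LA

variable (μ : Measure ℝ) [IsProbabilityMeasure μ]

theorem measurable_sh (i : ℕ) : Measurable (fun (x : ℕ → ℝ) (k : ℕ) => x (i + k)) :=
  measurable_pi_iff.2 fun k => measurable_pi_apply (i + k)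

theorem shift1 : MeasurePreserving (fun (x : ℕ → ℝ) (k : ℕ) => x (k + 1))
    (Measure.infinitePi fun _ : ℕ => μ) (Measure.infinitePi fun _ : ℕ => μ) := by
  have hm : Measurable (fun (x : ℕ → ℝ) (k : ℕ) => x (k + 1)) :=
    measurable_pi_iff.2 fun k => measurable_pi_apply (k + 1)
  refine ⟨hm, ?_⟩
  conv_lhs => rw [← cns_map μ]
  rw [Measure.map_map hm measurable_cns]
  have h : (fun (x : ℕ → ℝ) (k : ℕ) => x (k + 1)) ∘ cns =
      (Prod.snd : ℝ × (ℕ → ℝ) → (ℕ → ℝ)) := by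
    ext p k
    rfl
  rw [h]
  exact measurePreserving_snd.map_eq

/-- The shift preserves the law of an i.i.d. sequence. -/
theorem shift_mp (i : ℕ) : MeasurePreserving (fun (x : ℕ → ℝ) (k : ℕ) => x (i + k))
    (Measure.infinitePi fun _ : ℕ => μ) (Measure.infinitePi fun _ : ℕ => μ) := by
  induction i with
  | zero =>
    have h : (fun (x : ℕ → ℝ) (k : ℕ) => x (0 + k)) = id := by
      ext x k
      simp
    rw [h]
    exact MeasurePreserving.id _
  | succ i ih =>
    have h : (fun (x : ℕ → ℝ) (k : ℕ) => x (i + 1 + k)) =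
        (fun (x : ℕ → ℝ) (k : ℕ) => x (i + k)) ∘ (fun (x : ℕ → ℝ) (k : ℕ) => x (k + 1)) := by
      ext x k
      simp only [Function.comp_apply]
      congr 1
      omega
    rw [h]
    exact ih.comp (shift1 μ)

theorem Sm_sh (x : ℕ → ℝ) (i k : ℕ) : Sm (fun l => x (i + l)) k = Sm x (i + k) - Sm x i := by
  unfold Sm
  rw [Finset.sum_range_add]
  ring

/-- A rise of height `h` is unlikely. -/
theorem rise_le (L : ℝ) (hL : ∀ᵐ x ∂μ, |x| ≤ L) (h1 : ∫ x, Real.exp (x / 2) ∂μ = 1)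
    (h : ℝ) (n : ℕ) :
    (Measure.infinitePi fun _ : ℕ => μ) {x | ∃ i j, i < j ∧ j ≤ n ∧ h ≤ Sm x j - Sm x i} ≤
      ENNReal.ofReal (n * Real.exp (-h / 2)) := by
  have hms : MeasurableSet {x : ℕ → ℝ | ∃ k ≤ n, h ≤ Sm x k} := by
    have : {x : ℕ → ℝ | ∃ k ≤ n, h ≤ Sm x k} = ⋃ k : ℕ, ⋃ _ : k ≤ n, {x : ℕ → ℝ | h ≤ Sm x k} := by
      ext x
      simp
    rw [this]
    refine MeasurableSet.iUnion fun k => MeasurableSet.iUnion fun _ => ?_
    exact measurableSet_le measurable_const (Gr.measurable_Sm k)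
  have hsub : {x : ℕ → ℝ | ∃ i j, i < j ∧ j ≤ n ∧ h ≤ Sm x j - Sm x i} ⊆
      ⋃ i ∈ Finset.range n, (fun (x : ℕ → ℝ) (k : ℕ) => x (i + k)) ⁻¹'
        {x : ℕ → ℝ | ∃ k ≤ n, h ≤ Sm x k} := by
    rintro x ⟨i, j, hij, hj, hx⟩
    simp only [Set.mem_iUnion, Finset.mem_range]
    refine ⟨i, by omega, j - i, by omega, ?_⟩
    rw [Sm_sh, show i + (j - i) = j by omega]
    exact hx
  calc (Measure.infinitePi fun _ : ℕ => μ) {x | ∃ i j, i < j ∧ j ≤ n ∧ h ≤ Sm x j - Sm x i}
      ≤ (Measure.infinitePi fun _ : ℕ => μ) (⋃ i ∈ Finset.range n,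
          (fun (x : ℕ → ℝ) (k : ℕ) => x (i + k)) ⁻¹' {x : ℕ → ℝ | ∃ k ≤ n, h ≤ Sm x k}) :=
        measure_mono hsub
    _ ≤ ∑ i ∈ Finset.range n, (Measure.infinitePi fun _ : ℕ => μ)
          ((fun (x : ℕ → ℝ) (k : ℕ) => x (i + k)) ⁻¹' {x : ℕ → ℝ | ∃ k ≤ n, h ≤ Sm x k}) :=
        measure_biUnion_finset_le _ _
    _ ≤ ∑ i ∈ Finset.range n, ENNReal.ofReal (Real.exp (-h / 2)) := by
        refine Finset.sum_le_sum fun i _ => ?_
        rw [(shift_mp μ i).measure_preimage hms.nullMeasurableSet]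
        exact max_ineq μ L hL h1 h n
    _ = ENNReal.ofReal (n * Real.exp (-h / 2)) := by
        rw [Finset.sum_const, Finset.card_range, nsmul_eq_mul, ENNReal.ofReal_mul (by positivity),
          ENNReal.ofReal_natCast]

/-- The double sum is large and there is no rise of height `h`: Markov's inequality. -/
theorem dbl_le (L : ℝ) (hL : ∀ᵐ x ∂μ, |x| ≤ L) (h1 : ∫ x, Real.exp (x / 2) ∂μ = 1)
    (h2 : ∫ x, x ∂μ < 0) : ∃ C : ℝ, 0 < C ∧ ∀ (h G : ℝ) (n : ℕ), 0 < h → 0 < G →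
    (Measure.infinitePi fun _ : ℕ => μ) {x | (∀ i j, i < j → j ≤ n → Sm x j - Sm x i < h) ∧
      G < ∑ i ∈ Finset.range n, ∑ j ∈ Finset.range (i + 1), Real.exp (Sm x i - Sm x j)} ≤
      ENNReal.ofReal (n * C * Real.exp (h / 2) / G) := by
  obtain ⟨C, hC, hg⟩ := green μ L hL h1 h2
  refine ⟨C, hC, fun h G n hh hG => ?_⟩
  set F : (ℕ → ℝ) → ℝ≥0∞ := fun x => ∑ k ∈ Finset.range (n + 1), Gr.tm h k 0 x with hF
  have hFm : Measurable F := Finset.measurable_sum _ fun k _ => Gr.measurable_tm h k 0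
  have hFi : ∫⁻ x, F x ∂(Measure.infinitePi fun _ : ℕ => μ) ≤
      ENNReal.ofReal (C * Real.exp (h / 2)) := by
    refine le_trans (le_of_eq ?_) (hg h n hh.le)
    refine lintegral_congr fun x => ?_
    rw [hF]
    unfold Gr.tm
    simp only [zero_add]
  set H : (ℕ → ℝ) → ℝ≥0∞ := fun x => ∑ j ∈ Finset.range n, F (fun k => x (j + k)) with hH
  have hHm : Measurable H :=
    Finset.measurable_sum _ fun j _ => hFm.comp (measurable_sh j)
  have hHi : ∫⁻ x, H x ∂(Measure.infinitePi fun _ : ℕ => μ) ≤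
      ENNReal.ofReal (n * C * Real.exp (h / 2)) := by
    have e0 : ∫⁻ x, H x ∂(Measure.infinitePi fun _ : ℕ => μ) =
        ∑ j ∈ Finset.range n, ∫⁻ x, F (fun k => x (j + k)) ∂(Measure.infinitePi fun _ : ℕ => μ) :=
      lintegral_finset_sum _ fun j _ => hFm.comp (measurable_sh j)
    rw [e0]
    calc ∑ j ∈ Finset.range n, ∫⁻ x, F (fun k => x (j + k)) ∂(Measure.infinitePi fun _ : ℕ => μ)
        = ∑ j ∈ Finset.range n, ∫⁻ x, F x ∂(Measure.infinitePi fun _ : ℕ => μ) :=
          Finset.sum_congr rfl fun j _ => (shift_mp μ j).lintegral_comp hFm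
      _ ≤ ∑ j ∈ Finset.range n, ENNReal.ofReal (C * Real.exp (h / 2)) :=
          Finset.sum_le_sum fun j _ => hFi
      _ = ENNReal.ofReal (n * C * Real.exp (h / 2)) := by
          rw [Finset.sum_const, Finset.card_range, nsmul_eq_mul, mul_assoc,
            ENNReal.ofReal_mul (p := (n : ℝ)) (by positivity), ENNReal.ofReal_natCast]
  have hsub : {x : ℕ → ℝ | (∀ i j, i < j → j ≤ n → Sm x j - Sm x i < h) ∧
      G < ∑ i ∈ Finset.range n, ∑ j ∈ Finset.range (i + 1), Real.exp (Sm x i - Sm x j)} ⊆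
      {x | ENNReal.ofReal G ≤ H x} := by
    rintro x ⟨hx, hGx⟩
    rw [Set.mem_setOf_eq]
    refine (ENNReal.ofReal_le_ofReal hGx.le).trans ?_
    have hsw : ∑ i ∈ Finset.range n, ∑ j ∈ Finset.range (i + 1), Real.exp (Sm x i - Sm x j) =
        ∑ j ∈ Finset.range n, ∑ k ∈ Finset.range (n - j), Real.exp (Sm x (j + k) - Sm x j) := by
      rw [Finset.sum_sigma', Finset.sum_sigma']
      refine Finset.sum_bij' (fun p _ => ⟨p.2, p.1 - p.2⟩) (fun p _ => ⟨p.1 + p.2, p.1⟩) ?_ ?_ ?_ ?_ ?_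
      · rintro ⟨i, j⟩ hp
        simp only [Finset.mem_sigma, Finset.mem_range] at hp ⊢
        omega
      · rintro ⟨i, j⟩ hp
        simp only [Finset.mem_sigma, Finset.mem_range] at hp ⊢
        omega
      · rintro ⟨i, j⟩ hp
        simp only [Finset.mem_sigma, Finset.mem_range] at hp
        have : j + (i - j) = i := by omega
        simp [this]
      · rintro ⟨i, j⟩ hp
        simp
      · rintro ⟨i, j⟩ hp
        simp only [Finset.mem_sigma, Finset.mem_range] at hp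
        have : j + (i - j) = i := by omega
        simp [this]
    rw [hsw, ENNReal.ofReal_sum_of_nonneg
      (fun j _ => Finset.sum_nonneg fun k _ => (Real.exp_pos _).le), hH]
    refine Finset.sum_le_sum fun j hj => ?_
    rw [Finset.mem_range] at hj
    rw [ENNReal.ofReal_sum_of_nonneg (fun k _ => (Real.exp_pos _).le), hF]
    have hss : Finset.range (n - j) ⊆ Finset.range (n + 1) :=
      Finset.range_subset_range.2 (by omega)
    refine le_trans (Finset.sum_le_sum fun k hk => ?_)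
      (Finset.sum_le_sum_of_subset hss)
    rw [Finset.mem_range] at hk
    unfold Gr.tm
    rw [Set.indicator_of_mem]
    · rw [Sm_sh, zero_add]
    · intro l hl
      rw [Sm_sh, zero_add]
      cases l with
      | zero => simpa using hh
      | succ l => exact hx j (j + (l + 1)) (by omega) (by omega)
  calc (Measure.infinitePi fun _ : ℕ => μ) {x | (∀ i j, i < j → j ≤ n → Sm x j - Sm x i < h) ∧
      G < ∑ i ∈ Finset.range n, ∑ j ∈ Finset.range (i + 1), Real.exp (Sm x i - Sm x j)}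
      ≤ (Measure.infinitePi fun _ : ℕ => μ) {x | ENNReal.ofReal G ≤ H x} := measure_mono hsub
    _ ≤ (∫⁻ x, H x ∂(Measure.infinitePi fun _ : ℕ => μ)) / ENNReal.ofReal G :=
        meas_ge_le_lintegral_div hHm.aemeasurable
          (by rw [Ne, ENNReal.ofReal_eq_zero]; linarith) ENNReal.ofReal_ne_top
    _ ≤ ENNReal.ofReal (n * C * Real.exp (h / 2)) / ENNReal.ofReal G := by gcongr
    _ = ENNReal.ofReal (n * C * Real.exp (h / 2) / G) := (ENNReal.ofReal_div_of_pos hG).symm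

end LA

end Pool.Agent.H96.RW
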