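import Pool.Agent.H96.RW.Defs

/-!
# The part of the block before the bottom
-/

namespace Pool.Agent.H96.RW.LeftAux

open MeasureTheory ProbabilityTheory Filter Topology
open scoped ENNReal

theorem map_inj (μ : Measure ℝ) [IsProbabilityMeasure μ] (f : ℕ → ℕ)
    (hf : Function.Injective f) :
    (Measure.infinitePi fun _ : ℕ => μ).map (fun x i => x (f i)) =
      Measure.infinitePi fun _ : ℕ => μ := by
  classical
  refine Measure.eq_infinitePi _ fun s t ht => ?_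
  rw [Measure.map_apply (by fun_prop) (.pi s.countable_toSet fun _ _ => ht _)]
  have h : (fun (x : ℕ → ℝ) i => x (f i)) ⁻¹' ((s : Set ℕ).pi t) =
      ((s.image f : Finset ℕ) : Set ℕ).pi (fun j => t (Function.invFun f j)) := by
    ext x
    simp [Function.leftInverse_invFun hf _]
  rw [h, Measure.infinitePi_pi _ (fun i _ => ht _), Finset.prod_image (fun a _ b _ h => hf h)]
  simp [Function.leftInverse_invFun hf _]

theorem measurable_Sm (k : ℕ) : Measurable fun x : ℕ → ℝ => Sm x k := by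
  unfold Sm
  exact Finset.measurable_sum _ fun i _ => measurable_pi_apply i

/-- the reversal -/
def rv (n i : ℕ) : ℕ := if i < n then n - 1 - i else i

theorem rv_inj (n : ℕ) : Function.Injective (rv n) := by
  intro a b h
  unfold rv at h
  split_ifs at h <;> omega

theorem Sm_succ (x : ℕ → ℝ) (k : ℕ) : Sm x (k + 1) = Sm x k + x k := by
  unfold Sm; rw [Finset.sum_range_succ]

theorem Sm_zero (x : ℕ → ℝ) : Sm x 0 = 0 := by simp [Sm]

theorem Sm_rev (x : ℕ → ℝ) (n k : ℕ) (hk : k ≤ n) :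
    Sm (fun i => -x (rv n i)) k = Sm x (n - k) - Sm x n := by
  induction k with
  | zero => simp [Sm]
  | succ k ih =>
    rw [Sm_succ, ih (by omega)]
    have h1 : rv n k = n - 1 - k := by unfold rv; rw [if_pos (by omega)]
    have h2 : n - k = (n - 1 - k) + 1 := by omega
    have h3 : n - (k + 1) = n - 1 - k := by omega
    rw [h3, h1, h2, Sm_succ]
    ring

theorem Sm_shift (x : ℕ → ℝ) (j k : ℕ) : Sm (fun i => x (j + i)) k = Sm x (j + k) - Sm x j := by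
  unfold Sm
  rw [Finset.sum_range_add]
  ring

/-- EA for `-x`, reversed -/
theorem stepA (μ : Measure ℝ) [IsProbabilityMeasure μ] (A c : ℝ) (n : ℕ)
    (h : ENNReal.ofReal c ≤ (Measure.infinitePi fun _ : ℕ => μ.map (fun x : ℝ => -x))
      {x | (∀ k, 1 ≤ k → k ≤ n → 0 < Sm x k) ∧
        ∑ k ∈ Finset.range (n + 1), Real.exp (-Sm x k) ≤ A}) :
    ENNReal.ofReal c ≤ (Measure.infinitePi fun _ : ℕ => μ)
      {x | (∀ i < n, Sm x n < Sm x i) ∧
        ∑ i ∈ Finset.range (n + 1), Real.exp (-(Sm x i - Sm x n)) ≤ A} := by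
  have e1 : (Measure.infinitePi fun _ : ℕ => μ.map (fun x : ℝ => -x)) =
      (Measure.infinitePi fun _ : ℕ => μ).map (fun x i => -x (rv n i)) := by
    rw [← Measure.infinitePi_map_pi (fun _ => μ) (f := fun _ x => -x) (fun _ => measurable_neg)]
    conv_lhs => rw [← map_inj μ (rv n) (rv_inj n)]
    rw [Measure.map_map (by fun_prop) (by fun_prop)]
    rfl
  rw [e1, Measure.map_apply (by fun_prop)] at h
  · refine h.trans (measure_mono ?_)
    rintro x ⟨h1, h2⟩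
    refine ⟨fun i hi => ?_, ?_⟩
    · have := h1 (n - i) (by omega) (by omega)
      rw [Sm_rev x n _ (by omega)] at this
      have h3 : n - (n - i) = i := by omega
      rw [h3] at this
      linarith
    · refine le_trans (le_of_eq ?_) h2
      rw [← Finset.sum_range_reflect]
      refine Finset.sum_congr rfl fun k hk => ?_
      rw [Finset.mem_range] at hk
      rw [Sm_rev x n k (by omega)]
      rfl
  · refine MeasurableSet.inter ?_ ?_
    · have : {x : ℕ → ℝ | ∀ k, 1 ≤ k → k ≤ n → 0 < Sm x k} =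
        ⋂ k : ℕ, ⋂ _ : 1 ≤ k, ⋂ _ : k ≤ n, {x | 0 < Sm x k} := by
        ext x; simp
      refine (?_ : MeasurableSet {x : ℕ → ℝ | ∀ k, 1 ≤ k → k ≤ n → 0 < Sm x k})
      rw [this]
      exact MeasurableSet.iInter fun k => MeasurableSet.iInter fun _ =>
        MeasurableSet.iInter fun _ => measurableSet_lt measurable_const (measurable_Sm k)
    · exact measurableSet_le (Finset.measurable_sum _ fun k _ =>
        (Real.measurable_exp.comp (measurable_Sm k).neg)) measurable_const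

/-- shifts preserve the law -/
theorem shift_mp (μ : Measure ℝ) [IsProbabilityMeasure μ] (j : ℕ) :
    MeasurePreserving (fun (x : ℕ → ℝ) i => x (j + i)) (Measure.infinitePi fun _ : ℕ => μ)
      (Measure.infinitePi fun _ : ℕ => μ) :=
  ⟨by fun_prop, map_inj μ (fun i => j + i) (fun a b h => by simpa using h)⟩

/-- some rise of height `h` -/
theorem stepB (μ : Measure ℝ) [IsProbabilityMeasure μ] (h : ℝ) (n : ℕ) (q : ℝ≥0∞)
    (hmax : (Measure.infinitePi fun _ : ℕ => μ) {x | ∃ k ≤ n, h ≤ Sm x k} ≤ q) :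
    (Measure.infinitePi fun _ : ℕ => μ)
      {x | ¬ ∀ i j, i < j → j ≤ n → Sm x j - Sm x i < h} ≤ n * q := by
  have hm : MeasurableSet {x : ℕ → ℝ | ∃ k ≤ n, h ≤ Sm x k} := by
    have : {x : ℕ → ℝ | ∃ k ≤ n, h ≤ Sm x k} = ⋃ k : ℕ, ⋃ _ : k ≤ n, {x | h ≤ Sm x k} := by
      ext x; simp
    rw [this]
    exact MeasurableSet.iUnion fun k => MeasurableSet.iUnion fun _ =>
      measurableSet_le measurable_const (measurable_Sm k)
  have hsub : {x : ℕ → ℝ | ¬ ∀ i j, i < j → j ≤ n → Sm x j - Sm x i < h} ⊆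
      ⋃ i ∈ Finset.range n, (fun (x : ℕ → ℝ) l => x (i + l)) ⁻¹'
        {x : ℕ → ℝ | ∃ k ≤ n, h ≤ Sm x k} := by
    intro x hx
    simp only [Set.mem_ofPred_eq, not_forall, not_lt] at hx
    obtain ⟨i, j, hij, hjn, hle⟩ := hx
    simp only [Set.mem_iUnion, Finset.mem_range, Set.mem_preimage, Set.mem_ofPred_eq]
    refine ⟨i, by omega, j - i, by omega, ?_⟩
    rw [Sm_shift]
    have : i + (j - i) = j := by omega
    rwa [this]
  refine (measure_mono hsub).trans ((measure_biUnion_finset_le _ _).trans ?_)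
  refine (Finset.sum_le_sum fun i _ => ?_).trans (le_of_eq (by simp : ∑ i ∈ Finset.range n, q = _))
  rw [(shift_mp μ i).measure_preimage hm.nullMeasurableSet]
  exact hmax

/-- the sum in `green` -/
noncomputable def GG (h : ℝ) (n : ℕ) (x : ℕ → ℝ) : ℝ≥0∞ :=
  ∑ k ∈ Finset.range (n + 1),
    (Set.indicator {x : ℕ → ℝ | ∀ j ≤ k, Sm x j < h} (fun x => ENNReal.ofReal (Real.exp (Sm x k))) x)

theorem measurable_GG (h : ℝ) (n : ℕ) : Measurable (GG h n) := by
  unfold GG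
  refine Finset.measurable_sum _ fun k _ => ?_
  refine Measurable.indicator (ENNReal.measurable_ofReal.comp
    (Real.measurable_exp.comp (measurable_Sm k))) ?_
  have : {x : ℕ → ℝ | ∀ j ≤ k, Sm x j < h} = ⋂ j : ℕ, ⋂ _ : j ≤ k, {x | Sm x j < h} := by
    ext x; simp
  rw [this]
  exact MeasurableSet.iInter fun k => MeasurableSet.iInter fun _ =>
    measurableSet_lt (measurable_Sm k) measurable_const

/-- without rises the double sum is bounded by sums as in `green` -/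
theorem dsum_le (h : ℝ) (hh : 0 < h) (n : ℕ) (x : ℕ → ℝ)
    (hx : ∀ i j, i < j → j ≤ n → Sm x j - Sm x i < h) :
    ENNReal.ofReal (∑ i ∈ Finset.range n, ∑ j ∈ Finset.range (i + 1),
      Real.exp (Sm x i - Sm x j)) ≤
      ∑ j ∈ Finset.range n, GG h n (fun l => x (j + l)) := by
  rw [Finset.sum_comm' (s' := fun j => Finset.Ico j n) (t' := Finset.range n) (by
    intro i j
    simp only [Finset.mem_range, Finset.mem_Ico]
    omega)]
  rw [ENNReal.ofReal_sum_of_nonneg (fun i _ => Finset.sum_nonneg fun j _ => (Real.exp_pos _).le)]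
  refine Finset.sum_le_sum fun j hj => ?_
  rw [Finset.mem_range] at hj
  rw [ENNReal.ofReal_sum_of_nonneg (fun j _ => (Real.exp_pos _).le),
    Finset.sum_Ico_eq_sum_range]
  unfold GG
  refine (Finset.sum_le_sum fun k hk => ?_).trans
    (Finset.sum_le_sum_of_subset (by
      intro k hk; rw [Finset.mem_range] at hk ⊢; omega : Finset.range (n - j) ⊆ _))
  rw [Finset.mem_range] at hk
  rw [Set.indicator_of_mem]
  · rw [Sm_shift]
  · show ∀ l ≤ k, _
    intro l hl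
    rw [Sm_shift]
    rcases Nat.eq_zero_or_pos l with h0 | h0
    · subst h0; simpa using hh
    · exact hx j (j + l) (by omega) (by omega)

theorem stepC (μ : Measure ℝ) [IsProbabilityMeasure μ] (h : ℝ) (hh : 0 < h) (n : ℕ) (q : ℝ≥0∞)
    (G : ℝ) (hG : 0 < G)
    (hgreen : ∫⁻ x, GG h n x ∂(Measure.infinitePi fun _ : ℕ => μ) ≤ q) :
    (Measure.infinitePi fun _ : ℕ => μ)
      {x | (∀ i j, i < j → j ≤ n → Sm x j - Sm x i < h) ∧
        ¬ (∑ i ∈ Finset.range n, ∑ j ∈ Finset.range (i + 1), Real.exp (Sm x i - Sm x j) ≤ G)} ≤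
      n * q / ENNReal.ofReal G := by
  set P := (Measure.infinitePi fun _ : ℕ => μ) with hP
  have hF : Measurable fun x : ℕ → ℝ => ∑ j ∈ Finset.range n, GG h n (fun l => x (j + l)) :=
    Finset.measurable_sum _ fun j _ => (measurable_GG h n).comp (by fun_prop)
  have h1 : {x : ℕ → ℝ | (∀ i j, i < j → j ≤ n → Sm x j - Sm x i < h) ∧
        ¬ (∑ i ∈ Finset.range n, ∑ j ∈ Finset.range (i + 1), Real.exp (Sm x i - Sm x j) ≤ G)} ⊆
      {x | ENNReal.ofReal G ≤ ∑ j ∈ Finset.range n, GG h n (fun l => x (j + l))} := by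
    rintro x ⟨hx1, hx2⟩
    rw [not_le] at hx2
    exact (ENNReal.ofReal_le_ofReal hx2.le).trans (dsum_le h hh n x hx1)
  refine (measure_mono h1).trans ?_
  refine (meas_ge_le_lintegral_div hF.aemeasurable (by simpa using hG)
    ENNReal.ofReal_ne_top).trans ?_
  gcongr
  have hsum : ∫⁻ x, ∑ j ∈ Finset.range n, GG h n (fun l => x (j + l)) ∂P =
      ∑ j ∈ Finset.range n, ∫⁻ x, GG h n (fun l => x (j + l)) ∂P :=
    lintegral_finsetSum _ (fun j _ => (measurable_GG h n).comp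
      (g := GG h n) (f := fun (x : ℕ → ℝ) l => x (j + l)) (by fun_prop))
  rw [hsum]
  refine (Finset.sum_le_sum fun j _ => ?_).trans (le_of_eq (by simp : ∑ i ∈ Finset.range n, q = _))
  have := (shift_mp μ j).lintegral_comp (measurable_GG h n)
  rw [this]
  exact hgreen

/-- `K^θ m^(2θ) φ^m → 0` -/
theorem stepD (θ φ K ε : ℝ) (hφ : 0 < φ) (hφ1 : φ < 1) (hK : 1 ≤ K) (hε : 0 < ε) :
    ∃ m₀ : ℕ, ∀ m : ℕ, m₀ ≤ m → ∀ n : ℕ, m ≤ n →
      Real.exp (θ * Real.log (K * m ^ 2)) * φ ^ n ≤ ε := by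
  obtain ⟨k, hk⟩ := exists_nat_ge θ
  have h1 : Tendsto (fun m : ℕ => K ^ k * ((m : ℝ) ^ (2 * k) * φ ^ m)) atTop (𝓝 (K ^ k * 0)) :=
    (tendsto_pow_const_mul_const_pow_of_abs_lt_one (2 * k)
      (by rw [abs_of_pos hφ]; exact hφ1)).const_mul _
  rw [mul_zero] at h1
  obtain ⟨m₀, hm₀⟩ := (h1.eventually (ge_mem_nhds hε)).exists_forall_of_atTop
  refine ⟨max m₀ 1, fun m hm n hn => ?_⟩
  have hm1 : (1 : ℝ) ≤ m := by exact_mod_cast (le_max_right _ _).trans hm
  have hKm : 1 ≤ K * (m : ℝ) ^ 2 := by nlinarith [mul_le_mul hK (one_le_pow₀ hm1 (n := 2)) (by norm_num) (by linarith)]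
  have hlog : 0 ≤ Real.log (K * m ^ 2) := Real.log_nonneg hKm
  have e1 : Real.exp (θ * Real.log (K * m ^ 2)) ≤ (K * (m : ℝ) ^ 2) ^ k := by
    rw [← Real.exp_log (show (0 : ℝ) < (K * (m : ℝ) ^ 2) ^ k by positivity), Real.log_pow]
    exact Real.exp_le_exp.2 (mul_le_mul_of_nonneg_right hk hlog)
  calc Real.exp (θ * Real.log (K * m ^ 2)) * φ ^ n ≤ (K * (m : ℝ) ^ 2) ^ k * φ ^ m :=
        mul_le_mul e1 (pow_le_pow_of_le_one hφ.le hφ1.le hn) (by positivity) (by positivity)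
    _ = K ^ k * ((m : ℝ) ^ (2 * k) * φ ^ m) := by rw [mul_pow, ← pow_mul]; ring
    _ ≤ ε := hm₀ m ((le_max_left _ _).trans hm)

/-- `S_n > -h` unless there is a fall of height `h` -/
theorem nofall_sub (h : ℝ) (n : ℕ) (hn : 1 ≤ n) :
    {x : ℕ → ℝ | ¬ ∃ i < n, h ≤ Sm x i - Sm x n} ⊆ {x | -h ≤ Sm x n} := by
  intro x hx
  simp only [Set.mem_ofPred_eq, not_exists, not_and, not_le] at hx ⊢
  have := hx 0 (by omega)
  rw [Sm_zero] at this
  linarith

theorem exp_half (K : ℝ) (hK : 0 < K) (m : ℕ) (hm : 1 ≤ m) :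
    Real.exp (Real.log (K * m ^ 2) / 2) = Real.sqrt K * m := by
  have hm0 : (0 : ℝ) < m := by exact_mod_cast hm
  have h0 : (0 : ℝ) < Real.sqrt K * m := mul_pos (Real.sqrt_pos.2 hK) hm0
  have : K * (m : ℝ) ^ 2 = (Real.sqrt K * m) ^ 2 := by rw [mul_pow, Real.sq_sqrt hK.le]
  rw [this, Real.log_pow]
  push_cast
  rw [mul_div_cancel_left₀ _ (by norm_num : (2 : ℝ) ≠ 0), Real.exp_log h0]

/-- the statement of EA -/
def S_pos : Prop := ∀ (μ : Measure ℝ) [IsProbabilityMeasure μ] (L : ℝ) (_ : ∀ᵐ x ∂μ, |x| ≤ L)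
    (_ : 0 < ∫ x, x ∂μ), ∃ A c : ℝ, 0 < A ∧ 0 < c ∧ ∀ n : ℕ, ENNReal.ofReal c ≤
      (Measure.infinitePi fun _ : ℕ => μ) {x | (∀ k, 1 ≤ k → k ≤ n → 0 < Sm x k) ∧
        ∑ k ∈ Finset.range (n + 1), Real.exp (-Sm x k) ≤ A}

/-- the maximal inequality -/
def S_max : Prop := ∀ (μ : Measure ℝ) [IsProbabilityMeasure μ] (L : ℝ) (_ : ∀ᵐ x ∂μ, |x| ≤ L)
    (_ : ∫ x, Real.exp (x / 2) ∂μ = 1) (h : ℝ) (n : ℕ),
    (Measure.infinitePi fun _ : ℕ => μ) {x | ∃ k ≤ n, h ≤ Sm x k} ≤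
      ENNReal.ofReal (Real.exp (-h / 2))

/-- the Green function estimate -/
def S_green : Prop := ∀ (μ : Measure ℝ) [IsProbabilityMeasure μ] (L : ℝ) (_ : ∀ᵐ x ∂μ, |x| ≤ L)
    (_ : ∫ x, Real.exp (x / 2) ∂μ = 1) (_ : ∫ x, x ∂μ < 0), ∃ C : ℝ, 0 < C ∧
    ∀ (h : ℝ) (n : ℕ), 0 ≤ h → ∫⁻ x, ∑ k ∈ Finset.range (n + 1),
      (Set.indicator {x : ℕ → ℝ | ∀ j ≤ k, Sm x j < h} (fun x => ENNReal.ofReal (Real.exp (Sm x k))) x)
        ∂(Measure.infinitePi fun _ : ℕ => μ) ≤ ENNReal.ofReal (C * Real.exp (h / 2))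

/-- Chernoff -/
def S_chern : Prop := ∀ (μ : Measure ℝ) [IsProbabilityMeasure μ] (L : ℝ) (_ : ∀ᵐ x ∂μ, |x| ≤ L)
    (_ : ∫ x, x ∂μ < 0), ∃ θ φ : ℝ, 0 < θ ∧ 0 < φ ∧ φ < 1 ∧
    ∀ (h : ℝ) (n : ℕ), (Measure.infinitePi fun _ : ℕ => μ) {x | -h ≤ Sm x n} ≤
      ENNReal.ofReal (Real.exp (θ * h) * φ ^ n)

theorem left_part_aux (hEA : S_pos) (hEM : S_max) (hEG : S_green) (hEC : S_chern)
    (μ : Measure ℝ) [IsProbabilityMeasure μ] (L : ℝ) (hL : ∀ᵐ x ∂μ, |x| ≤ L)
    (h1 : ∫ x, Real.exp (x / 2) ∂μ = 1) (h2 : ∫ x, x ∂μ < 0) :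
    ∃ A C c K₀ : ℝ, 0 < A ∧ 0 < C ∧ 0 < c ∧ 0 < K₀ ∧ ∀ K : ℝ, K₀ ≤ K → ∃ m₀ : ℕ, ∀ m : ℕ, m₀ ≤ m →
      ∀ n : ℕ, m ≤ n → n ≤ 2 * m → ENNReal.ofReal c ≤ (Measure.infinitePi fun _ : ℕ => μ)
        {x | (∀ i < n, Sm x n < Sm x i) ∧
          (∑ i ∈ Finset.range (n + 1), Real.exp (-(Sm x i - Sm x n)) ≤ A) ∧
          (∃ i < n, Real.log (K * m ^ 2) ≤ Sm x i - Sm x n) ∧
          (∀ i j, i < j → j ≤ n → Sm x j - Sm x i < Real.log (K * m ^ 2)) ∧
          (∑ i ∈ Finset.range n, ∑ j ∈ Finset.range (i + 1), Real.exp (Sm x i - Sm x j) ≤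
            C * Real.sqrt K * m ^ 2)} := by
  have hprob : IsProbabilityMeasure (μ.map (fun x : ℝ => -x)) :=
    Measure.isProbabilityMeasure_map measurable_neg.aemeasurable
  obtain ⟨A, c₀, hA, hc₀, hpos⟩ := hEA (μ.map (fun x : ℝ => -x)) L
    ((ae_map_iff measurable_neg.aemeasurable
      (measurableSet_le (by fun_prop) measurable_const)).2 (by simpa using hL))
    (by
      rw [integral_map measurable_neg.aemeasurable (by fun_prop), integral_neg]
      linarith)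
  obtain ⟨C₁, hC₁, hgreen⟩ := hEG μ L hL h1 h2
  obtain ⟨θ, φ, hθ, hφ, hφ1, hch⟩ := hEC μ L hL h2
  refine ⟨A, 16 * C₁ / c₀, c₀ / 2, (8 / c₀) ^ 2 + 2, hA, by positivity, by positivity,
    by positivity, fun K hK => ?_⟩
  have hK1 : 1 ≤ K := by nlinarith [sq_nonneg (8 / c₀)]
  have hK0 : 0 < K := by linarith
  have hsK : 8 / c₀ ≤ Real.sqrt K := by
    refine Real.le_sqrt_of_sq_le ?_
    linarith
  obtain ⟨m₀, hm₀⟩ := stepD θ φ K (c₀ / 8) hφ hφ1 hK1 (by positivity)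
  refine ⟨max m₀ 1, fun m hm n hn hn2 => ?_⟩
  have hm1 : 1 ≤ m := (le_max_right _ _).trans hm
  have hmr : (1 : ℝ) ≤ m := by exact_mod_cast hm1
  have hnr : (n : ℝ) ≤ 2 * m := by exact_mod_cast hn2
  set h := Real.log (K * (m : ℝ) ^ 2) with hh
  have hKm : 1 < K * (m : ℝ) ^ 2 := by
    have : 2 ≤ K := by nlinarith [sq_nonneg (8 / c₀)]
    nlinarith [one_le_pow₀ hmr (n := 2)]
  have hpos' : 0 < h := Real.log_pos hKm
  have ehalf : Real.exp (h / 2) = Real.sqrt K * m := exp_half K hK0 m hm1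
  have hsKpos : 0 < Real.sqrt K := Real.sqrt_pos.2 hK0
  set P := (Measure.infinitePi fun _ : ℕ => μ) with hP
  set E12 : Set (ℕ → ℝ) := {x | (∀ i < n, Sm x n < Sm x i) ∧
        ∑ i ∈ Finset.range (n + 1), Real.exp (-(Sm x i - Sm x n)) ≤ A} with hE12
  set G : Set (ℕ → ℝ) := {x | (∀ i < n, Sm x n < Sm x i) ∧
          (∑ i ∈ Finset.range (n + 1), Real.exp (-(Sm x i - Sm x n)) ≤ A) ∧
          (∃ i < n, h ≤ Sm x i - Sm x n) ∧
          (∀ i j, i < j → j ≤ n → Sm x j - Sm x i < h) ∧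
          (∑ i ∈ Finset.range n, ∑ j ∈ Finset.range (i + 1), Real.exp (Sm x i - Sm x j) ≤
            16 * C₁ / c₀ * Real.sqrt K * m ^ 2)} with hG
  set B3 : Set (ℕ → ℝ) := {x | ¬ ∃ i < n, h ≤ Sm x i - Sm x n} with hB3
  set B4 : Set (ℕ → ℝ) := {x | ¬ ∀ i j, i < j → j ≤ n → Sm x j - Sm x i < h} with hB4
  set B5 : Set (ℕ → ℝ) := {x | (∀ i j, i < j → j ≤ n → Sm x j - Sm x i < h) ∧
        ¬ (∑ i ∈ Finset.range n, ∑ j ∈ Finset.range (i + 1), Real.exp (Sm x i - Sm x j) ≤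
          16 * C₁ / c₀ * Real.sqrt K * m ^ 2)} with hB5
  have q12 : ENNReal.ofReal c₀ ≤ P E12 := stepA μ A c₀ n (hpos n)
  have q3 : P B3 ≤ ENNReal.ofReal (c₀ / 8) := by
    refine (measure_mono (nofall_sub h n (hm1.trans hn))).trans ((hch h n).trans ?_)
    exact ENNReal.ofReal_le_ofReal (hm₀ m ((le_max_left _ _).trans hm) n hn)
  have q4 : P B4 ≤ ENNReal.ofReal (c₀ / 4) := by
    refine (stepB μ h n _ (hEM μ L hL h1 h n)).trans ?_
    rw [← ENNReal.ofReal_natCast, ← ENNReal.ofReal_mul (by positivity)]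
    refine ENNReal.ofReal_le_ofReal ?_
    have e1 : Real.exp (-h / 2) = (Real.sqrt K * m)⁻¹ := by
      rw [← ehalf, ← Real.exp_neg, neg_div]
    rw [e1, ← div_eq_mul_inv, div_le_iff₀ (by positivity)]
    have : 8 ≤ c₀ * Real.sqrt K := by
      rw [div_le_iff₀ hc₀] at hsK; linarith
    nlinarith
  have q5 : P B5 ≤ ENNReal.ofReal (c₀ / 8) := by
    have hGp : 0 < 16 * C₁ / c₀ * Real.sqrt K * (m : ℝ) ^ 2 := by positivity
    refine (stepC μ h hpos' n _ _ hGp (hgreen h n hpos'.le)).trans ?_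
    rw [← ENNReal.ofReal_natCast, ← ENNReal.ofReal_mul (by positivity),
      ← ENNReal.ofReal_div_of_pos hGp]
    refine ENNReal.ofReal_le_ofReal ?_
    rw [div_le_iff₀ hGp, ehalf]
    have e2 : c₀ / 8 * (16 * C₁ / c₀ * Real.sqrt K * (m : ℝ) ^ 2) =
        (2 * m) * (C₁ * (Real.sqrt K * m)) := by
      field_simp
      ring
    rw [e2]
    exact mul_le_mul_of_nonneg_right hnr (by positivity)
  have hsub : E12 ⊆ G ∪ (B3 ∪ (B4 ∪ B5)) := by
    rintro x ⟨hx1, hx2⟩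
    by_cases hx3 : x ∈ B3
    · exact Or.inr (Or.inl hx3)
    by_cases hx4 : x ∈ B4
    · exact Or.inr (Or.inr (Or.inl hx4))
    by_cases hx5 : x ∈ B5
    · exact Or.inr (Or.inr (Or.inr hx5))
    left
    have hx3' : ∃ i < n, h ≤ Sm x i - Sm x n := not_not.1 hx3
    have hx4' : ∀ i j, i < j → j ≤ n → Sm x j - Sm x i < h := not_not.1 hx4
    refine ⟨hx1, hx2, hx3', hx4', ?_⟩
    by_contra hx6
    exact hx5 ⟨hx4', hx6⟩
  have htot : ENNReal.ofReal c₀ ≤ P G + ENNReal.ofReal (c₀ / 2) := by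
    refine q12.trans ((measure_mono hsub).trans ((measure_union_le _ _).trans ?_))
    gcongr
    refine (measure_union_le _ _).trans ((add_le_add q3 ((measure_union_le _ _).trans
      (add_le_add q4 q5))).trans (le_of_eq ?_))
    rw [← ENNReal.ofReal_add (by positivity) (by positivity),
      ← ENNReal.ofReal_add (by positivity) (by positivity)]
    congr 1
    ring
  have hsplit : ENNReal.ofReal c₀ = ENNReal.ofReal (c₀ / 2) + ENNReal.ofReal (c₀ / 2) := by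
    rw [← ENNReal.ofReal_add (by positivity) (by positivity)]
    congr 1
    ring
  rw [hsplit] at htot
  exact (ENNReal.add_le_add_iff_right ENNReal.ofReal_ne_top).1 htot

end Pool.Agent.H96.RW.LeftAux
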