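import Pool.Agent.H96.RW.Defs

/-!
# Upper bound for the simple random walk
-/

namespace Pool.Agent.H96.RW

/-- The explicit transition function of the simple random walk. -/
noncomputable def GG (n : ℕ) (m : ℤ) : ℝ :=
  if Even m ∧ 0 ≤ m then ((n.choose (m / 2).toNat : ℕ) : ℝ) / 2 ^ n else 0

theorem GG_even (n k : ℕ) : GG n (2 * (k : ℤ)) = ((n.choose k : ℕ) : ℝ) / 2 ^ n := by
  unfold GG
  rw [if_pos ⟨even_two_mul _, by positivity⟩]
  congr 3
  omega

theorem GG_neg (n : ℕ) (m : ℤ) (h : m < 0) : GG n m = 0 := by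
  unfold GG
  rw [if_neg (fun h' => absurd h'.2 (by omega))]

theorem GG_odd (n : ℕ) (m : ℤ) (h : ¬ Even m) : GG n m = 0 := by
  unfold GG
  rw [if_neg (fun h' => h h'.1)]

theorem GG_rec (n : ℕ) (m : ℤ) : GG (n + 1) m = 1 / 2 * GG n (m - 2) + (1 - 1 / 2) * GG n m := by
  by_cases he : Even m
  · rcases lt_or_ge m 0 with hneg | hpos
    · rw [GG_neg _ _ hneg, GG_neg _ _ hneg, GG_neg _ _ (by omega)]
      ring
    · obtain ⟨a, ha⟩ := he
      obtain ⟨k, hk⟩ : ∃ k : ℕ, m = 2 * (k : ℤ) := ⟨a.toNat, by omega⟩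
      subst hk
      cases k with
      | zero =>
        rw [GG_even, GG_even, GG_neg _ _ (by simp)]
        simp only [Nat.choose_zero_right]
        rw [pow_succ]
        push_cast
        field_simp
        ring
      | succ k =>
        have e : 2 * ((k + 1 : ℕ) : ℤ) - 2 = 2 * (k : ℤ) := by push_cast; ring
        rw [e, GG_even, GG_even, GG_even, Nat.choose_succ_succ, pow_succ]
        push_cast
        field_simp
        ring
  · have he2 : ¬ Even (m - 2) := fun h => he (by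
      obtain ⟨a, ha⟩ := h
      exact ⟨a + 1, by omega⟩)
    rw [GG_odd _ _ he, GG_odd _ _ he, GG_odd _ _ he2]
    ring

theorem pn_eq_GG (n : ℕ) : ∀ x y : ℤ, pn (fun _ => 1 / 2) n x y = GG n (y - x + n) := by
  induction n with
  | zero =>
    intro x y
    simp only [pn]
    by_cases h : x = y
    · subst h
      rw [if_pos rfl]
      have : x - x + ((0 : ℕ) : ℤ) = 2 * ((0 : ℕ) : ℤ) := by push_cast; ring
      rw [this, GG_even]
      norm_num
    · rw [if_neg h]
      by_cases he : Even (y - x + ((0 : ℕ) : ℤ))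
      · rcases lt_or_ge (y - x + ((0 : ℕ) : ℤ)) 0 with hneg | hpos
        · rw [GG_neg _ _ hneg]
        · obtain ⟨a, ha⟩ := he
          obtain ⟨k, hk⟩ : ∃ k : ℕ, y - x + ((0 : ℕ) : ℤ) = 2 * (k : ℤ) := ⟨a.toNat, by omega⟩
          rw [hk, GG_even]
          have hk0 : k ≠ 0 := by
            rintro rfl
            apply h
            push_cast at hk
            omega
          obtain ⟨i, rfl⟩ : ∃ i, k = i + 1 := ⟨k - 1, by omega⟩
          simp
      · rw [GG_odd _ _ he]
  | succ n ih =>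
    intro x y
    simp only [pn]
    rw [ih, ih, GG_rec]
    have e1 : y - (x + 1) + (n : ℤ) = y - x + ((n + 1 : ℕ) : ℤ) - 2 := by push_cast; ring
    have e2 : y - (x - 1) + (n : ℤ) = y - x + ((n + 1 : ℕ) : ℤ) := by push_cast; ring
    rw [e1, e2]

theorem central_sq (n : ℕ) : ((n.centralBinom : ℕ) : ℝ) ^ 2 * (2 * n + 1) ≤ (4 ^ n) ^ 2 := by
  induction n with
  | zero => simp
  | succ n ih =>
    have h : ((n : ℝ) + 1) * ((n + 1).centralBinom : ℝ) = 2 * (2 * n + 1) * (n.centralBinom : ℝ) := by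
      have := Nat.succ_mul_centralBinom_succ n
      have h2 : (((n + 1) * (n + 1).centralBinom : ℕ) : ℝ) = ((2 * (2 * n + 1) * n.centralBinom : ℕ) : ℝ) := by
        rw [this]
      push_cast at h2
      linarith
    have hn : (0 : ℝ) < (n : ℝ) + 1 := by positivity
    have h3 : ((n + 1).centralBinom : ℝ) = 2 * (2 * n + 1) * (n.centralBinom : ℝ) / (n + 1) := by
      field_simp
      linarith
    rw [h3]
    push_cast
    have h4 : (2 * (2 * (n : ℝ) + 1) * (n.centralBinom : ℝ) / (n + 1)) ^ 2 * (2 * ((n : ℝ) + 1) + 1) =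
        ((n.centralBinom : ℝ) ^ 2 * (2 * n + 1)) *
          (4 * (2 * n + 1) * (2 * n + 3) / (n + 1) ^ 2) := by
      field_simp
      ring
    rw [h4]
    have h5 : 4 * (2 * (n : ℝ) + 1) * (2 * n + 3) / (n + 1) ^ 2 ≤ 16 := by
      rw [div_le_iff₀ (by positivity)]
      nlinarith
    have h6 : 0 ≤ 4 * (2 * (n : ℝ) + 1) * (2 * n + 3) / (n + 1) ^ 2 := by positivity
    calc ((n.centralBinom : ℝ) ^ 2 * (2 * n + 1)) * (4 * (2 * n + 1) * (2 * n + 3) / (n + 1) ^ 2) ≤
        (4 ^ n) ^ 2 * 16 := mul_le_mul ih h5 h6 (by positivity)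
      _ = (4 ^ (n + 1)) ^ 2 := by rw [pow_succ]; ring

theorem central_le (n : ℕ) : ((n.centralBinom : ℕ) : ℝ) / 4 ^ n ≤ 1 / Real.sqrt (2 * n + 1) := by
  have h := central_sq n
  have hs : 0 < Real.sqrt (2 * (n : ℝ) + 1) := Real.sqrt_pos.mpr (by positivity)
  rw [div_le_div_iff₀ (by positivity) hs, one_mul]
  refine le_of_sq_le_sq ?_ (by positivity)
  rw [mul_pow, Real.sq_sqrt (by positivity)]
  exact h

theorem GG_le (n : ℕ) (hn : 1 ≤ n) (m : ℤ) : GG n m ≤ 1 / Real.sqrt n := by
  have hn0 : (0 : ℝ) < n := by exact_mod_cast hn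
  by_cases he : Even m ∧ 0 ≤ m
  · unfold GG
    rw [if_pos he]
    have h1 : n.choose (m / 2).toNat ≤ n.choose (n / 2) := Nat.choose_le_middle _ _
    have h2 : ((n.choose (m / 2).toNat : ℕ) : ℝ) / 2 ^ n ≤ ((n.choose (n / 2) : ℕ) : ℝ) / 2 ^ n :=
      div_le_div_of_nonneg_right (by exact_mod_cast h1) (by positivity)
    refine h2.trans ?_
    rcases Nat.even_or_odd' n with ⟨k, hk | hk⟩
    · subst hk
      have e : 2 * k / 2 = k := by omega
      rw [e]
      have h3 := central_le k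
      rw [Nat.centralBinom_eq_two_mul_choose] at h3
      have e4 : (2 : ℝ) ^ (2 * k) = 4 ^ k := by rw [pow_mul]; norm_num
      rw [e4]
      refine h3.trans ?_
      refine one_div_le_one_div_of_le (Real.sqrt_pos.mpr hn0) (Real.sqrt_le_sqrt ?_)
      push_cast; linarith
    · subst hk
      have e : (2 * k + 1) / 2 = k := by omega
      rw [e]
      have h3 := central_le (k + 1)
      rw [Nat.centralBinom_eq_two_mul_choose] at h3
      have h5 : ((2 * (k + 1)).choose (k + 1)) = 2 * (2 * k + 1).choose k := by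
        have : 2 * (k + 1) = (2 * k + 1) + 1 := by ring
        rw [this, Nat.choose_succ_succ, Nat.choose_symm_half]
        ring
      rw [h5] at h3
      have e4 : ((2 * (2 * k + 1).choose k : ℕ) : ℝ) / 4 ^ (k + 1) =
          (((2 * k + 1).choose k : ℕ) : ℝ) / 2 ^ (2 * k + 1) := by
        have e5 : (4 : ℝ) ^ (k + 1) = 2 * 2 ^ (2 * k + 1) := by
          rw [pow_succ, pow_succ, pow_mul]; norm_num; ring
        rw [e5]
        push_cast
        field_simp
      rw [e4] at h3
      refine h3.trans ?_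
      refine one_div_le_one_div_of_le (Real.sqrt_pos.mpr hn0) (Real.sqrt_le_sqrt ?_)
      push_cast; linarith
  · unfold GG
    rw [if_neg he]
    positivity

theorem srw_up : ∃ C : ℝ, 0 < C ∧ ∀ n : ℕ, 1 ≤ n → ∀ x y : ℤ,
    pn (fun _ => 1 / 2) n x y ≤ C / Real.sqrt n := by
  refine ⟨1, one_pos, fun n hn x y => ?_⟩
  rw [pn_eq_GG]
  exact GG_le n hn _

end Pool.Agent.H96.RW
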