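import Pool.Agent.H96.RW.Defs

set_option autoImplicit false

/-!
# The laws of the walks, jointly and at two times
-/

namespace Pool.Agent.H96.RW

open MeasureTheory ProbabilityTheory Filter Topology
open scoped ENNReal

namespace W0

section general

variable {X : Type*}

/-- Put `p.1` in front of `p.2`. -/
def jn (p : X × (ℕ → X)) : ℕ → X := fun k => Nat.casesOn k p.1 p.2

@[simp] theorem jn_zero (p : X × (ℕ → X)) : jn p 0 = p.1 := rfl

@[simp] theorem jn_succ (p : X × (ℕ → X)) (k : ℕ) : jn p (k + 1) = p.2 k := rfl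

variable [MeasurableSpace X]

theorem jn_meas : Measurable (jn : X × (ℕ → X) → ℕ → X) := by
  refine measurable_pi_lambda _ fun k => ?_
  match k with
  | 0 => exact measurable_fst
  | k + 1 => exact (measurable_pi_apply k).comp measurable_snd

theorem prod_nat (s : Finset ℕ) (g : ℕ → ℝ≥0∞) :
    ∏ k ∈ s, g k = (if 0 ∈ s then g 0 else 1) *
      ∏ k ∈ s.preimage Nat.succ (Nat.succ_injective.injOn), g (k + 1) := by
  classical
  have h1 : (if 0 ∈ s then g 0 else 1) = ∏ k ∈ s, if k = 0 then g k else 1 := by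
    rw [Finset.prod_ite_eq' s 0 g]
  rw [h1, Finset.prod_preimage' Nat.succ s (Nat.succ_injective.injOn) g, Finset.prod_filter,
    ← Finset.prod_mul_distrib]
  refine Finset.prod_congr rfl fun k _ => ?_
  match k with
  | 0 => simp
  | k + 1 => simp

theorem jn_mp (μ : Measure X) [IsProbabilityMeasure μ] :
    MeasurePreserving (jn : X × (ℕ → X) → ℕ → X)
      (μ.prod (Measure.infinitePi fun _ : ℕ => μ)) (Measure.infinitePi fun _ : ℕ => μ) := by
  classical
  refine ⟨jn_meas, ?_⟩
  refine Measure.eq_infinitePi _ fun s t ht => ?_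
  have hms : MeasurableSet (Set.pi (s : Set ℕ) t) :=
    MeasurableSet.pi s.countable_toSet fun i _ => ht i
  have hpre : (jn : X × (ℕ → X) → ℕ → X) ⁻¹' (Set.pi (s : Set ℕ) t) =
      (if 0 ∈ s then t 0 else Set.univ) ×ˢ
        (Set.pi ((s.preimage Nat.succ (Nat.succ_injective.injOn) : Finset ℕ) : Set ℕ)
          fun k => t (k + 1)) := by
    ext p
    simp only [Set.mem_preimage, Set.mem_pi, Finset.mem_coe, Set.mem_prod, Finset.mem_preimage]
    constructor
    · intro h
      refine ⟨?_, fun k hk => h _ hk⟩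
      split_ifs with h0
      · exact h _ h0
      · exact Set.mem_univ _
    · rintro ⟨h0, h1⟩ k hk
      match k, hk with
      | 0, hk =>
        rw [if_pos hk] at h0
        exact h0
      | k + 1, hk => exact h1 k hk
  rw [Measure.map_apply jn_meas hms, hpre, Measure.prod_prod, prod_nat s fun k => μ (t k)]
  congr 1
  · split_ifs with h0
    · rfl
    · exact measure_univ
  · exact Measure.infinitePi_pi _ fun k _ => ht _

/-- Conditioning on the first number. -/
theorem first_apply (μ : Measure X) [IsProbabilityMeasure μ] {A : Set (ℕ → X)}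
    (hA : MeasurableSet A) : (Measure.infinitePi fun _ : ℕ => μ) A =
      ∫⁻ v, (Measure.infinitePi fun _ : ℕ => μ) {u | jn (v, u) ∈ A} ∂μ := by
  conv_lhs => rw [← (jn_mp μ).map_eq]
  rw [Measure.map_apply jn_meas hA, Measure.prod_apply (jn_meas hA)]
  rfl

end general

/-- One step. -/
noncomputable def step (w : ℤ → ℝ) (x : ℤ) (v : ℝ) : ℤ := by
  classical
  exact if v < w x then x + 1 else x - 1

theorem path_zero (w : ℤ → ℝ) (x : ℤ) (u : ℕ → ℝ) : path w x u 0 = x := rfl

theorem path_succ (w : ℤ → ℝ) (x : ℤ) (u : ℕ → ℝ) (n : ℕ) :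
    path w x u (n + 1) = step w (path w x u n) (u n) := rfl

theorem path_succ' (w : ℤ → ℝ) (x : ℤ) (u : ℕ → ℝ) (n : ℕ) :
    path w x u (n + 1) = path w (step w x (u 0)) (fun k => u (k + 1)) n := by
  induction n with
  | zero => rfl
  | succ n ih => rw [path_succ, ih, path_succ]

theorem path_meas (w : ℤ → ℝ) (x : ℤ) (n : ℕ) : Measurable fun u : ℕ → ℝ => path w x u n := by
  classical
  induction n with
  | zero => exact measurable_const
  | succ n ih =>
    have h1 : Measurable fun u : ℕ → ℝ => w (path w x u n) := (measurable_of_countable w).comp ih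
    have h2 : MeasurableSet {u : ℕ → ℝ | u n < w (path w x u n)} :=
      measurableSet_lt (measurable_pi_apply n) h1
    exact Measurable.ite h2 (ih.add_const 1) (ih.sub_const 1)

theorem pn_nonneg {w : ℤ → ℝ} (hw : ∀ x, 0 ≤ w x ∧ w x ≤ 1) (n : ℕ) (x y : ℤ) :
    0 ≤ pn w n x y := by
  induction n generalizing x with
  | zero =>
    unfold pn
    split_ifs <;> norm_num
  | succ n ih =>
    unfold pn
    exact add_nonneg (mul_nonneg (hw x).1 (ih _)) (mul_nonneg (by linarith [(hw x).2]) (ih _))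

theorem half_mem : ∀ x : ℤ, 0 ≤ (fun _ : ℤ => (1 / 2 : ℝ)) x ∧ (fun _ : ℤ => (1 / 2 : ℝ)) x ≤ 1 :=
  fun _ => by norm_num

theorem unif_Iio {c : ℝ} (h0 : 0 ≤ c) (h1 : c ≤ 1) : unif.real (Set.Iio c) = c := by
  unfold unif
  rw [measureReal_restrict_apply measurableSet_Iio]
  have h2 : Set.Iio c ∩ Set.Icc (0 : ℝ) 1 = Set.Ico 0 c := by
    ext v
    simp only [Set.mem_inter_iff, Set.mem_Iio, Set.mem_Icc, Set.mem_Ico]
    constructor
    · rintro ⟨a, b, -⟩
      exact ⟨b, a⟩
    · rintro ⟨a, b⟩
      exact ⟨b, a, by linarith⟩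
  rw [h2, Measure.real, Real.volume_Ico, sub_zero, ENNReal.toReal_ofReal h0]

theorem step_eq (w : ℤ → ℝ) (x : ℤ) (g : ℤ → ℝ) : (fun v => g (step w x v)) =
    fun v => (Set.Iio (w x)).indicator (fun _ => g (x + 1) - g (x - 1)) v + g (x - 1) := by
  classical
  funext v
  unfold step
  by_cases h : v < w x
  · rw [if_pos h, Set.indicator_of_mem (show v ∈ Set.Iio (w x) from h)]
    ring
  · rw [if_neg h, Set.indicator_of_notMem (show v ∉ Set.Iio (w x) from h)]
    ring

theorem step_int (w : ℤ → ℝ) (x : ℤ) (g : ℤ → ℝ) :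
    Integrable (fun v => g (step w x v)) unif := by
  rw [step_eq]
  exact ((integrable_const _).indicator measurableSet_Iio).add (integrable_const _)

theorem step_mean {w : ℤ → ℝ} (hw : ∀ x, 0 ≤ w x ∧ w x ≤ 1) (x : ℤ) (g : ℤ → ℝ) :
    ∫ v, g (step w x v) ∂unif = w x * g (x + 1) + (1 - w x) * g (x - 1) := by
  rw [step_eq, integral_add ((integrable_const _).indicator measurableSet_Iio)
    (integrable_const _), integral_indicator measurableSet_Iio, setIntegral_const,
    unif_Iio (hw x).1 (hw x).2, integral_const]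
  simp only [probReal_univ, smul_eq_mul, one_mul]
  ring

theorem step_pn {w : ℤ → ℝ} (hw : ∀ x, 0 ≤ w x ∧ w x ≤ 1) (n : ℕ) (x b : ℤ) :
    ∫ v, pn w n (step w x v) b ∂unif = pn w (n + 1) x b :=
  step_mean hw x fun y => pn w n y b

theorem lint_prod {d : ℕ} (f : Fin d → ℝ → ℝ) (g : ℝ → ℝ) (hf : ∀ j, Integrable (f j) unif)
    (hg : Integrable g unif) (hf0 : ∀ j v, 0 ≤ f j v) (hg0 : ∀ v, 0 ≤ g v) :
    ∫⁻ v, ENNReal.ofReal ((∏ j, f j (v.1 j)) * g v.2) ∂((Measure.pi fun _ : Fin d => unif).prod unif)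
      = ENNReal.ofReal ((∏ j, ∫ v, f j v ∂unif) * ∫ v, g v ∂unif) := by
  have h1 : Integrable (fun v : Fin d → ℝ => ∏ j, f j (v j)) (Measure.pi fun _ : Fin d => unif) :=
    Integrable.fintype_prod hf
  have h2 : Integrable (fun v : (Fin d → ℝ) × ℝ => (∏ j, f j (v.1 j)) * g v.2)
      ((Measure.pi fun _ : Fin d => unif).prod unif) := h1.mul_prod hg
  rw [← ofReal_integral_eq_lintegral_ofReal h2 (Filter.Eventually.of_forall fun v =>
    mul_nonneg (Finset.prod_nonneg fun j _ => hf0 j _) (hg0 _)),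
    integral_prod_mul (fun v : Fin d → ℝ => ∏ j, f j (v j)) g,
    integral_fintype_prod_eq_prod]

end W0

open W0

/-- The number `u 0` and the other numbers. -/
theorem first_nz (d : ℕ) {A : Set (ℕ → (Fin d → ℝ) × ℝ)} (hA : MeasurableSet A) :
    nz d A = ∫⁻ v, nz d {u | jn (v, u) ∈ A} ∂((Measure.pi fun _ : Fin d => unif).prod unif) :=
  first_apply _ hA

theorem meas_one {d : ℕ} (w : ℤ → ℝ) (x : ℤ) (n : ℕ) (j : Fin d) :
    Measurable fun u : ℕ → (Fin d → ℝ) × ℝ => path w x (fun k => (u k).1 j) n := by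
  refine (path_meas w x n).comp (measurable_pi_lambda _ fun k => ?_)
  exact (measurable_pi_apply j).comp (measurable_fst.comp (measurable_pi_apply k))

theorem meas_srw {d : ℕ} (w : ℤ → ℝ) (z : ℤ) (n : ℕ) :
    Measurable fun u : ℕ → (Fin d → ℝ) × ℝ => path w z (fun k => (u k).2) n := by
  refine (path_meas w z n).comp (measurable_pi_lambda _ fun k => ?_)
  exact measurable_snd.comp (measurable_pi_apply k)

theorem joint_meas {d : ℕ} (w : ℤ → ℝ) (n : ℕ) (x : Fin d → ℤ) (z b : ℤ) :
    MeasurableSet {u : ℕ → (Fin d → ℝ) × ℝ | (∀ j, path w (x j) (fun k => (u k).1 j) n = b) ∧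
      path (fun _ => 1 / 2) z (fun k => (u k).2) n = b} := by
  have h1 : MeasurableSet {u : ℕ → (Fin d → ℝ) × ℝ |
      ∀ j, path w (x j) (fun k => (u k).1 j) n = b} := by
    rw [show {u : ℕ → (Fin d → ℝ) × ℝ | ∀ j, path w (x j) (fun k => (u k).1 j) n = b} =
      ⋂ j, {u | path w (x j) (fun k => (u k).1 j) n = b} by ext u; simp]
    exact MeasurableSet.iInter fun j => (meas_one w (x j) n j) (measurableSet_singleton b)
  have h2 : MeasurableSet {u : ℕ → (Fin d → ℝ) × ℝ |
      path (fun _ => 1 / 2) z (fun k => (u k).2) n = b} :=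
    (meas_srw _ z n) (measurableSet_singleton b)
  exact h1.inter h2

/-- The law of all the walks at time `n`. -/
theorem joint {w : ℤ → ℝ} (hw : ∀ x, 0 ≤ w x ∧ w x ≤ 1) (d n : ℕ) (x : Fin d → ℤ) (z b : ℤ) :
    nz d {u | (∀ j, path w (x j) (fun k => (u k).1 j) n = b) ∧
      path (fun _ => 1 / 2) z (fun k => (u k).2) n = b} =
    ENNReal.ofReal ((∏ j, pn w n (x j) b) * pn (fun _ => 1 / 2) n z b) := by
  induction n generalizing x z with
  | zero =>
    simp only [path_zero]
    unfold pn
    by_cases h : (∀ j, x j = b) ∧ z = b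
    · rw [show {u : ℕ → (Fin d → ℝ) × ℝ | (∀ j, x j = b) ∧ z = b} = Set.univ by
        ext u; simpa using h, measure_univ, if_pos h.2,
        Finset.prod_congr rfl fun j _ => if_pos (h.1 j)]
      simp
    · rw [show {u : ℕ → (Fin d → ℝ) × ℝ | (∀ j, x j = b) ∧ z = b} = ∅ by
        ext u; simpa using h, measure_empty]
      rw [not_and_or] at h
      rcases h with h | h
      · push Not at h
        obtain ⟨j, hj⟩ := h
        rw [Finset.prod_eq_zero (Finset.mem_univ j) (if_neg hj)]
        simp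
      · rw [if_neg h]
        simp
  | succ n ih =>
    rw [first_nz d (joint_meas w (n + 1) x z b)]
    have h1 : ∀ v : (Fin d → ℝ) × ℝ, nz d {u | jn (v, u) ∈
        {u : ℕ → (Fin d → ℝ) × ℝ | (∀ j, path w (x j) (fun k => (u k).1 j) (n + 1) = b) ∧
          path (fun _ => 1 / 2) z (fun k => (u k).2) (n + 1) = b}} =
        ENNReal.ofReal ((∏ j, pn w n (step w (x j) (v.1 j)) b) *
          pn (fun _ => 1 / 2) n (step (fun _ => 1 / 2) z v.2) b) := by
      intro v
      rw [← ih]
      congr 1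
      ext u
      simp only [Set.mem_ofPred_eq, path_succ', jn_zero, jn_succ]
    rw [lintegral_congr h1, lint_prod (fun j v => pn w n (step w (x j) v) b)
      (fun v => pn (fun _ => 1 / 2) n (step (fun _ => 1 / 2) z v) b)
      (fun j => step_int w (x j) fun y => pn w n y b)
      (step_int _ z fun y => pn (fun _ => 1 / 2) n y b)
      (fun j v => pn_nonneg hw _ _ _) (fun v => pn_nonneg half_mem _ _ _)]
    simp only [step_pn hw, step_pn half_mem]

theorem lint_two (d : ℕ) (z : ℤ) (g : ℤ → ℝ) (hg : ∀ y, 0 ≤ g y) :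
    ∫⁻ v, ENNReal.ofReal (g (step (fun _ => 1 / 2) z v.2))
      ∂((Measure.pi fun _ : Fin d => unif).prod unif) =
    ENNReal.ofReal (1 / 2 * g (z + 1) + (1 - 1 / 2) * g (z - 1)) := by
  have h1 := lint_prod (d := d) (fun _ _ => 1) (fun v => g (step (fun _ => 1 / 2) z v))
    (fun j => integrable_const 1) (step_int _ z g) (fun _ _ => zero_le_one) (fun v => hg _)
  rw [step_mean half_mem] at h1
  simpa using h1

/-- The law of the simple random walk. -/
theorem srw_law (d n : ℕ) (z b : ℤ) :
    nz d {u | path (fun _ => 1 / 2) z (fun k => (u k).2) n = b} =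
      ENNReal.ofReal (pn (fun _ => 1 / 2) n z b) := by
  induction n generalizing z with
  | zero =>
    simp only [path_zero]
    unfold pn
    by_cases h : z = b
    · rw [if_pos h, show {u : ℕ → (Fin d → ℝ) × ℝ | z = b} = Set.univ by
        ext u; simpa using h, measure_univ]
      simp
    · rw [if_neg h, show {u : ℕ → (Fin d → ℝ) × ℝ | z = b} = ∅ by
        ext u; simpa using h, measure_empty]
      simp
  | succ n ih =>
    rw [first_nz d (A := {u | path (fun _ => 1 / 2) z (fun k => (u k).2) (n + 1) = b})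
      ((meas_srw _ z (n + 1)) (measurableSet_singleton b))]
    have h1 : ∀ v : (Fin d → ℝ) × ℝ, nz d {u | jn (v, u) ∈
        {u : ℕ → (Fin d → ℝ) × ℝ |
          path (fun _ => 1 / 2) z (fun k => (u k).2) (n + 1) = b}} =
        ENNReal.ofReal (pn (fun _ => 1 / 2) n (step (fun _ => 1 / 2) z v.2) b) := by
      intro v
      rw [← ih]
      congr 1
      ext u
      simp only [Set.mem_ofPred_eq, path_succ', jn_zero, jn_succ]
    rw [lintegral_congr h1, lint_two d z (fun y => pn (fun _ => 1 / 2) n y b)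
      fun y => pn_nonneg half_mem _ _ _]
    rfl

theorem two_meas {d : ℕ} (n m : ℕ) (z b : ℤ) :
    MeasurableSet {u : ℕ → (Fin d → ℝ) × ℝ | path (fun _ => 1 / 2) z (fun k => (u k).2) n = b ∧
      path (fun _ => 1 / 2) z (fun k => (u k).2) (n + m) = b} :=
  ((meas_srw _ z n) (measurableSet_singleton b)).inter
    ((meas_srw _ z (n + m)) (measurableSet_singleton b))

/-- The law of the simple random walk at two times. -/
theorem two (d n m : ℕ) (z b : ℤ) :
    nz d {u | path (fun _ => 1 / 2) z (fun k => (u k).2) n = b ∧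
      path (fun _ => 1 / 2) z (fun k => (u k).2) (n + m) = b} =
    ENNReal.ofReal (pn (fun _ => 1 / 2) n z b * pn (fun _ => 1 / 2) m b b) := by
  induction n generalizing z with
  | zero =>
    by_cases h : z = b
    · subst h
      have h1 := srw_law d m z z
      rw [show {u : ℕ → (Fin d → ℝ) × ℝ | path (fun _ => 1 / 2) z (fun k => (u k).2) 0 = z ∧
        path (fun _ => 1 / 2) z (fun k => (u k).2) (0 + m) = z} =
        {u | path (fun _ => 1 / 2) z (fun k => (u k).2) m = z} by
          ext u; simp [path_zero], h1]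
      simp [pn]
    · rw [show {u : ℕ → (Fin d → ℝ) × ℝ | path (fun _ => 1 / 2) z (fun k => (u k).2) 0 = b ∧
        path (fun _ => 1 / 2) z (fun k => (u k).2) (0 + m) = b} = ∅ by
          ext u; simp [path_zero, h], measure_empty]
      simp [pn, h]
  | succ n ih =>
    rw [first_nz d (two_meas (n + 1) m z b)]
    have h1 : ∀ v : (Fin d → ℝ) × ℝ, nz d {u | jn (v, u) ∈
        {u : ℕ → (Fin d → ℝ) × ℝ | path (fun _ => 1 / 2) z (fun k => (u k).2) (n + 1) = b ∧
          path (fun _ => 1 / 2) z (fun k => (u k).2) (n + 1 + m) = b}} =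
        ENNReal.ofReal (pn (fun _ => 1 / 2) n (step (fun _ => 1 / 2) z v.2) b *
          pn (fun _ => 1 / 2) m b b) := by
      intro v
      rw [← ih]
      congr 1
      ext u
      rw [show n + 1 + m = n + m + 1 by omega]
      simp only [Set.mem_ofPred_eq, path_succ', jn_zero, jn_succ]
    rw [lintegral_congr h1, lint_two d z
      (fun y => pn (fun _ => 1 / 2) n y b * pn (fun _ => 1 / 2) m b b)
      fun y => mul_nonneg (pn_nonneg half_mem _ _ _) (pn_nonneg half_mem _ _ _)]
    congr 1
    conv_rhs => rw [pn]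
    ring

end Pool.Agent.H96.RW
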